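import Mathlib

/-!
# The Pauli game: definitions and first lemmas

`Pt N` is the space `F_2^N × F_2^N` with the bilinear form `B (a,b) (a',b') = b · a'`, the quadratic
form `Q x = B x x` and its polar form `om`.  Totally singular subspaces are finsets.
-/

set_option autoImplicit false

namespace Pool.Agent.MP_ec946a.QT

open Finset

abbrev Vec (N : ℕ) : Type := Fin N → ZMod 2

abbrev Pt (N : ℕ) : Type := Vec N × Vec N

variable {N : ℕ}

/-- the bilinear form -/
def B (x y : Pt N) : ZMod 2 := ∑ i, x.2 i * y.1 i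

/-- the quadratic form -/
def Q (x : Pt N) : ZMod 2 := B x x

/-- the polar form -/
def om (x y : Pt N) : ZMod 2 := B x y + B y x

/-- the sign -/
noncomputable def sgn (t : ZMod 2) : ℝ := if t = 0 then 1 else -1

open Classical in
/-- the totally singular subspaces with `2 ^ m` elements -/
noncomputable def Sing (N m : ℕ) : Finset (Finset (Pt N)) :=
  univ.filter fun A => 0 ∈ A ∧ (∀ x ∈ A, ∀ y ∈ A, x + y ∈ A) ∧ (∀ x ∈ A, Q x = 0) ∧ A.card = 2 ^ m

/-- the subspace spanned by `A` and `z` -/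
def adj (A : Finset (Pt N)) (z : Pt N) : Finset (Pt N) :=
  univ.filter fun x => x ∈ A ∨ x + z ∈ A

/-- the singular vectors orthogonal to `A` outside `A` -/
def Z (A : Finset (Pt N)) : Finset (Pt N) :=
  univ.filter fun z => z ∉ A ∧ Q z = 0 ∧ ∀ x ∈ A, om x z = 0

/-- the subspaces of `D` with `2 ^ m` elements (the hyperplanes, if `D` has `2 ^ (m + 1)`) -/
noncomputable def hyp (m : ℕ) (D : Finset (Pt N)) : Finset (Finset (Pt N)) :=
  (Sing N m).filter fun A => A ⊆ D

/-- the function `f` is quadratic on `L` with polar form `B` -/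
def Quad (L : Finset (Pt N)) (f : Pt N → ZMod 2) : Prop :=
  ∀ x ∈ L, ∀ y ∈ L, f (x + y) = f x + f y + B x y

instance (L : Finset (Pt N)) (f : Pt N → ZMod 2) : Decidable (Quad L f) := by
  unfold Quad; infer_instance

/-- the labels of `L`: quadratic functions on `L`, extended by zero -/
def lab (L : Finset (Pt N)) : Finset (Pt N → ZMod 2) :=
  univ.filter fun f => Quad L f ∧ ∀ x, x ∉ L → f x = 0

/-- the number of elements of `Z A` for `A ∈ Sing N m` -/
noncomputable def eN (N m : ℕ) : ℝ := ((2 : ℝ) ^ (2 * N) / 2 ^ m + 2 ^ N) / 2 - 2 ^ m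

/-- the Pauli matrix of `x` -/
noncomputable def W (x : Pt N) : Matrix (Vec N) (Vec N) ℝ :=
  fun s t => if s = t + x.1 then sgn (∑ i, x.2 i * t i) else 0

/-- the projection of the label `q` of `L` -/
noncomputable def PL (m : ℕ) (L : Finset (Pt N)) (q : Pt N → ZMod 2) :
    Matrix (Vec N) (Vec N) ℝ :=
  (1 / 2 ^ m : ℝ) • ∑ x ∈ L, sgn (q x) • W x

/-- the sum of `f` over the extensions of `A` -/
noncomputable def up (f : Finset (Pt N) → ℝ) (A : Finset (Pt N)) : ℝ := ∑ z ∈ Z A, f (adj A z)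

/-- the sum of `g` over the hyperplanes of `L` -/
noncomputable def dn (m : ℕ) (g : Finset (Pt N) → ℝ) (L : Finset (Pt N)) : ℝ :=
  ∑ A ∈ hyp m L, g A

section labelling

variable (lam mu : Finset (Pt N) → Pt N → ZMod 2)

/-- the extensions of `A` at which the labelling is satisfied -/
def F (A : Finset (Pt N)) : Finset (Pt N) :=
  (Z A).filter fun z => ∀ x ∈ A, lam (adj A z) x = mu A x

/-- the extensions `z` of `adj A w` for which both other hyperplanes through `A` agree with the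
label of `A` -/
def P2 (A : Finset (Pt N)) (w : Pt N) : Finset (Pt N) :=
  (Z (adj A w)).filter fun z => z ∈ F lam mu A ∧ z + w ∈ F lam mu A

/-- the value at `w` of the common extension -/
def cc (A : Finset (Pt N)) (w z : Pt N) : ZMod 2 :=
  lam (adj A z) z + lam (adj A (z + w)) (z + w) + B z w

/-- the configurations which agree on `A` and disagree on `adj A w` -/
noncomputable def nu (m : ℕ) : ℝ :=
  ∑ A ∈ Sing N m, ∑ w ∈ Z A, ∑ z ∈ P2 lam mu A w, ∑ z' ∈ P2 lam mu A w,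
    if cc lam A w z ≠ cc lam A w z' then (1 : ℝ) else 0

/-- the number of hyperplanes of `M` whose label fits the function `g` -/
noncomputable def hh (m : ℕ) (M : Finset (Pt N)) (g : Pt N → ZMod 2) : ℕ :=
  ((hyp m M).filter fun L => ∀ x ∈ L, lam L x = g x).card

/-- the heavy labels of `M` -/
noncomputable def heavy (m : ℕ) (τ : ℝ) (M : Finset (Pt N)) : Finset (Pt N → ZMod 2) :=
  (lab M).filter fun g => τ * (2 ^ (m + 1) - 1) ≤ (hh lam m M g : ℝ)

/-- the light labels of `M` -/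
noncomputable def light (m : ℕ) (τ : ℝ) (M : Finset (Pt N)) : Finset (Pt N → ZMod 2) :=
  (lab M).filter fun g => (hh lam m M g : ℝ) < τ * (2 ^ (m + 1) - 1)

open Classical in
/-- the number of light labels which fit the two other hyperplanes through `A` -/
noncomputable def ell (m : ℕ) (τ : ℝ) (A : Finset (Pt N)) (w z : Pt N) : ℝ :=
  (((light lam (m + 1) τ (adj (adj A w) z)).filter fun g =>
    (∀ x ∈ adj A z, lam (adj A z) x = g x) ∧
    (∀ x ∈ adj A (z + w), lam (adj A (z + w)) x = g x)).card : ℝ)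

end labelling

/-! ### First lemmas -/

lemma B_add_left (x y z : Pt N) : B (x + y) z = B x z + B y z := by
  simp [B, add_mul, sum_add_distrib]

lemma B_add_right (x y z : Pt N) : B x (y + z) = B x y + B x z := by
  simp [B, mul_add, sum_add_distrib]

@[simp] lemma B_zero_left (x : Pt N) : B 0 x = 0 := by simp [B]

@[simp] lemma B_zero_right (x : Pt N) : B x 0 = 0 := by simp [B]

@[simp] lemma Q_zero : Q (0 : Pt N) = 0 := by simp [Q]

lemma z2 (t : ZMod 2) : t + t = 0 := CharTwo.add_self_eq_zero t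

lemma pt2 (x : Pt N) : x + x = 0 := by
  ext i <;> simp [z2]

lemma add_add_cancel_pt (x y : Pt N) : x + y + y = x := by
  rw [add_assoc, pt2, add_zero]

lemma add_add_cancel_pt' (x y : Pt N) : y + (y + x) = x := by
  rw [← add_assoc, pt2, zero_add]

lemma add_eq_zero_pt {x y : Pt N} : x + y = 0 ↔ x = y := by
  constructor
  · intro h
    have := congrArg (· + y) h
    simpa [add_add_cancel_pt] using this
  · rintro rfl
    exact pt2 x

lemma om_comm (x y : Pt N) : om x y = om y x := by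
  unfold om; ring

@[simp] lemma om_self (x : Pt N) : om x x = 0 := z2 _

lemma om_add_left (x y z : Pt N) : om (x + y) z = om x z + om y z := by
  unfold om; rw [B_add_left, B_add_right]; ring

lemma om_add_right (x y z : Pt N) : om x (y + z) = om x y + om x z := by
  unfold om; rw [B_add_left, B_add_right]; ring

@[simp] lemma om_zero_left (x : Pt N) : om 0 x = 0 := by simp [om]

@[simp] lemma om_zero_right (x : Pt N) : om x 0 = 0 := by simp [om]

lemma Q_add (x y : Pt N) : Q (x + y) = Q x + Q y + om x y := by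
  unfold Q om; rw [B_add_left, B_add_right, B_add_right]; ring

@[simp] lemma sgn_zero : sgn 0 = 1 := by simp [sgn]

@[simp] lemma sgn_one : sgn 1 = -1 := by simp [sgn]

lemma sgn_add (s t : ZMod 2) : sgn (s + t) = sgn s * sgn t := by
  have h : ∀ s t : ZMod 2, (s = 0 ∨ s = 1) ∧ (t = 0 ∨ t = 1) := by decide
  have h2 : (1 : ZMod 2) + 1 = 0 := by decide
  obtain ⟨h1, h3⟩ := h s t
  rcases h1 with rfl | rfl <;> rcases h3 with rfl | rfl <;> simp [h2]

lemma sgn_mul_self (t : ZMod 2) : sgn t * sgn t = 1 := by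
  rw [← sgn_add, z2, sgn_zero]

lemma sgn_sq (t : ZMod 2) : sgn t ^ 2 = 1 := by rw [sq, sgn_mul_self]

lemma abs_sgn (t : ZMod 2) : |sgn t| = 1 := by
  unfold sgn; split_ifs <;> simp

lemma zmod2_cases (t : ZMod 2) : t = 0 ∨ t = 1 := by
  revert t; decide

section mem

variable {m : ℕ} {A D L : Finset (Pt N)} {x y z w : Pt N}

lemma mem_Sing : A ∈ Sing N m ↔
    0 ∈ A ∧ (∀ x ∈ A, ∀ y ∈ A, x + y ∈ A) ∧ (∀ x ∈ A, Q x = 0) ∧ A.card = 2 ^ m := by
  simp [Sing]

lemma mem_adj : x ∈ adj A z ↔ x ∈ A ∨ x + z ∈ A := by simp [adj]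

lemma mem_Z : z ∈ Z A ↔ z ∉ A ∧ Q z = 0 ∧ ∀ x ∈ A, om x z = 0 := by simp [Z]

lemma mem_hyp : A ∈ hyp m D ↔ A ∈ Sing N m ∧ A ⊆ D := by simp [hyp]

lemma mem_lab {f : Pt N → ZMod 2} : f ∈ lab L ↔ Quad L f ∧ ∀ x, x ∉ L → f x = 0 := by simp [lab]

lemma mem_F {lam mu : Finset (Pt N) → Pt N → ZMod 2} :
    z ∈ F lam mu A ↔ z ∈ Z A ∧ ∀ x ∈ A, lam (adj A z) x = mu A x := by simp [F]

lemma mem_P2 {lam mu : Finset (Pt N) → Pt N → ZMod 2} :
    z ∈ P2 lam mu A w ↔ z ∈ Z (adj A w) ∧ z ∈ F lam mu A ∧ z + w ∈ F lam mu A := by simp [P2]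

lemma zero_mem (hA : A ∈ Sing N m) : 0 ∈ A := (mem_Sing.1 hA).1

lemma add_mem (hA : A ∈ Sing N m) (hx : x ∈ A) (hy : y ∈ A) : x + y ∈ A :=
  (mem_Sing.1 hA).2.1 x hx y hy

lemma Q_eq (hA : A ∈ Sing N m) (hx : x ∈ A) : Q x = 0 := (mem_Sing.1 hA).2.2.1 x hx

lemma card_eq (hA : A ∈ Sing N m) : A.card = 2 ^ m := (mem_Sing.1 hA).2.2.2

lemma om_eq (hA : A ∈ Sing N m) (hx : x ∈ A) (hy : y ∈ A) : om x y = 0 := by
  have h := Q_add x y
  rw [Q_eq hA hx, Q_eq hA hy, Q_eq hA (add_mem hA hx hy)] at h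
  simpa using h.symm

lemma B_symm (hA : A ∈ Sing N m) (hx : x ∈ A) (hy : y ∈ A) : B x y = B y x := by
  have h := om_eq hA hx hy
  unfold om at h
  have h2 := congrArg (· + B y x) h
  simpa [add_assoc, z2] using h2

lemma add_mem_iff (hA : A ∈ Sing N m) (hx : x ∈ A) : x + y ∈ A ↔ y ∈ A := by
  constructor
  · intro h
    have h2 := add_mem hA hx h
    rwa [add_add_cancel_pt'] at h2
  · intro h
    exact add_mem hA hx h

lemma add_mem_iff' (hA : A ∈ Sing N m) (hx : x ∈ A) : y + x ∈ A ↔ y ∈ A := by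
  rw [add_comm, add_mem_iff hA hx]

lemma subset_adj : A ⊆ adj A z := fun _ hx => mem_adj.2 (Or.inl hx)

lemma self_mem_adj (hA : A ∈ Sing N m) : z ∈ adj A z :=
  mem_adj.2 (Or.inr (by rw [pt2]; exact zero_mem hA))

lemma card_adj (hA : A ∈ Sing N m) (hz : z ∉ A) : (adj A z).card = 2 ^ (m + 1) := by
  have h : adj A z = A ∪ A.image (· + z) := by
    ext x
    rw [mem_adj, mem_union, mem_image]
    constructor
    · rintro (h | h)
      · exact Or.inl h
      · exact Or.inr ⟨x + z, h, add_add_cancel_pt x z⟩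
    · rintro (h | ⟨y, hy, rfl⟩)
      · exact Or.inl h
      · right
        rwa [add_add_cancel_pt]
  have hd : Disjoint A (A.image (· + z)) := by
    rw [disjoint_left]
    rintro x hx hx2
    obtain ⟨y, hy, rfl⟩ := mem_image.1 hx2
    exact hz ((add_mem_iff hA hy).1 hx)
  rw [h, card_union_of_disjoint hd, card_image_of_injective _ (add_left_injective z), card_eq hA]
  ring

lemma adj_mem_Sing (hA : A ∈ Sing N m) (hz : z ∈ Z A) : adj A z ∈ Sing N (m + 1) := by
  obtain ⟨h1, h2, h3⟩ := mem_Z.1 hz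
  refine mem_Sing.2 ⟨subset_adj (zero_mem hA), ?_, ?_, card_adj hA h1⟩
  · intro x hx y hy
    rw [mem_adj] at hx hy ⊢
    rcases hx with hx | hx <;> rcases hy with hy | hy
    · exact Or.inl (add_mem hA hx hy)
    · right
      rw [add_assoc]
      exact add_mem hA hx hy
    · right
      rw [add_right_comm]
      exact add_mem hA hx hy
    · left
      have h := add_mem hA hx hy
      rwa [show x + z + (y + z) = x + y + (z + z) by abel, pt2, add_zero] at h
  · intro x hx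
    rcases mem_adj.1 hx with hx | hx
    · exact Q_eq hA hx
    · have h := Q_add (x + z) z
      rwa [add_add_cancel_pt, Q_eq hA hx, h2, h3 _ hx, add_zero, add_zero] at h

lemma mem_Z_of_mem_hyp (hD : D ∈ Sing N (m + 1)) (hA : A ∈ hyp m D) (hw : w ∈ D) (hwA : w ∉ A) :
    w ∈ Z A := by
  have h2 := (mem_hyp.1 hA).2
  exact mem_Z.2 ⟨hwA, Q_eq hD hw, fun x hx => om_eq hD (h2 hx) hw⟩

lemma adj_eq_of_mem_hyp (hD : D ∈ Sing N (m + 1)) (hA : A ∈ hyp m D) (hw : w ∈ D) (hwA : w ∉ A) :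
    adj A w = D := by
  obtain ⟨h1, h2⟩ := mem_hyp.1 hA
  refine eq_of_subset_of_card_le ?_ ?_
  · intro x hx
    rcases mem_adj.1 hx with hx | hx
    · exact h2 hx
    · exact (add_mem_iff' hD hw).1 (h2 hx)
  · rw [card_eq hD, card_adj h1 hwA]

lemma mem_hyp_adj (hA : A ∈ Sing N m) : A ∈ hyp m (adj A z) := mem_hyp.2 ⟨hA, subset_adj⟩

/-- two subspaces with the same number of elements, one in the other, are equal -/
lemma eq_of_hyp (hA : A ∈ Sing N m) (hD : D ∈ Sing N m) (h : A ⊆ D) : A = D :=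
  eq_of_subset_of_card_le h (by rw [card_eq hA, card_eq hD])

lemma card_sdiff_hyp (hD : D ∈ Sing N (m + 1)) (hA : A ∈ hyp m D) : (D \ A).card = 2 ^ m := by
  obtain ⟨h1, h2⟩ := mem_hyp.1 hA
  rw [card_sdiff_of_subset h2, card_eq hD, card_eq h1, pow_succ]
  omega

/-- membership in `Z (adj A w)` in terms of `A` -/
lemma mem_Z_adj (hA : A ∈ Sing N m) :
    z ∈ Z (adj A w) ↔ z ∈ Z A ∧ om w z = 0 ∧ z + w ∉ A := by
  rw [mem_Z, mem_Z, mem_adj]
  constructor
  · rintro ⟨h1, h2, h3⟩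
    rw [not_or] at h1
    exact ⟨⟨h1.1, h2, fun x hx => h3 x (subset_adj hx)⟩, h3 w (self_mem_adj hA), h1.2⟩
  · rintro ⟨⟨h1, h2, h3⟩, h4, h5⟩
    refine ⟨not_or.2 ⟨h1, h5⟩, h2, fun x hx => ?_⟩
    rcases mem_adj.1 hx with hx | hx
    · exact h3 x hx
    · have h := h3 _ hx
      rwa [om_add_left, h4, add_zero] at h

lemma add_w_mem_Z_adj (hA : A ∈ Sing N m) (hw : w ∈ Z A) (hz : z ∈ Z (adj A w)) :
    z + w ∈ Z (adj A w) := by
  rw [mem_Z_adj hA] at hz ⊢
  obtain ⟨h1, h2, h3⟩ := hz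
  obtain ⟨h4, h5, h6⟩ := mem_Z.1 h1
  obtain ⟨h7, h8, h9⟩ := mem_Z.1 hw
  refine ⟨mem_Z.2 ⟨h3, ?_, fun x hx => ?_⟩, ?_, ?_⟩
  · rw [Q_add, h5, h8, om_comm, h2]; ring
  · rw [om_add_right, h6 x hx, h9 x hx]; ring
  · rw [om_add_right, h2, om_self]; ring
  · rwa [add_add_cancel_pt]

/-- the span of `A` and `z` only depends on `z` modulo `A` -/
lemma adj_add (hA : A ∈ Sing N m) (hx : x ∈ A) : adj A (z + x) = adj A z := by
  ext y
  rw [mem_adj, mem_adj, ← add_assoc, add_mem_iff' hA hx]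

/-- the four cosets -/
lemma mem_adj_adj : x ∈ adj (adj A w) z ↔ x ∈ A ∨ x + w ∈ A ∨ x + z ∈ A ∨ x + z + w ∈ A := by
  rw [mem_adj, mem_adj, mem_adj, or_assoc]

lemma adj_adj_comm : adj (adj A w) z = adj (adj A z) w := by
  ext x
  rw [mem_adj_adj, mem_adj_adj, add_right_comm x z w]
  tauto

lemma adj_adj_add : adj (adj A w) (z + w) = adj (adj A w) z := by
  ext x
  rw [mem_adj_adj, mem_adj_adj, ← add_assoc x z w, add_add_cancel_pt]
  tauto

end mem

end Pool.Agent.MP_ec946a.QT
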