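import Mathlib
import Pool.Agent.Lib.MP_ec946a_qt.Defs

/-!
# WMul

RECIPE.  `W x s t` is nonzero only for `s = t + x.1`.  `(W x * W y) s t = ∑ u, W x s u * W y u t`
has only the term `u = t + y.1`, so it is `[s = t + y.1 + x.1] sgn (x.2 · (t + y.1)) sgn (y.2 · t)`,
and `sgn_add`.  Transpose: `s = t + x.1 ↔ t = s + x.1`, and `x.2 · (t + x.1) = x.2 · t + Q x`.
-/

set_option autoImplicit false

namespace Pool.Agent.MP_ec946a.QT

open Finset

variable {N : ℕ}

private lemma vec_add_add (s t : Vec N) : s + t + t = s := by
  funext i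
  have h := z2 (t i)
  simp only [Pi.add_apply]
  rw [add_assoc, h, add_zero]

theorem W_mul (x y : Pt N) : W x * W y = sgn (B x y) • W (x + y) := by
  ext s t
  rw [Matrix.mul_apply, Matrix.smul_apply, smul_eq_mul]
  rw [Finset.sum_eq_single (t + y.1)]
  · have hy : W y (t + y.1) t = sgn (∑ i, y.2 i * t i) := by
      unfold W; rw [if_pos rfl]
    rw [hy]
    unfold W
    by_cases h : s = t + y.1 + x.1
    · have h' : s = t + (x + y).1 := by
        rw [h, Prod.fst_add]; abel
      rw [if_pos h, if_pos h', ← sgn_add, ← sgn_add]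
      congr 1
      unfold B
      rw [← Finset.sum_add_distrib, ← Finset.sum_add_distrib]
      refine Finset.sum_congr rfl fun i _ => ?_
      simp only [Prod.snd_add, Pi.add_apply]
      ring
    · have h' : ¬ s = t + (x + y).1 := by
        intro h2
        apply h
        rw [h2, Prod.fst_add]; abel
      rw [if_neg h, if_neg h', zero_mul, mul_zero]
  · intro u _ hu
    have : W y u t = 0 := by
      unfold W; rw [if_neg hu]
    rw [this, mul_zero]
  · intro h
    exact absurd (Finset.mem_univ _) h

theorem W_zero : W (0 : Pt N) = 1 := by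
  ext s t
  unfold W
  rw [Matrix.one_apply]
  simp

theorem W_transpose {x : Pt N} (hx : Q x = 0) : (W x).transpose = W x := by
  ext s t
  rw [Matrix.transpose_apply]
  unfold W
  by_cases h : s = t + x.1
  · have h' : t = s + x.1 := by rw [h, vec_add_add]
    rw [if_pos h, if_pos h']
    congr 1
    have h2 : ∑ i, x.2 i * s i = ∑ i, x.2 i * t i + Q x := by
      unfold Q B
      rw [← Finset.sum_add_distrib]
      refine Finset.sum_congr rfl fun i _ => ?_
      rw [h, Pi.add_apply]; ring
    rw [h2, hx, add_zero]
  · have h' : ¬ t = s + x.1 := by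
      intro h2
      apply h
      rw [h2, vec_add_add]
    rw [if_neg h, if_neg h']

end Pool.Agent.MP_ec946a.QT
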