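import Mathlib
import Pool.Agent.Lib.MP_ec946a_qt.Defs
import Pool.Agent.Lib.MP_ec946a_qt.WMul

/-!
# Auto

RECIPE.  Put `Op g = ∑ z, g z • W z` (a real matrix).
(1) Parseval: `∑ s, ∑ t, (Op g s t) ^ 2 = 2 ^ N * ∑ z, g z ^ 2`, because `Op g (t + a) t = ∑ b,
g (a, b) * sgn (b · t)` and the characters of `t` are orthogonal.
(2) `Op φ * Op φ = ∑ w, R' w • W w`, `R' w = ∑ z, φ (z + w) * φ z * sgn (B (z + w) z)` (`W_mul`,
reindex).  If `φ z * φ (z + w) ≠ 0` then `Q z = 0`, `Q (z + w) = 0`, so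
`B (z + w) z = Q z + B w z = B w z` and `0 = Q (z + w) = Q z + Q w + B z w + B w z`, so
`B w z = Q w + B z w`; hence `R' w = sgn (Q w) * ∑ z, φ z * φ (z + w) * sgn (B z w)`.
(3) Submultiplicativity: `∑ s t, ((M * M) s t)^2 ≤ (∑ s t, (M s t)^2)^2` by Cauchy-Schwarz
(`Finset.sum_mul_sq_le_sq_mul_sq`) for each entry.  So `2 ^ N * ∑ w, R w ^ 2 ≤ (2 ^ N * ∑ φ^2)^2`.
-/

set_option autoImplicit false

namespace Pool.Agent.MP_ec946a.QT

open Finset

variable {N : ℕ}

private lemma sum_sgn_vec (c : Vec N) (hc : c ≠ 0) : ∑ t : Vec N, sgn (∑ i, c i * t i) = 0 := by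
  obtain ⟨i, hi⟩ : ∃ i, c i ≠ 0 := by
    by_contra h
    push Not at h
    exact hc (funext h)
  have hi1 : c i = 1 := (zmod2_cases (c i)).resolve_left hi
  have h1 : ∑ t : Vec N, sgn (∑ j, c j * t j)
      = ∑ t : Vec N, sgn (∑ j, c j * (t + (Pi.single i 1 : Vec N)) j) := by
    exact (Equiv.sum_comp (Equiv.addRight (Pi.single i (1 : ZMod 2) : Vec N))
      (fun t : Vec N => sgn (∑ j, c j * t j))).symm
  have h2 : ∀ t : Vec N, sgn (∑ j, c j * (t + (Pi.single i 1 : Vec N)) j)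
      = - sgn (∑ j, c j * t j) := by
    intro t
    have h3 : ∑ j, c j * (t + (Pi.single i 1 : Vec N)) j = ∑ j, c j * t j + 1 := by
      simp only [Pi.add_apply, mul_add, sum_add_distrib]
      congr 1
      rw [sum_eq_single i]
      · simp [hi1]
      · intro b _ hb
        simp [Pi.single_eq_of_ne hb]
      · simp
    rw [h3, sgn_add, sgn_one, mul_neg_one]
  simp_rw [h2] at h1
  rw [sum_neg_distrib] at h1
  linarith

private lemma sum_sgn_vec' (c : Vec N) :
    ∑ t : Vec N, sgn (∑ i, c i * t i) = if c = 0 then 2 ^ N else 0 := by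
  split_ifs with h
  · subst h
    simp
  · exact sum_sgn_vec c h

private noncomputable def Op (g : Pt N → ℝ) : Matrix (Vec N) (Vec N) ℝ := ∑ z, g z • W z

private lemma vec2 (x : Vec N) : x + x = 0 := by
  ext i; simp [z2]

private lemma vec_eq {s t a : Vec N} : s = t + a ↔ a = s + t := by
  constructor
  · rintro rfl
    rw [add_comm t a, add_assoc, vec2, add_zero]
  · rintro rfl
    rw [add_comm s t, ← add_assoc, vec2, zero_add]

private lemma Op_apply (g : Pt N → ℝ) (s t : Vec N) :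
    Op g s t = ∑ b : Vec N, g (s + t, b) * sgn (∑ i, b i * t i) := by
  unfold Op
  rw [Matrix.sum_apply]
  have h1 : ∀ z : Pt N, (g z • W z) s t
      = if z.1 = s + t then g z * sgn (∑ i, z.2 i * t i) else 0 := by
    intro z
    rw [Matrix.smul_apply]
    unfold W
    by_cases h : s = t + z.1
    · rw [if_pos h, if_pos (vec_eq.1 h)]
      rfl
    · rw [if_neg h, if_neg (fun h2 => h (vec_eq.2 h2))]
      simp
  rw [sum_congr rfl (fun z _ => h1 z), Fintype.sum_prod_type, sum_eq_single (s + t)]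
  · simp
  · intro a _ ha
    apply sum_eq_zero
    intro b _
    rw [if_neg ha]
  · simp

private lemma parseval_vec (f : Vec N → ℝ) :
    ∑ t : Vec N, (∑ b, f b * sgn (∑ i, b i * t i)) ^ 2 = 2 ^ N * ∑ b, f b ^ 2 := by
  have h1 : ∀ t : Vec N, (∑ b, f b * sgn (∑ i, b i * t i)) ^ 2
      = ∑ b, ∑ b', f b * f b' * sgn (∑ i, (b + b') i * t i) := by
    intro t
    rw [sq, sum_mul_sum]
    refine sum_congr rfl fun b _ => sum_congr rfl fun b' _ => ?_
    have h2 : ∑ i, (b + b') i * t i = ∑ i, b i * t i + ∑ i, b' i * t i := by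
      simp [add_mul, sum_add_distrib]
    rw [h2, sgn_add]
    ring
  rw [sum_congr rfl (fun t _ => h1 t), sum_comm]
  rw [mul_sum]
  refine sum_congr rfl fun b _ => ?_
  rw [sum_comm, sum_eq_single b]
  · rw [← mul_sum, sum_sgn_vec', if_pos (vec2 b)]
    ring
  · intro b' _ hb
    rw [← mul_sum, sum_sgn_vec', if_neg, mul_zero]
    intro h
    apply hb
    have h3 := congrArg (· + b') h
    simp only [add_assoc, vec2, add_zero, zero_add] at h3
    exact h3.symm
  · simp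

private lemma parseval (g : Pt N → ℝ) :
    ∑ s, ∑ t, (Op g s t) ^ 2 = 2 ^ N * ∑ z, g z ^ 2 := by
  simp_rw [Op_apply]
  rw [sum_comm]
  have h1 : ∀ t : Vec N, ∑ s : Vec N, (∑ b : Vec N, g (s + t, b) * sgn (∑ i, b i * t i)) ^ 2
      = ∑ a : Vec N, (∑ b : Vec N, g (a, b) * sgn (∑ i, b i * t i)) ^ 2 := by
    intro t
    exact Equiv.sum_comp (Equiv.addRight t)
      (fun a : Vec N => (∑ b : Vec N, g (a, b) * sgn (∑ i, b i * t i)) ^ 2)
  rw [sum_congr rfl (fun t _ => h1 t), sum_comm, Fintype.sum_prod_type, mul_sum]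
  refine sum_congr rfl fun a _ => ?_
  exact parseval_vec (fun b => g (a, b))

private lemma Op_mul (φ : Pt N → ℝ) (hφ : ∀ x, Q x ≠ 0 → φ x = 0) :
    Op φ * Op φ = Op (fun w => sgn (Q w) * ∑ z, φ z * φ (z + w) * sgn (B z w)) := by
  unfold Op
  rw [sum_mul_sum, sum_comm]
  have h1 : ∀ y : Pt N, ∑ x : Pt N, (φ x • W x) * (φ y • W y)
      = ∑ w : Pt N, (sgn (Q w) * (φ y * φ (y + w) * sgn (B y w))) • W w := by
    intro y
    rw [← Equiv.sum_comp (Equiv.addRight y) (fun x : Pt N => (φ x • W x) * (φ y • W y))]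
    refine sum_congr rfl fun w _ => ?_
    simp only [Equiv.coe_addRight]
    rw [smul_mul_smul_comm, W_mul, add_add_cancel_pt, smul_smul]
    congr 1
    rw [add_comm w y]
    by_cases hy : Q y = 0
    · by_cases hw : Q (y + w) = 0
      · have h2 : B (y + w) y = Q w + B y w := by
          rw [B_add_left]
          have h3 := Q_add y w
          rw [hw, hy] at h3
          unfold om at h3
          have h4 : B y y = 0 := hy
          rw [h4, zero_add]
          have h5 := congrArg (· + B w y) h3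
          simp only [zero_add] at h5
          rw [h5, add_assoc, add_assoc, z2, add_zero]
        rw [h2, sgn_add]
        ring
      · rw [hφ _ hw]
        simp
    · rw [hφ _ hy]
      simp
  rw [sum_congr rfl (fun y _ => h1 y), sum_comm]
  refine sum_congr rfl fun w _ => ?_
  rw [← sum_smul]
  beta_reduce
  rw [mul_sum]

private lemma hs_mul (M : Matrix (Vec N) (Vec N) ℝ) :
    ∑ s, ∑ t, ((M * M) s t) ^ 2 ≤ (∑ s, ∑ t, (M s t) ^ 2) ^ 2 := by
  have h1 : ∀ s t, ((M * M) s t) ^ 2 ≤ (∑ u, M s u ^ 2) * (∑ u, M u t ^ 2) := by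
    intro s t
    rw [Matrix.mul_apply]
    exact sum_mul_sq_le_sq_mul_sq _ _ _
  calc ∑ s, ∑ t, ((M * M) s t) ^ 2
      ≤ ∑ s, ∑ t, (∑ u, M s u ^ 2) * (∑ u, M u t ^ 2) :=
        sum_le_sum fun s _ => sum_le_sum fun t _ => h1 s t
    _ = (∑ s, ∑ t, (M s t) ^ 2) ^ 2 := by
        rw [← sum_mul_sum, sq, sum_comm (f := fun t u => M u t ^ 2)]

theorem autoc (φ : Pt N → ℝ) (hφ : ∀ x, Q x ≠ 0 → φ x = 0) :
    ∑ w, (∑ z, φ z * φ (z + w) * sgn (B z w)) ^ 2 ≤ 2 ^ N * (∑ z, φ z ^ 2) ^ 2 := by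
  have h1 := hs_mul (Op φ)
  rw [Op_mul φ hφ, parseval, parseval] at h1
  have h2 : ∀ w : Pt N, (sgn (Q w) * ∑ z, φ z * φ (z + w) * sgn (B z w)) ^ 2
      = (∑ z, φ z * φ (z + w) * sgn (B z w)) ^ 2 := by
    intro w
    rw [mul_pow, sgn_sq, one_mul]
  rw [sum_congr rfl (fun w _ => h2 w)] at h1
  have h3 : (0 : ℝ) < 2 ^ N := by positivity
  nlinarith [h1, h3]

end Pool.Agent.MP_ec946a.QT
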