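import Mathlib
import Pool.Agent.Lib.MP_ec946a_qt.Defs

/-!
# Character sums
-/

set_option autoImplicit false

namespace Pool.Agent.MP_ec946a.QT

open Finset

variable {N m : ℕ}

private lemma card_pt : (Fintype.card (Pt N) : ℝ) = 2 ^ (2 * N) := by
  rw [Fintype.card_prod, Fintype.card_fun, ZMod.card, Fintype.card_fin]
  push_cast
  ring

/-- the pairing of two vectors -/
private lemma exists_dual {b : Vec N} (hb : b ≠ 0) : ∃ a : Vec N, ∑ i, b i * a i = 1 := by
  obtain ⟨i, hi⟩ := Function.ne_iff.1 hb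
  refine ⟨Pi.single i 1, ?_⟩
  rw [Finset.sum_eq_single i]
  · rw [Pi.single_eq_same, mul_one]
    exact (zmod2_cases (b i)).resolve_left hi
  · intro j _ hj
    rw [Pi.single_eq_of_ne hj, mul_zero]
  · intro h
    exact absurd (mem_univ i) h

private lemma exists_om {x : Pt N} (hx : x ≠ 0) : ∃ y, om x y = 1 := by
  by_cases h : x.2 = 0
  · have h1 : x.1 ≠ 0 := fun h1 => hx (Prod.ext h1 h)
    obtain ⟨a, ha⟩ := exists_dual h1
    refine ⟨(0, a), ?_⟩
    unfold om B
    simp only [Pi.zero_apply, mul_zero, sum_const_zero, zero_add]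
    rw [← ha]
    exact sum_congr rfl fun i _ => mul_comm _ _
  · obtain ⟨a, ha⟩ := exists_dual h
    refine ⟨(a, 0), ?_⟩
    unfold om B
    simp only [Pi.zero_apply, zero_mul, sum_const_zero, add_zero]
    exact ha

theorem sum_sgn_om (x : Pt N) : ∑ z, sgn (om x z) = if x = 0 then (2 : ℝ) ^ (2 * N) else 0 := by
  split_ifs with h
  · subst h
    simp only [om_zero_left, sgn_zero, sum_const, card_univ, nsmul_eq_mul, mul_one]
    exact card_pt
  · obtain ⟨y, hy⟩ := exists_om h
    have h1 : ∑ z, sgn (om x z) = ∑ z, sgn (om x (z + y)) :=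
      (Fintype.sum_equiv (Equiv.addRight y) _ _ fun z => rfl).symm
    have h2 : ∑ z, sgn (om x (z + y)) = - ∑ z, sgn (om x z) := by
      rw [← sum_neg_distrib]
      refine sum_congr rfl fun z _ => ?_
      rw [om_add_right, sgn_add, hy, sgn_one]
      ring
    linarith

theorem sum_sgn_om_A {A : Finset (Pt N)} (hA : A ∈ Sing N m) (z : Pt N) :
    ∑ x ∈ A, sgn (om x z) = if (∀ x ∈ A, om x z = 0) then (2 : ℝ) ^ m else 0 := by
  split_ifs with h
  · rw [sum_congr rfl fun x hx => by rw [h x hx, sgn_zero], sum_const, nsmul_eq_mul, mul_one,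
      card_eq hA]
    push_cast
    rfl
  · push Not at h
    obtain ⟨y, hy, hy2⟩ := h
    have hy3 : om y z = 1 := (zmod2_cases _).resolve_left hy2
    have h1 : ∑ x ∈ A, sgn (om x z) = ∑ x ∈ A, sgn (om (x + y) z) := by
      refine sum_nbij' (fun x => x + y) (fun x => x + y) (fun x hx => add_mem hA hx hy)
        (fun x hx => add_mem hA hx hy) (fun x _ => add_add_cancel_pt x y)
        (fun x _ => add_add_cancel_pt x y) fun x _ => ?_
      rw [add_add_cancel_pt]
    have h2 : ∑ x ∈ A, sgn (om (x + y) z) = - ∑ x ∈ A, sgn (om x z) := by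
      rw [← sum_neg_distrib]
      refine sum_congr rfl fun x _ => ?_
      rw [om_add_left, sgn_add, hy3, sgn_one]
      ring
    linarith

theorem sum_sgn_Q : ∑ z : Pt N, sgn (Q z) = (2 : ℝ) ^ N := by
  rw [Fintype.sum_prod_type_right]
  have h1 : ∀ b : Vec N, ∑ a : Vec N, sgn (Q ((a, b) : Pt N)) = if b = 0 then (2 : ℝ) ^ N else 0 := by
    intro b
    split_ifs with h
    · subst h
      have h2 : ∀ a : Vec N, Q ((a, 0) : Pt N) = 0 := fun a => by simp [Q, B]
      simp only [h2, sgn_zero, sum_const, card_univ, nsmul_eq_mul, mul_one]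
      rw [Fintype.card_fun, ZMod.card, Fintype.card_fin]
      push_cast
      rfl
    · obtain ⟨y, hy⟩ := exists_dual h
      have h3 : ∑ a : Vec N, sgn (Q ((a, b) : Pt N)) = ∑ a : Vec N, sgn (Q ((a + y, b) : Pt N)) :=
        (Fintype.sum_equiv (Equiv.addRight y) _ _ fun z => rfl).symm
      have h4 : ∑ a : Vec N, sgn (Q ((a + y, b) : Pt N)) = - ∑ a : Vec N, sgn (Q ((a, b) : Pt N)) := by
        rw [← sum_neg_distrib]
        refine sum_congr rfl fun a _ => ?_
        have h5 : Q ((a + y, b) : Pt N) = Q ((a, b) : Pt N) + 1 := by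
          rw [← hy]
          simp [Q, B, mul_add, sum_add_distrib]
        rw [h5, sgn_add, sgn_one]
        ring
      linarith
  rw [sum_congr rfl fun b _ => h1 b, sum_ite_eq' univ (0 : Vec N), if_pos (mem_univ _)]

end Pool.Agent.MP_ec946a.QT
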