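import Mathlib
import Pool.Agent.Lib.MP_ec946a_qt.Defs
import Pool.Agent.Lib.MP_ec946a_qt.ChS

/-!
# Cnt

RECIPE.  Let `Pp` be the set of all `z` with `om x z = 0` for all `x ∈ A`.  Summing
`sgn (om x z)` over `x ∈ A` and all `z` in both orders: `2 ^ m * |Pp| = 2 ^ (2 N)` (`sum_sgn_om_A`
and `sum_sgn_om`, `0 ∈ A`).  Summing `sgn (Q z) * sgn (om x z) = sgn (Q (z + x))` (as `Q x = 0`):
`2 ^ m * ∑ z ∈ Pp, sgn (Q z) = 2 ^ m * 2 ^ N` (`sum_sgn_Q`).  The number of `z ∈ Pp` with `Q z = 0`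
is `(|Pp| + ∑ z ∈ Pp, sgn (Q z)) / 2`, they contain `A`, and `Z A` is the complement of `A` in this
set.
-/

set_option autoImplicit false

namespace Pool.Agent.MP_ec946a.QT

open Finset

variable {N m : ℕ}

private def Pp (A : Finset (Pt N)) : Finset (Pt N) :=
  univ.filter fun z => ∀ x ∈ A, om x z = 0

private lemma card_Pp {A : Finset (Pt N)} (hA : A ∈ Sing N m) :
    (2 : ℝ) ^ m * (Pp A).card = 2 ^ (2 * N) := by
  have h1 : ∑ z : Pt N, ∑ x ∈ A, sgn (om x z) = (2 : ℝ) ^ m * (Pp A).card := by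
    have : ∀ z : Pt N, ∑ x ∈ A, sgn (om x z) = if (∀ x ∈ A, om x z = 0) then (2 : ℝ) ^ m else 0 :=
      fun z => sum_sgn_om_A hA z
    rw [Finset.sum_congr rfl fun z _ => this z, ← Finset.sum_filter, Finset.sum_const,
      nsmul_eq_mul, mul_comm]
    rfl
  have h2 : ∑ z : Pt N, ∑ x ∈ A, sgn (om x z) = (2 : ℝ) ^ (2 * N) := by
    rw [Finset.sum_comm]
    rw [Finset.sum_eq_single (0 : Pt N)]
    · rw [sum_sgn_om, if_pos rfl]
    · intro x _ hx
      rw [sum_sgn_om, if_neg hx]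
    · intro h
      exact absurd (zero_mem hA) h
  rw [← h1, h2]

private lemma sum_Pp {A : Finset (Pt N)} (hA : A ∈ Sing N m) :
    ∑ z ∈ Pp A, sgn (Q z) = (2 : ℝ) ^ N := by
  have h1 : ∑ z : Pt N, sgn (Q z) * ∑ x ∈ A, sgn (om x z) =
      (2 : ℝ) ^ m * ∑ z ∈ Pp A, sgn (Q z) := by
    rw [Pp, Finset.sum_filter, Finset.mul_sum]
    refine Finset.sum_congr rfl fun z _ => ?_
    rw [sum_sgn_om_A hA z]
    split_ifs <;> ring
  have h2 : ∑ z : Pt N, sgn (Q z) * ∑ x ∈ A, sgn (om x z) = (2 : ℝ) ^ m * 2 ^ N := by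
    have h3 : ∀ x ∈ A, ∑ z : Pt N, sgn (Q z) * sgn (om x z) = (2 : ℝ) ^ N := by
      intro x hx
      have h4 : ∀ z : Pt N, sgn (Q z) * sgn (om x z) = sgn (Q (z + x)) := by
        intro z
        rw [Q_add, Q_eq hA hx, add_zero, sgn_add, om_comm x z]
      rw [Finset.sum_congr rfl fun z _ => h4 z]
      rw [← sum_sgn_Q]
      exact Fintype.sum_equiv (Equiv.addRight x) _ _ fun z => rfl
    calc ∑ z : Pt N, sgn (Q z) * ∑ x ∈ A, sgn (om x z)
        = ∑ x ∈ A, ∑ z : Pt N, sgn (Q z) * sgn (om x z) := by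
          rw [Finset.sum_comm]
          refine Finset.sum_congr rfl fun z _ => ?_
          rw [Finset.mul_sum]
      _ = ∑ x ∈ A, (2 : ℝ) ^ N := Finset.sum_congr rfl h3
      _ = (2 : ℝ) ^ m * 2 ^ N := by
          rw [Finset.sum_const, nsmul_eq_mul, card_eq hA]
          push_cast
          ring
  have h3 : (2 : ℝ) ^ m ≠ 0 := by positivity
  exact mul_left_cancel₀ h3 (h1.symm.trans h2)

theorem card_Z {A : Finset (Pt N)} (hA : A ∈ Sing N m) : ((Z A).card : ℝ) = eN N m := by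
  have hsub : A ⊆ (Pp A).filter fun z => Q z = 0 := by
    intro x hx
    rw [Finset.mem_filter, Pp, Finset.mem_filter]
    exact ⟨⟨Finset.mem_univ _, fun y hy => om_eq hA hy hx⟩, Q_eq hA hx⟩
  have hZ : Z A = ((Pp A).filter fun z => Q z = 0) \ A := by
    ext z
    rw [mem_Z, Finset.mem_sdiff, Finset.mem_filter, Pp, Finset.mem_filter]
    constructor
    · rintro ⟨h1, h2, h3⟩
      exact ⟨⟨⟨Finset.mem_univ _, h3⟩, h2⟩, h1⟩
    · rintro ⟨⟨⟨_, h3⟩, h2⟩, h1⟩
      exact ⟨h1, h2, h3⟩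
  have hcard : (((Pp A).filter fun z => Q z = 0).card : ℝ) =
      ((Pp A).card + ∑ z ∈ Pp A, sgn (Q z)) / 2 := by
    rw [Finset.card_eq_sum_ones, Finset.card_eq_sum_ones (Pp A), Finset.sum_filter]
    push_cast
    rw [← Finset.sum_add_distrib, Finset.sum_div]
    refine Finset.sum_congr rfl fun z _ => ?_
    unfold sgn
    split_ifs <;> norm_num
  have h1 : (Z A).card + A.card = ((Pp A).filter fun z => Q z = 0).card := by
    rw [hZ]
    exact Finset.card_sdiff_add_card_eq_card hsub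
  have h2 : ((Z A).card : ℝ) + (A.card : ℝ) = (((Pp A).filter fun z => Q z = 0).card : ℝ) := by
    exact_mod_cast h1
  have h3 : ((Pp A).card : ℝ) = 2 ^ (2 * N) / 2 ^ m := by
    have := card_Pp hA
    field_simp
    linarith
  have h4 : (A.card : ℝ) = 2 ^ m := by
    rw [card_eq hA]; push_cast; rfl
  rw [hcard, sum_Pp hA, h3, h4] at h2
  unfold eN
  linarith

end Pool.Agent.MP_ec946a.QT
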