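import Mathlib
import Pool.Agent.Lib.MP_ec946a_qt.Defs

/-!
# DC

Change of variables `(A, w) ↔ (D, A, w)`, where `D` is the span of `A` and `w`.
-/

set_option autoImplicit false

namespace Pool.Agent.MP_ec946a.QT

open Finset

variable {N m : ℕ}

theorem dc (G : Finset (Pt N) → Pt N → Finset (Pt N) → ℝ) :
    ∑ A ∈ Sing N m, ∑ w ∈ Z A, G A w (adj A w)
      = ∑ D ∈ Sing N (m + 1), ∑ A ∈ hyp m D, ∑ w ∈ D \ A, G A w D := by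
  have h1 : ∀ D ∈ Sing N (m + 1), ∑ A ∈ hyp m D, ∑ w ∈ D \ A, G A w D
      = ∑ p ∈ (hyp m D).sigma (fun A => D \ A), G p.1 p.2 D := by
    intro D _
    rw [Finset.sum_sigma]
  rw [Finset.sum_congr rfl h1, Finset.sum_sigma', Finset.sum_sigma']
  refine Finset.sum_bij' (fun p _ => ⟨adj p.1 p.2, ⟨p.1, p.2⟩⟩) (fun q _ => ⟨q.2.1, q.2.2⟩)
    ?_ ?_ ?_ ?_ ?_
  · rintro ⟨A, w⟩ hp
    obtain ⟨hA, hw⟩ := mem_sigma.1 hp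
    simp only at hA hw
    refine mem_sigma.2 ⟨adj_mem_Sing hA hw, mem_sigma.2 ⟨mem_hyp_adj hA, ?_⟩⟩
    exact mem_sdiff.2 ⟨self_mem_adj hA, (mem_Z.1 hw).1⟩
  · rintro ⟨D, ⟨A, w⟩⟩ hq
    obtain ⟨hD, hq2⟩ := mem_sigma.1 hq
    obtain ⟨hA, hw⟩ := mem_sigma.1 hq2
    simp only at hD hA hw
    obtain ⟨hw1, hw2⟩ := mem_sdiff.1 hw
    exact mem_sigma.2 ⟨(mem_hyp.1 hA).1, mem_Z_of_mem_hyp hD hA hw1 hw2⟩
  · rintro ⟨A, w⟩ _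
    rfl
  · rintro ⟨D, ⟨A, w⟩⟩ hq
    obtain ⟨hD, hq2⟩ := mem_sigma.1 hq
    obtain ⟨hA, hw⟩ := mem_sigma.1 hq2
    simp only at hD hA hw
    obtain ⟨hw1, hw2⟩ := mem_sdiff.1 hw
    simp only [adj_eq_of_mem_hyp hD hA hw1 hw2]
  · rintro ⟨A, w⟩ _
    rfl

end Pool.Agent.MP_ec946a.QT
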