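import Mathlib
import Pool.Agent.Lib.MP_ec946a_qt.Defs

/-!
# Ext

Extensions of quadratic functions from `A` to `adj A z`: existence and uniqueness.
-/

set_option autoImplicit false

namespace Pool.Agent.MP_ec946a.QT

open Finset

variable {N m : ℕ}

lemma quad_zero {A : Finset (Pt N)} (hA : A ∈ Sing N m) {f : Pt N → ZMod 2} (hf : Quad A f) :
    f 0 = 0 := by
  have h := hf 0 (zero_mem hA) 0 (zero_mem hA)
  rw [add_zero, B_zero_left, add_zero, z2] at h
  exact h

theorem exists_ext {A : Finset (Pt N)} (hA : A ∈ Sing N m) {z : Pt N} (hz : z ∈ Z A)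
    {f : Pt N → ZMod 2} (hf : Quad A f) (c : ZMod 2) :
    ∃ g ∈ lab (adj A z), (∀ x ∈ A, g x = f x) ∧ g z = c := by
  classical
  obtain ⟨hzA, hzQ, hzo⟩ := mem_Z.1 hz
  have hf0 : f 0 = 0 := quad_zero hA hf
  have h2 : (2 : ZMod 2) = 0 := by decide
  have hnot : ∀ x, x + z ∈ A → x ∉ A := fun x h1 h2 => hzA ((add_mem_iff hA h2).1 h1)
  refine ⟨fun x => if x ∈ A then f x else if x + z ∈ A then f (x + z) + c + B (x + z) z else 0,
    mem_lab.2 ⟨?_, ?_⟩, ?_, ?_⟩
  · intro x hx y hy
    -- symmetric facts
    have hBz : ∀ u ∈ A, B z u = B u z := by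
      intro u hu
      have h := hzo u hu
      unfold om at h
      have h3 := congrArg (· + B u z) h
      simp only [zero_add] at h3
      rw [add_right_comm, z2, zero_add] at h3
      exact h3
    have hBzz : B z z = 0 := hzQ
    rcases mem_adj.1 hx with hx | hx <;> rcases mem_adj.1 hy with hy | hy
    · have h1 := add_mem hA hx hy
      simp only [if_pos hx, if_pos hy, if_pos h1]
      exact hf x hx y hy
    · have hyn := hnot y hy
      have h1 : x + y ∉ A := by
        rw [add_mem_iff hA hx]; exact hyn
      have h3 : x + y + z ∈ A := by rw [add_assoc]; exact add_mem hA hx hy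
      simp only [if_pos hx, if_neg hyn, if_pos hy, if_neg h1, if_pos h3]
      have h4 := hf x hx (y + z) hy
      rw [add_assoc x y z, h4, B_add_left x (y + z) z, B_add_right x y z]
      linear_combination (B x z) * h2
    · have hxn := hnot x hx
      have h1 : x + y ∉ A := by
        rw [add_mem_iff' hA hy]; exact hxn
      have h3 : x + y + z ∈ A := by rw [add_right_comm]; exact add_mem hA hx hy
      simp only [if_neg hxn, if_pos hy, if_pos hx, if_neg h1, if_pos h3]
      have h4 := hf (x + z) hx y hy
      rw [add_right_comm x y z, h4, B_add_left (x + z) y z, B_add_left x z y, hBz y hy]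
      linear_combination (B y z) * h2
    · have hxn := hnot x hx
      have hyn := hnot y hy
      have h1 : x + y ∈ A := by
        have h5 := add_mem hA hx hy
        rwa [show x + z + (y + z) = x + y + (z + z) by abel, pt2, add_zero] at h5
      simp only [if_neg hxn, if_neg hyn, if_pos hx, if_pos hy, if_pos h1]
      have h4 := hf (x + z) hx (y + z) hy
      rw [show x + z + (y + z) = x + y + (z + z) by abel, pt2, add_zero] at h4
      rw [h4]
      have h6 : B z (y + z) = B (y + z) z := hBz _ hy
      have h7 : B z y = B y z := by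
        rw [B_add_right, B_add_left, hBzz, add_zero, add_zero] at h6
        exact h6
      have h8 : B (x + z) (y + z) = B x y + B x z + B z y + B z z := by
        rw [B_add_left, B_add_right, B_add_right]; ring
      rw [h8, B_add_left x z z, B_add_left y z z, h7, hBzz]
      linear_combination (-c) * h2
  · intro x hx
    rw [mem_adj, not_or] at hx
    simp only [if_neg hx.1, if_neg hx.2]
  · intro x hx
    simp only [if_pos hx]
  · simp only [if_neg hzA]
    rw [pt2, if_pos (zero_mem hA), hf0, B_zero_left]; ring

theorem ext_unique {A : Finset (Pt N)} (hA : A ∈ Sing N m) {z : Pt N}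
    {g g' : Pt N → ZMod 2} (hg : Quad (adj A z) g) (hg' : Quad (adj A z) g')
    (h : ∀ x ∈ A, g x = g' x) (hz' : g z = g' z) : ∀ x ∈ adj A z, g x = g' x := by
  intro x hx
  rcases mem_adj.1 hx with hx | hx
  · exact h x hx
  · have h1 := hg (x + z) (subset_adj hx) z (self_mem_adj hA)
    have h2 := hg' (x + z) (subset_adj hx) z (self_mem_adj hA)
    rw [add_add_cancel_pt] at h1 h2
    rw [h1, h2, h _ hx, hz']

end Pool.Agent.MP_ec946a.QT
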