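import Mathlib
import Pool.Agent.Lib.MP_ec946a_qt.Defs

/-!
# HypEx

A hyperplane avoiding a given nonzero vector.
-/

set_option autoImplicit false

namespace Pool.Agent.MP_ec946a.QT

open Finset

variable {N m : ℕ}

theorem exists_hyp {D : Finset (Pt N)} (hD : D ∈ Sing N (m + 1)) {w : Pt N} (hw : w ∈ D)
    (h0 : w ≠ 0) : ∃ A ∈ hyp m D, w ∉ A := by
  classical
  let S : Finset (Finset (Pt N)) := D.powerset.filter fun A =>
    0 ∈ A ∧ (∀ x ∈ A, ∀ y ∈ A, x + y ∈ A) ∧ w ∉ A
  have hS : ∀ A, A ∈ S ↔ A ⊆ D ∧ 0 ∈ A ∧ (∀ x ∈ A, ∀ y ∈ A, x + y ∈ A) ∧ w ∉ A := by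
    intro A; simp only [S, mem_filter, mem_powerset]
  have hne : S.Nonempty := by
    refine ⟨{0}, (hS _).2 ⟨?_, mem_singleton_self _, ?_, ?_⟩⟩
    · intro x hx
      rw [mem_singleton.1 hx]
      exact zero_mem hD
    · intro x hx y hy
      rw [mem_singleton.1 hx, mem_singleton.1 hy, add_zero]
      exact mem_singleton_self _
    · rw [mem_singleton]
      exact h0
  obtain ⟨A, hAS, hmax⟩ := Finset.exists_max_image S Finset.card hne
  obtain ⟨hAD, hA0, hAadd, hwA⟩ := (hS A).1 hAS
  -- every `x ∈ D \ A` satisfies `x + w ∈ A`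
  have key : ∀ x ∈ D, x ∉ A → x + w ∈ A := by
    intro x hx hxA
    by_contra hcon
    have hmem : adj A x ∈ S := by
      refine (hS _).2 ⟨?_, subset_adj hA0, ?_, ?_⟩
      · intro y hy
        rcases mem_adj.1 hy with hy | hy
        · exact hAD hy
        · exact (add_mem_iff' hD hx).1 (hAD hy)
      · intro y hy z hz
        rcases mem_adj.1 hy with hy | hy <;> rcases mem_adj.1 hz with hz | hz
        · exact mem_adj.2 (Or.inl (hAadd _ hy _ hz))
        · refine mem_adj.2 (Or.inr ?_)
          rw [add_assoc]; exact hAadd _ hy _ hz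
        · refine mem_adj.2 (Or.inr ?_)
          rw [add_right_comm]; exact hAadd _ hy _ hz
        · refine mem_adj.2 (Or.inl ?_)
          have h5 := hAadd _ hy _ hz
          rwa [show y + x + (z + x) = y + z + (x + x) by abel, pt2, add_zero] at h5
      · intro h
        rcases mem_adj.1 h with h | h
        · exact hwA h
        · exact hcon (by rwa [add_comm] at h)
    have h1 := hmax _ hmem
    have h2 : A ⊂ adj A x := by
      refine (Finset.ssubset_iff_of_subset subset_adj).2 ⟨x, ?_, hxA⟩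
      exact mem_adj.2 (Or.inr (by rw [pt2]; exact hA0))
    exact absurd h1 (not_le.2 (Finset.card_lt_card h2))
  have hU : D = A ∪ A.image (· + w) := by
    ext x
    rw [mem_union, mem_image]
    constructor
    · intro hx
      by_cases hxA : x ∈ A
      · exact Or.inl hxA
      · exact Or.inr ⟨x + w, key x hx hxA, add_add_cancel_pt x w⟩
    · rintro (h | ⟨y, hy, rfl⟩)
      · exact hAD h
      · exact add_mem hD (hAD hy) hw
  have hdis : Disjoint A (A.image (· + w)) := by
    rw [disjoint_left]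
    rintro x hx hx2
    obtain ⟨y, hy, rfl⟩ := mem_image.1 hx2
    have h5 := hAadd _ hy _ hx
    rw [add_add_cancel_pt'] at h5
    exact hwA h5
  have hcard : A.card = 2 ^ m := by
    have h1 := card_eq hD
    rw [hU, card_union_of_disjoint hdis, card_image_of_injective _ (add_left_injective w),
      pow_succ] at h1
    omega
  exact ⟨A, mem_hyp.2 ⟨mem_Sing.2 ⟨hA0, hAadd, fun x hx => Q_eq hD (hAD hx), hcard⟩, hAD⟩, hwA⟩

end Pool.Agent.MP_ec946a.QT
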