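import Mathlib
import Pool.Agent.Lib.MP_ec946a_qt.Defs
import Pool.Agent.Lib.MP_ec946a_qt.Ext
import Pool.Agent.Lib.MP_ec946a_qt.HypEx

/-!
# LabCard

The number of labels of `A ∈ Sing N m` is `2 ^ m`, and two labels of `M` fit a given quadratic
function on a hyperplane.
-/

set_option autoImplicit false

namespace Pool.Agent.MP_ec946a.QT

open Finset

variable {N m : ℕ}

theorem card_fits {M L : Finset (Pt N)} (hM : M ∈ Sing N (m + 1)) (hL : L ∈ hyp m M)
    {f : Pt N → ZMod 2} (hf : Quad L f) :
    ((lab M).filter fun g => ∀ x ∈ L, f x = g x).card = 2 := by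
  classical
  obtain ⟨hLS, hLM⟩ := mem_hyp.1 hL
  have hc : 0 < (M \ L).card := by rw [card_sdiff_hyp hM hL]; positivity
  obtain ⟨z, hz⟩ := card_pos.1 hc
  rw [mem_sdiff] at hz
  have hzZ := mem_Z_of_mem_hyp hM hL hz.1 hz.2
  have hadj := adj_eq_of_mem_hyp hM hL hz.1 hz.2
  obtain ⟨g0, h0, h0f, h0z⟩ := exists_ext hLS hzZ hf 0
  obtain ⟨g1, h1, h1f, h1z⟩ := exists_ext hLS hzZ hf 1
  have hne : g0 ≠ g1 := by
    intro h
    rw [h, h1z] at h0z
    exact absurd h0z (by decide)
  rw [card_eq_two]
  refine ⟨g0, g1, hne, ?_⟩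
  ext g
  rw [mem_filter, mem_insert, mem_singleton]
  have key : ∀ g' ∈ lab (adj L z), ∀ g ∈ lab M, (∀ x ∈ L, f x = g x) → (∀ x ∈ L, g' x = f x) →
      g z = g' z → g = g' := by
    intro g' hg' g hg h1 h2 h3
    rw [hadj] at hg'
    funext x
    by_cases hx : x ∈ M
    · have h4 := ext_unique (A := L) (z := z) hLS (g := g) (g' := g')
        (by rw [hadj]; exact (mem_lab.1 hg).1) (by rw [hadj]; exact (mem_lab.1 hg').1)
        (fun x hx => by rw [h2 x hx, h1 x hx]) h3
      rw [hadj] at h4
      exact h4 x hx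
    · rw [(mem_lab.1 hg).2 x hx, (mem_lab.1 hg').2 x hx]
  constructor
  · rintro ⟨hg, h⟩
    rcases zmod2_cases (g z) with h3 | h3
    · left
      exact key g0 h0 g hg h h0f (by rw [h3, h0z])
    · right
      exact key g1 h1 g hg h h1f (by rw [h3, h1z])
  · rintro (rfl | rfl)
    · exact ⟨hadj ▸ h0, fun x hx => (h0f x hx).symm⟩
    · exact ⟨hadj ▸ h1, fun x hx => (h1f x hx).symm⟩

theorem card_lab {A : Finset (Pt N)} (hA : A ∈ Sing N m) : (lab A).card = 2 ^ m := by
  classical
  induction m generalizing A with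
  | zero =>
    have hA1 : A = {0} := by
      have h1 := card_eq hA
      rw [pow_zero, Finset.card_eq_one] at h1
      obtain ⟨a, ha⟩ := h1
      have h0 := zero_mem hA
      rw [ha, mem_singleton] at h0
      rw [ha, h0]
    have : lab A = {0} := by
      ext f
      rw [mem_lab, mem_singleton]
      constructor
      · rintro ⟨h1, h2⟩
        funext x
        by_cases hx : x ∈ A
        · rw [hA1, mem_singleton] at hx
          rw [hx]
          exact quad_zero hA h1
        · exact h2 x hx
      · rintro rfl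
        refine ⟨fun x hx y hy => ?_, fun x _ => rfl⟩
        rw [hA1, mem_singleton] at hx
        simp [hx]
    rw [this]
    rfl
  | succ m ih =>
    have hA2 : 1 < A.card := by
      rw [card_eq hA]
      exact Nat.one_lt_two_pow (by omega)
    obtain ⟨w, hw, hw0⟩ := Finset.exists_mem_ne hA2 0
    obtain ⟨A', hA', hwA'⟩ := exists_hyp hA hw hw0
    obtain ⟨hS, hsub⟩ := mem_hyp.1 hA'
    have hmap : ∀ g ∈ lab A, (fun x => if x ∈ A' then g x else 0) ∈ lab A' := by
      intro g hg
      refine mem_lab.2 ⟨fun x hx y hy => ?_, fun x hx => if_neg hx⟩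
      have h1 := (mem_lab.1 hg).1 x (hsub hx) y (hsub hy)
      simp only [if_pos hx, if_pos hy, if_pos (add_mem hS hx hy)]
      exact h1
    rw [Finset.card_eq_sum_card_fiberwise
      (f := fun (g : Pt N → ZMod 2) (x : Pt N) => if x ∈ A' then g x else 0)
      (s := lab A) (t := lab A') (fun g hg => hmap g hg)]
    have h2 : ∀ f ∈ lab A', ((lab A).filter fun g => (fun x => if x ∈ A' then g x else 0) = f).card
        = 2 := by
      intro f hf
      refine Eq.trans ?_ (card_fits hA hA' (mem_lab.1 hf).1)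
      congr 1
      apply Finset.filter_congr
      intro g hg
      constructor
      · rintro rfl x hx
        simp [hx]
      · intro h
        funext x
        by_cases hx : x ∈ A'
        · simp [hx, h x hx]
        · simp [hx, (mem_lab.1 hf).2 x hx]
    rw [Finset.sum_congr rfl h2, Finset.sum_const, ih hS, smul_eq_mul, pow_succ]

end Pool.Agent.MP_ec946a.QT
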