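import Mathlib
import Pool.Agent.Lib.MP_ec946a_qt.Defs
import Pool.Agent.Lib.MP_ec946a_qt.Ext
import Pool.Agent.Lib.MP_ec946a_qt.LabCard

/-!
# HypCard

The number of hyperplanes: fix a quadratic function `g₀` on `D`; the map
`g ↦ D.filter (fun x => g x = g₀ x)` is a bijection from the other quadratic functions onto the
hyperplanes of `D`.
-/

set_option autoImplicit false

namespace Pool.Agent.MP_ec946a.QT

open Finset

variable {N m : ℕ}

private lemma z2_ne {a b c : ZMod 2} (h1 : a ≠ c) (h2 : b ≠ c) : a = b := by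
  revert a b c; decide

private lemma z2_add_ne {a b : ZMod 2} (h : a ≠ b) : a = b + 1 := by
  revert a b; decide

/-- the set where two quadratic functions agree -/
private def agr (D : Finset (Pt N)) (g₀ g : Pt N → ZMod 2) : Finset (Pt N) :=
  D.filter fun x => g x = g₀ x

private lemma mem_agr {D : Finset (Pt N)} {g₀ g : Pt N → ZMod 2} {x : Pt N} :
    x ∈ agr D g₀ g ↔ x ∈ D ∧ g x = g₀ x := by simp [agr]

private lemma agr_mem {D : Finset (Pt N)} (hD : D ∈ Sing N (m + 1)) {g₀ g : Pt N → ZMod 2}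
    (h₀ : g₀ ∈ lab D) (h : g ∈ lab D) (hne : g ≠ g₀) : agr D g₀ g ∈ hyp m D := by
  obtain ⟨hq0, hz0⟩ := mem_lab.1 h₀
  obtain ⟨hq, hz⟩ := mem_lab.1 h
  have hD' := mem_Sing.1 hD
  obtain ⟨h0D, haD, hQD, hcD⟩ := hD'
  -- a vector where they differ
  obtain ⟨w, hwD, hw⟩ : ∃ w ∈ D, g w ≠ g₀ w := by
    by_contra hc
    push Not at hc
    apply hne
    funext x
    by_cases hx : x ∈ D
    · exact hc x hx
    · rw [hz x hx, hz0 x hx]
  have key : ∀ x ∈ D, (x + w ∈ agr D g₀ g ↔ x ∉ agr D g₀ g) := by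
    intro x hx
    rw [mem_agr, mem_agr]
    have e1 := hq x hx w hwD
    have e0 := hq0 x hx w hwD
    have hxw := haD x hx w hwD
    constructor
    · rintro ⟨-, h2⟩ ⟨-, h3⟩
      apply hw
      rw [e1, e0, h3] at h2
      have h4 : g w + (g₀ x + B x w) = g₀ w + (g₀ x + B x w) := by
        linear_combination h2
      exact add_right_cancel h4
    · intro h2
      refine ⟨hxw, ?_⟩
      have h3 : g x ≠ g₀ x := fun h3 => h2 ⟨hx, h3⟩
      rw [e1, e0, z2_add_ne h3, z2_add_ne hw]
      have := z2 (1 : ZMod 2)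
      linear_combination this
  have hcard : (agr D g₀ g).card = 2 ^ m := by
    have h1 : (agr D g₀ g).card = (D.filter fun x => x ∉ agr D g₀ g).card := by
      refine card_bij (fun x _ => x + w) ?_ ?_ ?_
      · intro x hx
        have hxD := (mem_agr.1 hx).1
        rw [mem_filter]
        refine ⟨haD x hxD w hwD, fun h2 => ?_⟩
        exact (key x hxD).1 h2 hx
      · intro x _ y _ hxy
        exact add_right_cancel hxy
      · intro y hy
        rw [mem_filter] at hy
        exact ⟨y + w, (key y hy.1).2 hy.2, add_add_cancel_pt y w⟩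
    have h2 : (D.filter fun x => x ∈ agr D g₀ g).card + (D.filter fun x => x ∉ agr D g₀ g).card = D.card :=
      card_filter_add_card_filter_not _
    have h3 : (D.filter fun x => x ∈ agr D g₀ g) = agr D g₀ g := by
      ext x
      rw [mem_filter]
      exact ⟨fun h => h.2, fun h => ⟨(mem_agr.1 h).1, h⟩⟩
    rw [h3, ← h1, hcD, pow_succ] at h2
    omega
  unfold hyp
  rw [mem_filter, mem_Sing]
  refine ⟨⟨?_, ?_, ?_, hcard⟩, ?_⟩
  · rw [mem_agr]
    refine ⟨h0D, ?_⟩
    have e1 := hq 0 h0D 0 h0D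
    have e0 := hq0 0 h0D 0 h0D
    simp only [add_zero, B_zero_left] at e1 e0
    have f1 : g 0 = 0 := by
      have := z2 (g 0); rw [this] at e1; exact e1
    have f0 : g₀ 0 = 0 := by
      have := z2 (g₀ 0); rw [this] at e0; exact e0
    rw [f1, f0]
  · intro x hx y hy
    rw [mem_agr] at hx hy ⊢
    refine ⟨haD x hx.1 y hy.1, ?_⟩
    rw [hq x hx.1 y hy.1, hq0 x hx.1 y hy.1, hx.2, hy.2]
  · intro x hx
    exact hQD x (mem_agr.1 hx).1
  · intro x hx
    exact (mem_agr.1 hx).1

theorem card_hyp {D : Finset (Pt N)} (hD : D ∈ Sing N (m + 1)) :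
    ((hyp m D).card : ℝ) = 2 ^ (m + 1) - 1 := by
  classical
  have hc := card_lab hD
  have hpos : 0 < (lab D).card := by rw [hc]; positivity
  obtain ⟨g₀, h₀⟩ := card_pos.1 hpos
  have h1 : ((lab D).erase g₀).card = (hyp m D).card := by
    refine card_bij (fun g _ => agr D g₀ g) ?_ ?_ ?_
    · intro g hg
      rw [mem_erase] at hg
      exact agr_mem hD h₀ hg.2 hg.1
    · intro g hg g' hg' heq
      rw [mem_erase] at hg hg'
      obtain ⟨-, hz⟩ := mem_lab.1 hg.2
      obtain ⟨-, hz'⟩ := mem_lab.1 hg'.2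
      funext x
      by_cases hx : x ∈ D
      · by_cases h2 : g x = g₀ x
        · have h3 : x ∈ agr D g₀ g := mem_agr.2 ⟨hx, h2⟩
          have heq' : agr D g₀ g = agr D g₀ g' := heq
          rw [heq'] at h3
          rw [h2, (mem_agr.1 h3).2]
        · by_cases h3 : g' x = g₀ x
          · have h4 : x ∈ agr D g₀ g' := mem_agr.2 ⟨hx, h3⟩
            have heq' : agr D g₀ g = agr D g₀ g' := heq
            rw [← heq'] at h4
            exact absurd (mem_agr.1 h4).2 h2
          · exact z2_ne h2 h3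
      · rw [hz x hx, hz' x hx]
    · intro A hA
      obtain ⟨hAS, hAD⟩ := mem_hyp.1 hA
      obtain ⟨w, hwD, hwA⟩ : ∃ w ∈ D, w ∉ A := by
        by_contra hcon
        push Not at hcon
        have h1 := card_le_card (fun x hx => hcon x hx : D ⊆ A)
        rw [card_eq hD, card_eq hAS] at h1
        exact absurd h1 (not_le.2 (Nat.pow_lt_pow_right (by norm_num) (Nat.lt_succ_self m)))
      have hwZ := mem_Z_of_mem_hyp hD hA hwD hwA
      have hadj := adj_eq_of_mem_hyp hD hA hwD hwA
      have hq : Quad A g₀ := fun x hx y hy => (mem_lab.1 h₀).1 x (hAD hx) y (hAD hy)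
      obtain ⟨g, hg, hgA, hgw⟩ := exists_ext hAS hwZ hq (g₀ w + 1)
      rw [hadj] at hg
      have hne : g ≠ g₀ := by
        intro h
        rw [h] at hgw
        exact absurd hgw (by generalize g₀ w = a; revert a; decide)
      refine ⟨g, mem_erase.2 ⟨hne, hg⟩, ?_⟩
      refine (eq_of_hyp hAS (mem_hyp.1 (agr_mem hD h₀ hg hne)).1 ?_).symm
      intro x hx
      exact mem_agr.2 ⟨hAD hx, hgA x hx⟩
  rw [← h1, card_erase_of_mem h₀, hc, Nat.cast_sub (Nat.one_le_two_pow)]
  push_cast
  ring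

end Pool.Agent.MP_ec946a.QT
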