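import Mathlib
import Pool.Agent.Lib.MP_ec946a_qt.Defs
import Pool.Agent.Lib.MP_ec946a_qt.Cnt
import Pool.Agent.Lib.MP_ec946a_qt.DC
import Pool.Agent.Lib.MP_ec946a_qt.HypCard

/-!
# Cards

RECIPE.  `card_step`: `dc` with `G = 1`, `card_Z`, `card_hyp`, `card_sdiff_hyp`.  `eN` bounds: with
`X = 2 ^ N`, `Y = 2 ^ m`, `X = Y * 2 ^ (N - m)` (obtain `N = m + j`), everything is a polynomial
inequality in powers of two.  `sing_card_pos`: induction on `m`; `Sing N 0` contains `{0}`; in the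
step `card_step` and `eN N m > 0` (for `m + 1 ≤ N`: `(X^2/Y + X)/2 > Y` since `X ≥ 2 Y`).
-/

set_option autoImplicit false

namespace Pool.Agent.MP_ec946a.QT

open Finset

variable {N m : ℕ}

theorem card_step : ((Sing N m).card : ℝ) * eN N m
    = ((Sing N (m + 1)).card : ℝ) * (2 ^ (m + 1) - 1) * 2 ^ m := by
  have h := dc (N := N) (m := m) (fun _ _ _ => (1 : ℝ))
  have h1 : ∑ A ∈ Sing N m, ∑ _w ∈ Z A, (1 : ℝ) = ((Sing N m).card : ℝ) * eN N m := by
    rw [← nsmul_eq_mul, ← Finset.sum_const]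
    refine Finset.sum_congr rfl fun A hA => ?_
    rw [Finset.sum_const, nsmul_eq_mul, mul_one, card_Z hA]
  have h2 : ∑ D ∈ Sing N (m + 1), ∑ A ∈ hyp m D, ∑ _w ∈ D \ A, (1 : ℝ)
      = ((Sing N (m + 1)).card : ℝ) * (2 ^ (m + 1) - 1) * 2 ^ m := by
    rw [mul_assoc, ← nsmul_eq_mul, ← Finset.sum_const]
    refine Finset.sum_congr rfl fun D hD => ?_
    rw [← card_hyp hD, ← nsmul_eq_mul, ← Finset.sum_const]
    refine Finset.sum_congr rfl fun A hA => ?_
    rw [Finset.sum_const, nsmul_eq_mul, mul_one, card_sdiff_hyp hD hA]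
    push_cast
    rfl
  rw [← h1, ← h2]
  exact h

private lemma eN_eq : eN N m = (2 : ℝ) ^ (2 * N) / 2 ^ (m + 1) + 2 ^ N / 2 - 2 ^ m := by
  unfold eN
  rw [pow_succ (2 : ℝ) m]
  field_simp

private lemma eN_eq' : eN N (m + 1)
    = (2 : ℝ) ^ (2 * N) / 2 ^ (m + 1) / 2 + 2 ^ N / 2 - 2 * 2 ^ m := by
  unfold eN
  rw [pow_succ (2 : ℝ) m]
  ring

private lemma pow_ge (j : ℕ) (h : m + j ≤ N) : (2 : ℝ) ^ j * 2 ^ m ≤ 2 ^ N := by
  rw [← pow_add, add_comm]
  exact pow_le_pow_right₀ (by norm_num) h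

theorem eN_lower (h : m + 1 ≤ N) : (2 : ℝ) ^ (2 * N) / 2 ^ (m + 1) ≤ eN N m := by
  rw [eN_eq]
  have h1 := pow_ge (m := m) (N := N) 1 h
  rw [pow_one] at h1
  linarith

theorem eN_pos (h : m + 1 ≤ N) : 0 < eN N m :=
  lt_of_lt_of_le (by positivity) (eN_lower h)

theorem eN_half (h : m + 3 ≤ N) : eN N m ≤ 2 * eN N (m + 1) := by
  rw [eN_eq, eN_eq']
  have h1 := pow_ge (m := m) (N := N) 3 h
  have h2 : (0 : ℝ) < 2 ^ m := by positivity
  norm_num at h1
  linarith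

theorem eN_diff : eN N m / 2 = eN N (m + 1) - 2 ^ N / 4 + 3 / 2 * 2 ^ m := by
  rw [eN_eq, eN_eq']
  ring

theorem sing_card_pos (h : m ≤ N) : 0 < (Sing N m).card := by
  induction m with
  | zero =>
    refine Finset.card_pos.2 ⟨{0}, mem_Sing.2 ⟨Finset.mem_singleton_self 0, ?_, ?_, ?_⟩⟩
    · intro x hx y hy
      rw [Finset.mem_singleton] at hx hy ⊢
      rw [hx, hy, add_zero]
    · intro x hx
      rw [Finset.mem_singleton] at hx
      rw [hx, Q_zero]
    · rw [Finset.card_singleton, pow_zero]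
  | succ m ih =>
    have h1 := ih (by omega)
    have h2 := card_step (N := N) (m := m)
    have h3 : (0 : ℝ) < ((Sing N m).card : ℝ) * eN N m :=
      mul_pos (by exact_mod_cast h1) (eN_pos h)
    rw [h2] at h3
    by_contra hcon
    have h4 : (Sing N (m + 1)).card = 0 := by omega
    rw [h4] at h3
    simp at h3

end Pool.Agent.MP_ec946a.QT
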