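import Mathlib
import Pool.Agent.Lib.MP_ec946a_qt.Defs
import Pool.Agent.Lib.MP_ec946a_qt.Ext
import Pool.Agent.Lib.MP_ec946a_qt.HypEx
import Pool.Agent.Lib.MP_ec946a_qt.LabCard

/-!
# CharSum

RECIPE.  (1) `x = 0`: every label is `0` at `0` (quadratic law), so the sum is `card_lab`.  `x ≠ 0`
(then `m = m' + 1`, as `L` has two elements): take `A ∈ hyp m' L` with `x ∉ A` (`exists_hyp`), so
`L = adj A x`; flipping: for a label `g` there is a unique label `g'` with `g' = g` on `A`,
`g' x = g x + 1` (`exists_ext`, `ext_unique`); this is an involution without fixed points changing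
the sign of `sgn (g x)` (`Finset.sum_involution`).  Or group the labels by their restriction to `A`.
(2) `d x = q x + q' x` is additive on `L` (`d (x + y) = d x + d y`, the terms `B x y` cancel); if
`d = 0` on `L` the sum is `|L|`; if `d x₀ = 1` translate by `x₀` (`add_mem_iff`).
-/

set_option autoImplicit false

namespace Pool.Agent.MP_ec946a.QT

open Finset

variable {N m : ℕ}

private lemma cs_one_ne : (1 : ZMod 2) ≠ 0 := by decide

private lemma cs_ne {s t : ZMod 2} (h : s ≠ t) : s = t + 1 := by
  revert h; revert s t; decide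

private lemma cs_quad_zero {L : Finset (Pt N)} (h0 : (0 : Pt N) ∈ L) {g : Pt N → ZMod 2}
    (hg : Quad L g) : g 0 = 0 := by
  have h := hg 0 h0 0 h0
  simp only [add_zero, B_zero_left] at h
  rw [z2] at h
  exact h

theorem sum_lab {L : Finset (Pt N)} (hL : L ∈ Sing N m) {x : Pt N} (hx : x ∈ L) :
    ∑ q ∈ lab L, sgn (q x) = if x = 0 then (2 : ℝ) ^ m else 0 := by
  classical
  split_ifs with h0
  · subst h0
    have h1 : ∀ q ∈ lab L, sgn (q 0) = 1 := fun q hq => by
      rw [cs_quad_zero hx (mem_lab.1 hq).1, sgn_zero]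
    rw [sum_congr rfl h1, sum_const, card_lab hL]
    simp
  · obtain _ | k := m
    · exfalso
      have h2 := card_eq hL
      rw [pow_zero, card_eq_one] at h2
      obtain ⟨a, ha⟩ := h2
      have h3 := zero_mem hL
      rw [ha, mem_singleton] at h3 hx
      exact h0 (hx.trans h3.symm)
    · obtain ⟨A, hA, hxA⟩ := exists_hyp hL hx h0
      have hA1 := (mem_hyp.1 hA).1
      have hZ := mem_Z_of_mem_hyp hL hA hx hxA
      have hadj := adj_eq_of_mem_hyp hL hA hx hxA
      have hflip : ∀ g ∈ lab L, ∃ g' ∈ lab L, (∀ y ∈ A, g' y = g y) ∧ g' x = g x + 1 := by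
        intro g hg
        have hq : Quad A g := fun a ha b hb =>
          (mem_lab.1 hg).1 a ((mem_hyp.1 hA).2 ha) b ((mem_hyp.1 hA).2 hb)
        obtain ⟨g', h1, h2, h3⟩ := exists_ext hA1 hZ hq (g x + 1)
        rw [hadj] at h1
        exact ⟨g', h1, h2, h3⟩
      choose! φ hφ1 hφ2 hφ3 using hflip
      have huniq : ∀ g ∈ lab L, ∀ g' ∈ lab L, (∀ y ∈ A, g y = g' y) → g x = g' x → g = g' := by
        intro g hg g' hg' h1 h2
        have h3 := ext_unique hA1 (z := x) (g := g) (g' := g') (by rw [hadj]; exact (mem_lab.1 hg).1)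
          (by rw [hadj]; exact (mem_lab.1 hg').1) h1 h2
        rw [hadj] at h3
        funext y
        by_cases hy : y ∈ L
        · exact h3 y hy
        · rw [(mem_lab.1 hg).2 y hy, (mem_lab.1 hg').2 y hy]
      refine sum_involution (fun g _ => φ g) ?_ ?_ ?_ ?_
      · intro g hg
        rw [hφ3 g hg, sgn_add, sgn_one]
        ring
      · intro g hg _ h
        have h1 := hφ3 g hg
        rw [h] at h1
        have h2 : (1 : ZMod 2) = 0 := by
          have := congrArg (fun t => g x + t) h1
          simp only [← add_assoc, z2, zero_add] at this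
          exact this.symm
        exact cs_one_ne h2
      · intro g hg
        exact hφ1 g hg
      · intro g hg
        refine huniq _ (hφ1 _ (hφ1 g hg)) _ hg (fun y hy => ?_) ?_
        · rw [hφ2 _ (hφ1 g hg) y hy, hφ2 g hg y hy]
        · rw [hφ3 _ (hφ1 g hg), hφ3 g hg, add_assoc, z2, add_zero]

theorem sum_lab2 {L : Finset (Pt N)} (hL : L ∈ Sing N m) {q q' : Pt N → ZMod 2}
    (hq : Quad L q) (hq' : Quad L q') :
    ∑ x ∈ L, sgn (q x + q' x) = if (∀ x ∈ L, q x = q' x) then (2 : ℝ) ^ m else 0 := by
  split_ifs with h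
  · have h1 : ∀ x ∈ L, sgn (q x + q' x) = 1 := fun x hx => by
      rw [h x hx, z2, sgn_zero]
    rw [sum_congr rfl h1, sum_const, card_eq hL]
    simp
  · push Not at h
    obtain ⟨y, hy, hne⟩ := h
    have hd : q y + q' y = 1 := by
      rw [cs_ne hne, add_right_comm, z2, zero_add]
    have h2 : ∀ x ∈ L, sgn (q (x + y) + q' (x + y)) = - sgn (q x + q' x) := by
      intro x hx
      rw [hq x hx y hy, hq' x hx y hy, show q x + q y + B x y + (q' x + q' y + B x y)
        = (q x + q' x) + (q y + q' y) + (B x y + B x y) by ring, z2, add_zero, hd, sgn_add, sgn_one]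
      ring
    have h3 : ∑ x ∈ L, sgn (q (x + y) + q' (x + y)) = ∑ x ∈ L, sgn (q x + q' x) := by
      refine sum_bij' (fun x _ => x + y) (fun x _ => x + y) ?_ ?_ ?_ ?_ ?_
      · intro x hx
        exact (add_mem_iff' hL hy).2 hx
      · intro x hx
        exact (add_mem_iff' hL hy).2 hx
      · intro x _
        exact add_add_cancel_pt x y
      · intro x _
        exact add_add_cancel_pt x y
      · intro x _
        rfl
    rw [sum_congr rfl h2, sum_neg_distrib] at h3
    linarith

end Pool.Agent.MP_ec946a.QT
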