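import Mathlib
import Pool.Agent.Lib.MP_ec946a_qt.Defs
import Pool.Agent.Lib.MP_ec946a_qt.ChS

/-!
# Had

RECIPE.  Let `g x = ∑ y, f y * sgn (om x y)`.  Then `∑ x, g x ^ 2 = ∑ y, ∑ y', f y * f y' *
∑ x, sgn (om x (y + y'))= 2 ^ (2 N) * ∑ y, f y ^ 2` by `sum_sgn_om`.  Cauchy-Schwarz
(`Finset.sum_mul_sq_le_sq_mul_sq`): `(∑ f g)^2 ≤ (∑ f^2) (∑ g^2) = (2 ^ N * ∑ f^2)^2`, then
`abs_le_of_sq_le_sq` or `Real.abs_le_sqrt`.
-/

set_option autoImplicit false

namespace Pool.Agent.MP_ec946a.QT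

open Finset

variable {N : ℕ}

private lemma sum_g_sq (f : Pt N → ℝ) :
    ∑ x, (∑ y, f y * sgn (om x y)) ^ 2 = (2 : ℝ) ^ (2 * N) * ∑ y, f y ^ 2 := by
  have h1 : ∀ x : Pt N, (∑ y, f y * sgn (om x y)) ^ 2 =
      ∑ y, ∑ y', f y * f y' * sgn (om (y + y') x) := by
    intro x
    rw [sq, Finset.sum_mul_sum]
    refine Finset.sum_congr rfl fun y _ => Finset.sum_congr rfl fun y' _ => ?_
    rw [om_add_left, sgn_add, om_comm y x, om_comm y' x]
    ring
  calc ∑ x, (∑ y, f y * sgn (om x y)) ^ 2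
      = ∑ x, ∑ y, ∑ y', f y * f y' * sgn (om (y + y') x) :=
        Finset.sum_congr rfl fun x _ => h1 x
    _ = ∑ y, ∑ y', f y * f y' * ∑ x, sgn (om (y + y') x) := by
        rw [Finset.sum_comm]
        refine Finset.sum_congr rfl fun y _ => ?_
        rw [Finset.sum_comm]
        refine Finset.sum_congr rfl fun y' _ => ?_
        rw [Finset.mul_sum]
    _ = ∑ y, f y * f y * (2 : ℝ) ^ (2 * N) := by
        refine Finset.sum_congr rfl fun y _ => ?_
        rw [Finset.sum_eq_single y]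
        · rw [sum_sgn_om, if_pos (pt2 y)]
        · intro y' _ hy'
          rw [sum_sgn_om, if_neg, mul_zero]
          intro h
          exact hy' (add_eq_zero_pt.1 h).symm
        · intro h
          exact absurd (Finset.mem_univ _) h
    _ = (2 : ℝ) ^ (2 * N) * ∑ y, f y ^ 2 := by
        rw [Finset.mul_sum]
        refine Finset.sum_congr rfl fun y _ => ?_
        ring

theorem hadamard (f : Pt N → ℝ) :
    |∑ x, ∑ y, f x * f y * sgn (om x y)| ≤ 2 ^ N * ∑ x, f x ^ 2 := by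
  have h1 : ∑ x, ∑ y, f x * f y * sgn (om x y) = ∑ x, f x * (∑ y, f y * sgn (om x y)) := by
    refine Finset.sum_congr rfl fun x _ => ?_
    rw [Finset.mul_sum]
    refine Finset.sum_congr rfl fun y _ => ?_
    ring
  have h2 : (∑ x, f x * (∑ y, f y * sgn (om x y))) ^ 2 ≤
      (∑ x, f x ^ 2) * ∑ x, (∑ y, f y * sgn (om x y)) ^ 2 :=
    Finset.sum_mul_sq_le_sq_mul_sq _ _ _
  rw [sum_g_sq] at h2
  have h3 : (0 : ℝ) ≤ 2 ^ N * ∑ x, f x ^ 2 :=
    mul_nonneg (by positivity) (Finset.sum_nonneg fun x _ => sq_nonneg _)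
  rw [h1]
  refine abs_le_of_sq_le_sq ?_ h3
  refine h2.trans (le_of_eq ?_)
  ring

end Pool.Agent.MP_ec946a.QT
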