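import Mathlib
import Pool.Agent.Lib.MP_ec946a_qt.Defs

/-!
# Reparametrisation of the configurations above `A`
-/

set_option autoImplicit false

namespace Pool.Agent.MP_ec946a.QT

open Finset

variable {N m : ℕ}

/-- if `z` extends the span of `A` and `w`, then `z + w` extends the span of `A` and `z` -/
private lemma key {A : Finset (Pt N)} (hA : A ∈ Sing N m) {w z : Pt N} (hw : w ∈ Z A)
    (hz : z ∈ Z (adj A w)) : z ∈ Z A ∧ z + w ∈ Z (adj A z) := by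
  obtain ⟨h1, h2, h3⟩ := (mem_Z_adj hA).1 hz
  have h4 := (mem_Z_adj hA).1 (add_w_mem_Z_adj hA hw hz)
  refine ⟨h1, (mem_Z_adj hA).2 ⟨h4.1, ?_, ?_⟩⟩
  · rw [om_add_right, om_self, zero_add, om_comm, h2]
  · rw [add_right_comm, pt2, zero_add]
    exact (mem_Z.1 hw).1

theorem reparam {A : Finset (Pt N)} (hA : A ∈ Sing N m) (H : Pt N → Pt N → ℝ) :
    ∑ w ∈ Z A, ∑ z ∈ Z (adj A w), H w z = ∑ z ∈ Z A, ∑ z' ∈ Z (adj A z), H (z + z') z := by
  rw [sum_sigma', sum_sigma']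
  refine sum_bij' (fun p _ => ⟨p.2, p.2 + p.1⟩) (fun p _ => ⟨p.1 + p.2, p.1⟩) ?_ ?_ ?_ ?_ ?_
  · intro p hp
    obtain ⟨h1, h2⟩ := mem_sigma.1 hp
    obtain ⟨h3, h4⟩ := key hA h1 h2
    exact mem_sigma.2 ⟨h3, h4⟩
  · intro p hp
    obtain ⟨h1, h2⟩ := mem_sigma.1 hp
    obtain ⟨h3, h4⟩ := key hA h1 h2
    have h5 := add_w_mem_Z_adj hA h1 h2
    obtain ⟨h6, h7⟩ := key hA h1 h5
    refine mem_sigma.2 ⟨?_, ?_⟩
    · show p.1 + p.2 ∈ Z A
      rw [add_comm]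
      exact h6
    · show p.1 ∈ Z (adj A (p.1 + p.2))
      rw [add_comm p.1 p.2]
      have h8 : p.2 + p.1 + p.1 = p.2 := add_add_cancel_pt _ _
      rw [h8] at h7
      have h9 := add_w_mem_Z_adj hA h6 h7
      rwa [add_add_cancel_pt' p.1 p.2] at h9
  · intro p _
    obtain ⟨w, z⟩ := p
    simp only [Sigma.mk.injEq, heq_eq_eq, and_true]
    exact add_add_cancel_pt' w z
  · intro p _
    obtain ⟨w, z⟩ := p
    simp only [Sigma.mk.injEq, heq_eq_eq, true_and]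
    exact add_add_cancel_pt' z w
  · intro p _
    show H p.1 p.2 = H (p.2 + (p.2 + p.1)) p.2
    rw [add_add_cancel_pt']

end Pool.Agent.MP_ec946a.QT
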