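import Mathlib
import Pool.Agent.Lib.MP_ec946a_qt.Defs
import Pool.Agent.Lib.MP_ec946a_qt.Had
import Pool.Agent.Lib.MP_ec946a_qt.RP

/-!
# CntA

RECIPE.  The number on the right is the number of pairs `(z, z') ∈ F × F` with `om z z' = 0` and
`z + z' ∉ A`: (`reparam` with `H w z = if z ∈ F ∧ z + w ∈ F then 1 else 0` gives
`∑ z ∈ Z A, ∑ z' ∈ Z (adj A z), [z ∈ F ∧ z + (z + z') ∈ F]`, and `mem_Z_adj`: for `z, z' ∈ Z A`,
`z' ∈ Z (adj A z) ↔ om z z' = 0 ∧ z' + z ∉ A`.)  With `f` the indicator of `F`,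
`#{om z z' = 0} = (|F|^2 + ∑ f z f z' sgn (om z z')) / 2 ≥ (|F|^2 - 2 ^ N |F|) / 2` (`hadamard`, since
`[t = 0] = (1 + sgn t) / 2`), and the pairs with `z + z' ∈ A` are at most `|F| 2 ^ m`.
-/

set_option autoImplicit false

namespace Pool.Agent.MP_ec946a.QT

open Finset

variable {N m : ℕ}

private lemma cnt_eq {A F : Finset (Pt N)} (hA : A ∈ Sing N m) (hF : F ⊆ Z A) :
    ∑ w ∈ Z A, (((Z (adj A w)).filter fun z => z ∈ F ∧ z + w ∈ F).card : ℝ)
      = ∑ z ∈ F, ∑ z' ∈ F, if om z z' = 0 ∧ z' + z ∉ A then (1 : ℝ) else 0 := by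
  have h1 : ∀ w, (((Z (adj A w)).filter fun z => z ∈ F ∧ z + w ∈ F).card : ℝ)
      = ∑ z ∈ Z (adj A w), if z ∈ F ∧ z + w ∈ F then (1 : ℝ) else 0 := by
    intro w
    rw [card_filter]
    push_cast
    rfl
  rw [sum_congr rfl fun w _ => h1 w,
    reparam hA (fun w z => if z ∈ F ∧ z + w ∈ F then (1 : ℝ) else 0)]
  have h2 : ∀ z ∈ Z A, ∑ z' ∈ Z (adj A z), (if z ∈ F ∧ z + (z + z') ∈ F then (1 : ℝ) else 0)
      = if z ∈ F then ∑ z' ∈ F, (if om z z' = 0 ∧ z' + z ∉ A then (1 : ℝ) else 0) else 0 := by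
    intro z _
    by_cases hz : z ∈ F
    · rw [if_pos hz, ← sum_filter, ← sum_filter, sum_const, sum_const]
      congr 2
      ext z'
      rw [mem_filter, mem_filter, add_add_cancel_pt', mem_Z_adj hA]
      constructor
      · rintro ⟨⟨_, h4, h5⟩, _, h6⟩
        exact ⟨h6, h4, h5⟩
      · rintro ⟨h6, h4, h5⟩
        exact ⟨⟨hF h6, h4, h5⟩, hz, h6⟩
    · rw [if_neg hz]
      refine sum_eq_zero fun z' _ => ?_
      rw [if_neg fun h => hz h.1]
  rw [sum_congr rfl h2, ← sum_filter, filter_mem_eq_inter, inter_eq_right.2 hF]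

private lemma ind_sgn (t : ZMod 2) : (if t = 0 then (1 : ℝ) else 0) = (1 + sgn t) / 2 := by
  unfold sgn
  split_ifs <;> norm_num

private lemma bad_pairs {A F : Finset (Pt N)} (hA : A ∈ Sing N m) :
    ∑ z ∈ F, ∑ z' ∈ F, (if z' + z ∈ A then (1 : ℝ) else 0) ≤ F.card * 2 ^ m := by
  have h1 : ∀ z ∈ F, ∑ z' ∈ F, (if z' + z ∈ A then (1 : ℝ) else 0) ≤ 2 ^ m := by
    intro z _
    rw [← sum_filter, sum_const, nsmul_eq_mul, mul_one]
    have h2 : (F.filter fun z' => z' + z ∈ A).card ≤ A.card := by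
      refine card_le_card_of_injOn (fun z' => z' + z) ?_ ?_
      · intro z' hz'
        exact (mem_filter.1 (mem_coe.1 hz')).2
      · intro a _ b _ h
        exact add_left_injective z h
    rw [card_eq hA] at h2
    exact_mod_cast h2
  calc ∑ z ∈ F, ∑ z' ∈ F, (if z' + z ∈ A then (1 : ℝ) else 0) ≤ ∑ z ∈ F, (2 : ℝ) ^ m :=
        sum_le_sum h1
    _ = F.card * 2 ^ m := by rw [sum_const, nsmul_eq_mul]

private lemma ind_sum {F : Finset (Pt N)} (g : Pt N → Pt N → ℝ) :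
    ∑ x, ∑ y, (if x ∈ F then (1 : ℝ) else 0) * (if y ∈ F then (1 : ℝ) else 0) * g x y
      = ∑ x ∈ F, ∑ y ∈ F, g x y := by
  rw [← sum_filter_add_sum_filter_not univ (fun x => x ∈ F)]
  have h0 : ∑ x ∈ univ.filter (fun x => ¬ x ∈ F),
      ∑ y, (if x ∈ F then (1 : ℝ) else 0) * (if y ∈ F then (1 : ℝ) else 0) * g x y = 0 := by
    refine sum_eq_zero fun x hx => sum_eq_zero fun y _ => ?_
    rw [if_neg (mem_filter.1 hx).2, zero_mul, zero_mul]
  rw [h0, add_zero, filter_mem_eq_inter, univ_inter]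
  refine sum_congr rfl fun x hx => ?_
  rw [if_pos hx, ← sum_filter_add_sum_filter_not univ (fun y => y ∈ F)]
  have h1 : ∑ y ∈ univ.filter (fun y => ¬ y ∈ F),
      (1 : ℝ) * (if y ∈ F then (1 : ℝ) else 0) * g x y = 0 := by
    refine sum_eq_zero fun y hy => ?_
    rw [if_neg (mem_filter.1 hy).2, mul_zero, zero_mul]
  rw [h1, add_zero, filter_mem_eq_inter, univ_inter]
  refine sum_congr rfl fun y hy => ?_
  rw [if_pos hy, one_mul, one_mul]

private lemma good_pairs (F : Finset (Pt N)) :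
    (F.card : ℝ) ^ 2 / 2 - 2 ^ N / 2 * F.card
      ≤ ∑ z ∈ F, ∑ z' ∈ F, (if om z z' = 0 then (1 : ℝ) else 0) := by
  have h1 := hadamard (fun z : Pt N => if z ∈ F then (1 : ℝ) else 0)
  rw [ind_sum (fun x y => sgn (om x y))] at h1
  have h2 : ∑ x : Pt N, (if x ∈ F then (1 : ℝ) else 0) ^ 2 = F.card := by
    have : ∀ x : Pt N, (if x ∈ F then (1 : ℝ) else 0) ^ 2 = if x ∈ F then (1 : ℝ) else 0 := by
      intro x
      split_ifs <;> norm_num
    rw [sum_congr rfl fun x _ => this x, sum_ite_mem, univ_inter, sum_const, nsmul_eq_mul, mul_one]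
  rw [h2] at h1
  have h3 : ∑ z ∈ F, ∑ z' ∈ F, (if om z z' = 0 then (1 : ℝ) else 0)
      = (F.card : ℝ) ^ 2 / 2 + (∑ z ∈ F, ∑ z' ∈ F, sgn (om z z')) / 2 := by
    calc ∑ z ∈ F, ∑ z' ∈ F, (if om z z' = 0 then (1 : ℝ) else 0)
        = ∑ z ∈ F, ∑ z' ∈ F, (1 + sgn (om z z')) / 2 :=
          sum_congr rfl fun z _ => sum_congr rfl fun z' _ => ind_sgn _
      _ = (∑ z ∈ F, ∑ z' ∈ F, (1 + sgn (om z z'))) / 2 := by
          rw [sum_div]
          exact sum_congr rfl fun z _ => by rw [sum_div]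
      _ = (F.card : ℝ) ^ 2 / 2 + (∑ z ∈ F, ∑ z' ∈ F, sgn (om z z')) / 2 := by
          have : ∑ z ∈ F, ∑ z' ∈ F, (1 + sgn (om z z'))
              = (F.card : ℝ) ^ 2 + ∑ z ∈ F, ∑ z' ∈ F, sgn (om z z') := by
            rw [sum_congr rfl fun z _ => sum_add_distrib, sum_add_distrib]
            simp [sq]
          rw [this]
          ring
  rw [h3]
  have h4 := (abs_le.1 h1).1
  linarith

theorem count_pairs {A F : Finset (Pt N)} (hA : A ∈ Sing N m) (hF : F ⊆ Z A) :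
    (F.card : ℝ) ^ 2 / 2 - (2 ^ N / 2 + 2 ^ m) * F.card
      ≤ ∑ w ∈ Z A, (((Z (adj A w)).filter fun z => z ∈ F ∧ z + w ∈ F).card : ℝ) := by
  rw [cnt_eq hA hF]
  have h1 : ∑ z ∈ F, ∑ z' ∈ F, (if om z z' = 0 then (1 : ℝ) else 0)
      ≤ ∑ z ∈ F, ∑ z' ∈ F, ((if om z z' = 0 ∧ z' + z ∉ A then (1 : ℝ) else 0)
        + (if z' + z ∈ A then (1 : ℝ) else 0)) := by
    refine sum_le_sum fun z _ => sum_le_sum fun z' _ => ?_
    by_cases h1 : om z z' = 0 <;> by_cases h2 : z' + z ∈ A <;> simp [h1, h2]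
  have h2 : ∑ z ∈ F, ∑ z' ∈ F, ((if om z z' = 0 ∧ z' + z ∉ A then (1 : ℝ) else 0)
        + (if z' + z ∈ A then (1 : ℝ) else 0))
      = ∑ z ∈ F, ∑ z' ∈ F, (if om z z' = 0 ∧ z' + z ∉ A then (1 : ℝ) else 0)
        + ∑ z ∈ F, ∑ z' ∈ F, (if z' + z ∈ A then (1 : ℝ) else 0) := by
    rw [← sum_add_distrib]
    exact sum_congr rfl fun z _ => sum_add_distrib
  have h3 := bad_pairs (F := F) hA
  have h4 := good_pairs F
  nlinarith [h1, h2, h3, h4]

end Pool.Agent.MP_ec946a.QT
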