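import Mathlib
import Pool.Agent.Lib.MP_ec946a_qt.Defs
import Pool.Agent.Lib.MP_ec946a_qt.CntA
import Pool.Agent.Lib.MP_ec946a_qt.Cnt
import Pool.Agent.Lib.MP_ec946a_qt.Cards

/-!
# FourA

RECIPE.  Let `e = eN N m`, `e' = eN N (m + 1)`, `p = |F| / e ∈ [0, 1]`, `S = ∑ w ∈ Z A, s w` with
`s w` the card on the right, `η = 2 ^ (m + 2) / 2 ^ N`.  Cauchy-Schwarz (`sq_sum_le_card_mul_sum_sq`)
and `card_Z`: `S ^ 2 ≤ e * ∑ s w ^ 2`.  By `count_pairs` and `eN_diff`: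
`S ≥ e (e p² / 2 - (2^N/2 + 2^m) p) = e (e' p² - (2^N/4 - 3/2·2^m) p² - (2^N/2 + 2^m) p)
≥ e (e' p² - (3/4·2^N + 2^m) p) ≥ e e' (p² - η p)`, using `p² ≤ p` and
`3/4·2^N + 2^m ≤ 2^N ≤ e' η` (`2^m ≤ 2^N / 4`, `eN_lower`).  If `p² ≥ η p`:
`∑ s² ≥ S²/e ≥ e e'² (p² - η p)² ≥ e e'² (p⁴ - 2 η p³) ≥ e e'² (p⁴ - 2 η)`.  Otherwise `p < η` and
`p⁴ ≤ p ≤ 2 η`: the left side is nonpositive.
-/

set_option autoImplicit false

namespace Pool.Agent.MP_ec946a.QT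

open Finset

variable {N m : ℕ}

/-- the inequality between real numbers -/
private lemma four_real {e e' p η S T M R : ℝ} (he : 0 < e) (he' : 0 < e') (hp0 : 0 ≤ p)
    (hp1 : p ≤ 1) (hη : 0 ≤ η) (hdiff : e / 2 = e' - M / 4 + 3 / 2 * R) (hR : 0 ≤ R)
    (hRM : R ≤ M / 8) (hηe : M ≤ e' * η)
    (hS : (p * e) ^ 2 / 2 - (M / 2 + R) * (p * e) ≤ S) (hCS : S ^ 2 ≤ e * T) (hT : 0 ≤ T) :
    e * e' ^ 2 * (p ^ 4 - 2 * η) ≤ T := by
  have hpp : p ^ 2 ≤ p := by nlinarith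
  have h1 : e * e' * (p ^ 2 - η * p) ≤ S := by
    have h2 : (p * e) ^ 2 / 2 - (M / 2 + R) * (p * e)
        = e * (p ^ 2 * (e' - M / 4 + 3 / 2 * R) - (M / 2 + R) * p) := by
      rw [← hdiff]; ring
    have h3 : e' * (p ^ 2 - η * p)
        ≤ p ^ 2 * (e' - M / 4 + 3 / 2 * R) - (M / 2 + R) * p := by
      have h4 : (M / 4 - 3 / 2 * R) * p ^ 2 ≤ (M / 4 - 3 / 2 * R) * p := by
        apply mul_le_mul_of_nonneg_left hpp
        linarith
      have h5 : M * p ≤ e' * η * p := mul_le_mul_of_nonneg_right hηe hp0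
      have h6 : 0 ≤ R * p := mul_nonneg hR hp0
      have h7 : R * p ≤ M / 8 * p := mul_le_mul_of_nonneg_right hRM hp0
      nlinarith [h4, h5, h6, h7]
    calc e * e' * (p ^ 2 - η * p) = e * (e' * (p ^ 2 - η * p)) := by ring
      _ ≤ e * (p ^ 2 * (e' - M / 4 + 3 / 2 * R) - (M / 2 + R) * p) :=
          mul_le_mul_of_nonneg_left h3 he.le
      _ ≤ S := by rw [← h2]; exact hS
  by_cases hc : η * p ≤ p ^ 2
  · have h8 : 0 ≤ e * e' * (p ^ 2 - η * p) := by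
      apply mul_nonneg (mul_nonneg he.le he'.le)
      linarith
    have h9 : (e * e' * (p ^ 2 - η * p)) ^ 2 ≤ S ^ 2 := by gcongr
    have h10 : e * (e * e' ^ 2 * (p ^ 2 - η * p) ^ 2) ≤ e * T := by
      calc e * (e * e' ^ 2 * (p ^ 2 - η * p) ^ 2) = (e * e' * (p ^ 2 - η * p)) ^ 2 := by ring
        _ ≤ S ^ 2 := h9
        _ ≤ e * T := hCS
    have h11 : e * e' ^ 2 * (p ^ 2 - η * p) ^ 2 ≤ T := le_of_mul_le_mul_left h10 he
    have h12 : p ^ 4 - 2 * η ≤ (p ^ 2 - η * p) ^ 2 := by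
      have h13 : p ^ 3 ≤ 1 := pow_le_one₀ hp0 hp1
      have h14 : η * p ^ 3 ≤ η * 1 := mul_le_mul_of_nonneg_left h13 hη
      have h15 : 0 ≤ (η * p) ^ 2 := sq_nonneg _
      nlinarith [h14, h15]
    have h16 : e * e' ^ 2 * (p ^ 4 - 2 * η) ≤ e * e' ^ 2 * (p ^ 2 - η * p) ^ 2 :=
      mul_le_mul_of_nonneg_left h12 (by positivity)
    linarith
  · push_neg at hc
    have h17 : p ≤ η := by
      rcases hp0.eq_or_lt with h | h
      · rw [← h]; exact hη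
      · by_contra hcon
        push_neg at hcon
        nlinarith
    have h18 : p ^ 4 ≤ p := by
      calc p ^ 4 = p ^ 3 * p := by ring
        _ ≤ 1 * p := mul_le_mul_of_nonneg_right (pow_le_one₀ hp0 hp1) hp0
        _ = p := one_mul p
    have h19 : e * e' ^ 2 * (p ^ 4 - 2 * η) ≤ 0 := by
      apply mul_nonpos_of_nonneg_of_nonpos (by positivity)
      linarith
    linarith

theorem four {A F : Finset (Pt N)} (hN : m + 3 ≤ N) (hA : A ∈ Sing N m) (hF : F ⊆ Z A) :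
    eN N m * eN N (m + 1) ^ 2 * (((F.card : ℝ) / eN N m) ^ 4 - 2 * (2 ^ (m + 2) / 2 ^ N))
      ≤ ∑ w ∈ Z A, (((Z (adj A w)).filter fun z => z ∈ F ∧ z + w ∈ F).card : ℝ) ^ 2 := by
  have he : 0 < eN N m := eN_pos (by omega)
  have he' : 0 < eN N (m + 1) := eN_pos (by omega)
  have hFle : (F.card : ℝ) ≤ eN N m := by
    rw [← card_Z hA]
    exact_mod_cast card_le_card hF
  have hp : (F.card : ℝ) / eN N m * eN N m = F.card := div_mul_cancel₀ _ he.ne'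
  have h2N : (0 : ℝ) < 2 ^ N := by positivity
  have h2m : (0 : ℝ) < 2 ^ m := by positivity
  refine four_real (M := 2 ^ N) (R := 2 ^ m)
    (S := ∑ w ∈ Z A, (((Z (adj A w)).filter fun z => z ∈ F ∧ z + w ∈ F).card : ℝ))
    he he' (by positivity) ((div_le_one he).2 hFle) (by positivity) eN_diff h2m.le ?_ ?_ ?_ ?_ ?_
  · have h : (2 : ℝ) ^ (m + 3) ≤ 2 ^ N := pow_le_pow_right₀ (by norm_num) hN
    have h' : (2 : ℝ) ^ (m + 3) = 8 * 2 ^ m := by ring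
    linarith
  · have h : (2 : ℝ) ^ (2 * N) / 2 ^ (m + 2) ≤ eN N (m + 1) := eN_lower (m := m + 1) (by omega)
    have hpos : (0 : ℝ) ≤ 2 ^ (m + 2) / 2 ^ N := by positivity
    calc (2 : ℝ) ^ N = 2 ^ (2 * N) / 2 ^ (m + 2) * (2 ^ (m + 2) / 2 ^ N) := by
          rw [two_mul, pow_add]
          have h1 : (2 : ℝ) ^ (m + 2) ≠ 0 := by positivity
          field_simp
      _ ≤ eN N (m + 1) * (2 ^ (m + 2) / 2 ^ N) := mul_le_mul_of_nonneg_right h hpos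
  · rw [hp]
    exact count_pairs hA hF
  · have h := sq_sum_le_card_mul_sum_sq (s := Z A)
      (f := fun w => (((Z (adj A w)).filter fun z => z ∈ F ∧ z + w ∈ F).card : ℝ))
    rw [card_Z hA] at h
    exact h
  · exact sum_nonneg fun _ _ => sq_nonneg _

end Pool.Agent.MP_ec946a.QT
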