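import Mathlib
import Pool.Agent.Lib.MP_ec946a_qt.Defs

/-!
# An identity for the number of the inconsistent configurations
-/

set_option autoImplicit false

namespace Pool.Agent.MP_ec946a.QT

open Finset

variable {N : ℕ}

private lemma ind_eq (s t : ZMod 2) :
    2 * (if s ≠ t then (1 : ℝ) else 0) = 1 - sgn s * sgn t := by
  rcases zmod2_cases s with rfl | rfl <;> rcases zmod2_cases t with rfl | rfl <;> simp <;> norm_num

private lemma pair_sum {ι : Type} (P : Finset ι) (c : ι → ZMod 2) :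
    2 * ∑ z ∈ P, ∑ z' ∈ P, (if c z ≠ c z' then (1 : ℝ) else 0)
      = (P.card : ℝ) ^ 2 - (∑ z ∈ P, sgn (c z)) ^ 2 := by
  rw [mul_sum, sq (∑ z ∈ P, sgn (c z)), sum_mul_sum]
  have h1 : (P.card : ℝ) ^ 2 = ∑ _z ∈ P, ∑ _z' ∈ P, (1 : ℝ) := by
    simp only [sum_const, nsmul_eq_mul, mul_one]
    ring
  rw [h1, ← sum_sub_distrib]
  refine sum_congr rfl fun z _ => ?_
  rw [mul_sum, ← sum_sub_distrib]
  exact sum_congr rfl fun z' _ => ind_eq _ _

theorem nu_eq (lam mu : Finset (Pt N) → Pt N → ZMod 2) (m : ℕ) :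
    2 * nu lam mu m = ∑ A ∈ Sing N m, ∑ w ∈ Z A,
      (((P2 lam mu A w).card : ℝ) ^ 2 - (∑ z ∈ P2 lam mu A w, sgn (cc lam A w z)) ^ 2) := by
  unfold nu
  rw [mul_sum]
  refine sum_congr rfl fun A _ => ?_
  rw [mul_sum]
  exact sum_congr rfl fun w _ => pair_sum _ _

end Pool.Agent.MP_ec946a.QT
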