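import Mathlib
import Pool.Agent.Lib.MP_ec946a_qt.Defs
import Pool.Agent.Lib.MP_ec946a_qt.Auto
import Pool.Agent.Lib.MP_ec946a_qt.Cnt

/-!
# TwB

RECIPE.  Let `φ z = if z ∈ F lam mu A then sgn (lam (adj A z) z) else 0`.  For `w ∈ Z A` the sum
over `z ∈ P2 lam mu A w` of `sgn (cc lam A w z)` is `∑ z, φ z * φ (z + w) * sgn (B z w)`: if
`z ∈ F` and `z + w ∈ F` then automatically `z ∈ Z (adj A w)` (`mem_Z_adj`: `z ∈ Z A`;
`0 = Q (z + w) = Q z + Q w + om z w` gives `om w z = 0`; `z + w ∉ A` since `z + w ∈ Z A`), and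
`sgn_add`.  Extend the sum over `w ∈ Z A` to all `w` (squares), apply `autoc`;
`∑ φ² = |F lam mu A| ≤ |Z A| = eN N m` (`card_Z`).
-/

set_option autoImplicit false

namespace Pool.Agent.MP_ec946a.QT

open Finset

variable {N m : ℕ}

private noncomputable def phi (lam mu : Finset (Pt N) → Pt N → ZMod 2) (A : Finset (Pt N))
    (z : Pt N) : ℝ := if z ∈ F lam mu A then sgn (lam (adj A z) z) else 0

private lemma phi_zero {A : Finset (Pt N)} (lam mu : Finset (Pt N) → Pt N → ZMod 2) {x : Pt N}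
    (hx : Q x ≠ 0) : phi lam mu A x = 0 := by
  unfold phi
  rw [if_neg]
  intro h
  exact hx (mem_Z.1 (mem_F.1 h).1).2.1

private lemma phi_sq {A : Finset (Pt N)} (hA : A ∈ Sing N m)
    (lam mu : Finset (Pt N) → Pt N → ZMod 2) :
    ∑ z, phi lam mu A z ^ 2 ≤ eN N m := by
  have h1 : ∀ z, phi lam mu A z ^ 2 = if z ∈ F lam mu A then 1 else 0 := by
    intro z
    unfold phi
    split_ifs
    · exact sgn_sq _
    · simp
  rw [sum_congr rfl fun z _ => h1 z, ← card_Z hA, sum_ite_mem, univ_inter, sum_const,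
    nsmul_eq_mul, mul_one]
  exact_mod_cast card_le_card (filter_subset _ _)

private lemma tw_sum {A : Finset (Pt N)} (hA : A ∈ Sing N m)
    (lam mu : Finset (Pt N) → Pt N → ZMod 2) {w : Pt N} (hw : w ∈ Z A) :
    ∑ z ∈ P2 lam mu A w, sgn (cc lam A w z)
      = ∑ z, phi lam mu A z * phi lam mu A (z + w) * sgn (B z w) := by
  have hP : P2 lam mu A w = univ.filter fun z => z ∈ F lam mu A ∧ z + w ∈ F lam mu A := by
    ext z
    rw [mem_P2, mem_filter]
    constructor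
    · rintro ⟨_, h⟩
      exact ⟨mem_univ _, h⟩
    · rintro ⟨_, h1, h2⟩
      refine ⟨?_, h1, h2⟩
      rw [mem_Z_adj hA]
      have h3 := (mem_F.1 h1).1
      have h4 := mem_Z.1 (mem_F.1 h2).1
      refine ⟨h3, ?_, h4.1⟩
      have h5 := Q_add z w
      rw [h4.2.1, (mem_Z.1 h3).2.1, (mem_Z.1 hw).2.1, zero_add, zero_add] at h5
      rw [om_comm, ← h5]
  rw [hP, sum_filter]
  refine sum_congr rfl fun z _ => ?_
  by_cases h1 : z ∈ F lam mu A
  · by_cases h2 : z + w ∈ F lam mu A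
    · rw [if_pos ⟨h1, h2⟩]
      unfold phi cc
      rw [if_pos h1, if_pos h2, sgn_add, sgn_add]
    · rw [if_neg (fun h => h2 h.2)]
      unfold phi
      rw [if_neg h2, mul_zero, zero_mul]
  · rw [if_neg (fun h => h1 h.1)]
    unfold phi
    rw [if_neg h1, zero_mul, zero_mul]

theorem twist_bound {A : Finset (Pt N)} (hA : A ∈ Sing N m)
    (lam mu : Finset (Pt N) → Pt N → ZMod 2) :
    ∑ w ∈ Z A, (∑ z ∈ P2 lam mu A w, sgn (cc lam A w z)) ^ 2 ≤ 2 ^ N * eN N m ^ 2 := by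
  have h0 : 0 ≤ ∑ z, phi lam mu A z ^ 2 := sum_nonneg fun _ _ => sq_nonneg _
  calc ∑ w ∈ Z A, (∑ z ∈ P2 lam mu A w, sgn (cc lam A w z)) ^ 2
      = ∑ w ∈ Z A, (∑ z, phi lam mu A z * phi lam mu A (z + w) * sgn (B z w)) ^ 2 :=
        sum_congr rfl fun w hw => by rw [tw_sum hA lam mu hw]
    _ ≤ ∑ w, (∑ z, phi lam mu A z * phi lam mu A (z + w) * sgn (B z w)) ^ 2 :=
        sum_le_univ_sum_of_nonneg fun _ => sq_nonneg _
    _ ≤ 2 ^ N * (∑ z, phi lam mu A z ^ 2) ^ 2 := autoc _ fun x hx => phi_zero lam mu hx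
    _ ≤ 2 ^ N * eN N m ^ 2 := by
        have := phi_sq hA lam mu
        gcongr

end Pool.Agent.MP_ec946a.QT
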