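import Mathlib
import Pool.Agent.Lib.MP_ec946a_qt.Defs
import Pool.Agent.Lib.MP_ec946a_qt.NuId
import Pool.Agent.Lib.MP_ec946a_qt.TwB
import Pool.Agent.Lib.MP_ec946a_qt.FourA
import Pool.Agent.Lib.MP_ec946a_qt.Cards

/-!
# NuLow

The lower bound for `nu` in terms of the value: `nu_eq`, `four`, `twist_bound` and Jensen.
-/

set_option autoImplicit false

namespace Pool.Agent.MP_ec946a.QT

open Finset

variable {N m : ℕ}

lemma pow_four_sum_le {ι : Type} (s : Finset ι) (f : ι → ℝ) :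
    (∑ i ∈ s, f i) ^ 4 ≤ (s.card : ℝ) ^ 3 * ∑ i ∈ s, f i ^ 4 := by
  have h1 : (∑ i ∈ s, f i) ^ 2 ≤ (s.card : ℝ) * ∑ i ∈ s, f i ^ 2 := sq_sum_le_card_mul_sum_sq
  have h2 : (∑ i ∈ s, f i ^ 2) ^ 2 ≤ (s.card : ℝ) * ∑ i ∈ s, (f i ^ 2) ^ 2 :=
    sq_sum_le_card_mul_sum_sq
  have h3 : ∀ i, (f i ^ 2) ^ 2 = f i ^ 4 := fun i => by ring
  simp only [h3] at h2
  calc (∑ i ∈ s, f i) ^ 4 = ((∑ i ∈ s, f i) ^ 2) ^ 2 := by ring
    _ ≤ ((s.card : ℝ) * ∑ i ∈ s, f i ^ 2) ^ 2 :=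
        pow_le_pow_left₀ (sq_nonneg _) h1 2
    _ = (s.card : ℝ) ^ 2 * (∑ i ∈ s, f i ^ 2) ^ 2 := by ring
    _ ≤ (s.card : ℝ) ^ 2 * ((s.card : ℝ) * ∑ i ∈ s, f i ^ 4) :=
        mul_le_mul_of_nonneg_left h2 (sq_nonneg _)
    _ = _ := by ring

lemma aux_pow (N m : ℕ) :
    (2 : ℝ) ^ N = (2 : ℝ) ^ (2 * N) / 2 ^ (m + 2) * (2 ^ (m + 2) / 2 ^ N) := by
  rw [two_mul, pow_add]
  field_simp

theorem nu_low (hN : m + 3 ≤ N) (lam mu : Finset (Pt N) → Pt N → ZMod 2) :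
    ((Sing N m).card : ℝ) * eN N m * eN N (m + 1) ^ 2 *
        (((∑ A ∈ Sing N m, ((F lam mu A).card : ℝ)) / ((Sing N m).card * eN N m)) ^ 4
          - 4 * (2 ^ (m + 2) / 2 ^ N))
      ≤ 2 * nu lam mu m := by
  classical
  have he : 0 < eN N m := eN_pos (by omega)
  have he' : 0 < eN N (m + 1) := eN_pos (by omega)
  have hhalf : eN N m ≤ 2 * eN N (m + 1) := eN_half hN
  have hlow : (2 : ℝ) ^ (2 * N) / 2 ^ (m + 1 + 1) ≤ eN N (m + 1) := eN_lower (by omega)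
  have hS : 0 < (Sing N m).card := sing_card_pos (by omega)
  have hs : (0 : ℝ) < ((Sing N m).card : ℝ) := by exact_mod_cast hS
  set e := eN N m with hedef
  set e' := eN N (m + 1) with he'def
  set η : ℝ := 2 ^ (m + 2) / 2 ^ N with hη
  have hη0 : 0 < η := by positivity
  have hXη : (2 : ℝ) ^ N ≤ e' * η := by
    calc (2 : ℝ) ^ N = (2 : ℝ) ^ (2 * N) / 2 ^ (m + 1 + 1) * η := by
          rw [hη, show m + 1 + 1 = m + 2 by omega]
          exact aux_pow N m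
      _ ≤ e' * η := mul_le_mul_of_nonneg_right hlow hη0.le
  have hbound : (2 : ℝ) ^ N * e ^ 2 ≤ e * e' ^ 2 * (2 * η) := by
    calc (2 : ℝ) ^ N * e ^ 2 = (2 : ℝ) ^ N * (e * e) := by ring
      _ ≤ (e' * η) * (e * (2 * e')) := by
          apply mul_le_mul hXη _ (by positivity) (by positivity)
          exact mul_le_mul_of_nonneg_left hhalf he.le
      _ = _ := by ring
  have hA : ∀ A ∈ Sing N m,
      e * e' ^ 2 * ((((F lam mu A).card : ℝ) / e) ^ 4 - 4 * η) ≤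
        ∑ w ∈ Z A, (((P2 lam mu A w).card : ℝ) ^ 2 -
          (∑ z ∈ P2 lam mu A w, sgn (cc lam A w z)) ^ 2) := by
    intro A hA
    have hF : F lam mu A ⊆ Z A := fun z hz => (mem_F.1 hz).1
    have h4 := four hN hA hF
    have ht := twist_bound hA lam mu
    have hP : ∀ w, P2 lam mu A w =
        (Z (adj A w)).filter fun z => z ∈ F lam mu A ∧ z + w ∈ F lam mu A := fun w => rfl
    rw [sum_sub_distrib]
    have h4' : e * e' ^ 2 * ((((F lam mu A).card : ℝ) / e) ^ 4 - 2 * η) ≤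
        ∑ w ∈ Z A, ((P2 lam mu A w).card : ℝ) ^ 2 := by
      refine le_trans h4 (le_of_eq ?_)
      refine sum_congr rfl fun w _ => ?_
      rw [hP w]
    have : e * e' ^ 2 * ((((F lam mu A).card : ℝ) / e) ^ 4 - 4 * η) =
        e * e' ^ 2 * ((((F lam mu A).card : ℝ) / e) ^ 4 - 2 * η) - e * e' ^ 2 * (2 * η) := by ring
    rw [this]
    linarith
  rw [nu_eq]
  refine le_trans ?_ (sum_le_sum hA)
  rw [← mul_sum, sum_sub_distrib, sum_const, nsmul_eq_mul]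
  set p : Finset (Pt N) → ℝ := fun A => ((F lam mu A).card : ℝ) / e with hp
  have hJ := pow_four_sum_le (Sing N m) p
  have hsum : (∑ A ∈ Sing N m, ((F lam mu A).card : ℝ)) / ((Sing N m).card * e) =
      (∑ A ∈ Sing N m, p A) / (Sing N m).card := by
    rw [hp, ← sum_div, div_div, mul_comm e]
  rw [hsum]
  have hJ2 : ((Sing N m).card : ℝ) * ((∑ A ∈ Sing N m, p A) / (Sing N m).card) ^ 4 ≤
      ∑ A ∈ Sing N m, p A ^ 4 := by
    rw [div_pow, mul_div_assoc', div_le_iff₀ (by positivity)]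
    calc ((Sing N m).card : ℝ) * (∑ A ∈ Sing N m, p A) ^ 4
        ≤ ((Sing N m).card : ℝ) * ((((Sing N m).card : ℝ)) ^ 3 * ∑ A ∈ Sing N m, p A ^ 4) :=
          mul_le_mul_of_nonneg_left hJ hs.le
      _ = _ := by ring
  have hpos : 0 ≤ e * e' ^ 2 := by positivity
  calc ((Sing N m).card : ℝ) * e * e' ^ 2 *
        (((∑ A ∈ Sing N m, p A) / (Sing N m).card) ^ 4 - 4 * η)
      = e * e' ^ 2 * (((Sing N m).card : ℝ) * ((∑ A ∈ Sing N m, p A) / (Sing N m).card) ^ 4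
          - ((Sing N m).card : ℝ) * (4 * η)) := by ring
    _ ≤ e * e' ^ 2 * (∑ A ∈ Sing N m, p A ^ 4 - ((Sing N m).card : ℝ) * (4 * η)) := by
        apply mul_le_mul_of_nonneg_left _ hpos
        linarith

end Pool.Agent.MP_ec946a.QT
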