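import Mathlib
import Pool.Agent.Lib.MP_ec946a_qt.Defs
import Pool.Agent.Lib.MP_ec946a_qt.Ext

/-!
# Glue

Gluing of two labels which agree on `A`.
-/

set_option autoImplicit false

namespace Pool.Agent.MP_ec946a.QT

open Finset

variable {N m : ℕ}

theorem glue {A : Finset (Pt N)} {w z : Pt N} {lam mu : Finset (Pt N) → Pt N → ZMod 2}
    (hlam : ∀ L ∈ Sing N (m + 1), Quad L (lam L)) (hA : A ∈ Sing N m) (hw : w ∈ Z A)
    (hz : z ∈ P2 lam mu A w) :
    ∃ g ∈ lab (adj (adj A w) z), (∀ x ∈ adj A z, lam (adj A z) x = g x) ∧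
      (∀ x ∈ adj A (z + w), lam (adj A (z + w)) x = g x) ∧ (∀ x ∈ A, g x = mu A x) ∧
      g w = cc lam A w z := by
  obtain ⟨h1, h2, h3⟩ := mem_P2.1 hz
  obtain ⟨hzA, hl⟩ := mem_F.1 h2
  obtain ⟨hzwA, hl'⟩ := mem_F.1 h3
  have hL : adj A z ∈ Sing N (m + 1) := adj_mem_Sing hA hzA
  have hL' : adj A (z + w) ∈ Sing N (m + 1) := adj_mem_Sing hA hzwA
  have hom : om w z = 0 := ((mem_Z_adj hA).1 h1).2.1
  have hZL : z + w ∈ Z (adj A z) := by
    refine (mem_Z_adj hA).2 ⟨hzwA, ?_, ?_⟩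
    · rw [om_add_right, om_self, om_comm, hom, add_zero]
    · rw [add_right_comm, pt2, zero_add]
      exact (mem_Z.1 hw).1
  obtain ⟨g, hg, hgL, hgc⟩ := exists_ext hL hZL (hlam _ hL) (lam (adj A (z + w)) (z + w))
  have hadj : adj (adj A z) (z + w) = adj (adj A w) z := by
    rw [add_comm z w, adj_adj_add, adj_adj_comm]
  rw [hadj] at hg
  have hgA : ∀ x ∈ A, g x = mu A x := fun x hx => by
    rw [hgL x (subset_adj hx), hl x hx]
  have hsub : adj A (z + w) ⊆ adj (adj A w) z := by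
    intro x hx
    rw [mem_adj_adj]
    rcases mem_adj.1 hx with hx | hx
    · exact Or.inl hx
    · right; right; right
      rwa [add_assoc]
  have hq := (mem_lab.1 hg).1
  have hgq : Quad (adj A (z + w)) g := fun x hx y hy => hq x (hsub hx) y (hsub hy)
  have hgL' := ext_unique hA (hlam _ hL') hgq
    (fun x hx => by rw [hgA x hx, hl' x hx]) hgc.symm
  refine ⟨g, hg, fun x hx => (hgL x hx).symm, hgL', hgA, ?_⟩
  have hz1 : z ∈ adj (adj A w) z := by
    rw [mem_adj_adj]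
    right; right; left
    rw [pt2]
    exact zero_mem hA
  have hzw1 : z + w ∈ adj (adj A w) z := hsub (self_mem_adj hA)
  have h5 := hq z hz1 (z + w) hzw1
  have hQz : B z z = 0 := (mem_Z.1 hzA).2.1
  rw [add_add_cancel_pt', B_add_right, hQz, zero_add, hgc, hgL z (self_mem_adj hA)] at h5
  exact h5

end Pool.Agent.MP_ec946a.QT
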