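import Mathlib
import Pool.Agent.Lib.MP_ec946a_qt.Defs
import Pool.Agent.Lib.MP_ec946a_qt.LabCard
import Pool.Agent.Lib.MP_ec946a_qt.HypCard

/-!
# HeavyCard

RECIPE.  `sum_hh`: exchange the sums: `∑ g ∈ lab M, #{L ∈ hyp : lam L = g on L} =
∑ L ∈ hyp (m+1) M, #{g ∈ lab M : lam L = g on L} = 2 |hyp (m+1) M|` (`card_fits` with `f = lam L`,
`card_hyp`).  `card_heavy`: Markov: `|heavy| τ (2 ^ (m+2) - 1) ≤ ∑ g ∈ heavy, hh g ≤
2 (2 ^ (m+2) - 1)`.  Both theorems are about `hh lam (m + 1) M`.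
-/

set_option autoImplicit false

namespace Pool.Agent.MP_ec946a.QT

open Finset

variable {N m : ℕ}

theorem sum_hh {M : Finset (Pt N)} {lam : Finset (Pt N) → Pt N → ZMod 2}
    (hlam : ∀ L ∈ Sing N (m + 1), Quad L (lam L)) (hM : M ∈ Sing N (m + 2)) :
    ∑ g ∈ lab M, (hh lam (m + 1) M g : ℝ) = 2 * (2 ^ (m + 2) - 1) := by
  have hn : ((hyp (m + 1) M).card : ℝ) = 2 ^ (m + 1 + 1) - 1 := card_hyp (m := m + 1) hM
  have h1 : ∑ g ∈ lab M, hh lam (m + 1) M g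
      = ∑ L ∈ hyp (m + 1) M, ((lab M).filter fun g => ∀ x ∈ L, lam L x = g x).card := by
    simp only [hh, card_filter]
    rw [sum_comm]
  have h2 : ∀ L ∈ hyp (m + 1) M, ((lab M).filter fun g => ∀ x ∈ L, lam L x = g x).card = 2 :=
    fun L hL => card_fits (m := m + 1) hM hL (hlam L (mem_hyp.1 hL).1)
  rw [← Nat.cast_sum, h1, sum_congr rfl h2, sum_const, smul_eq_mul, Nat.cast_mul, hn]
  push_cast
  ring

theorem card_heavy {M : Finset (Pt N)} {lam : Finset (Pt N) → Pt N → ZMod 2}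
    (hlam : ∀ L ∈ Sing N (m + 1), Quad L (lam L)) (hM : M ∈ Sing N (m + 2)) {τ : ℝ} (hτ : 0 < τ) :
    ((heavy lam (m + 1) τ M).card : ℝ) ≤ 2 / τ := by
  have hs := sum_hh hlam hM
  have hn : (0 : ℝ) < 2 ^ (m + 2) - 1 := by
    have : (1 : ℝ) < 2 ^ (m + 2) := one_lt_pow₀ (by norm_num) (by omega)
    linarith
  have h1 : ((heavy lam (m + 1) τ M).card : ℝ) * (τ * (2 ^ (m + 2) - 1))
      ≤ ∑ g ∈ heavy lam (m + 1) τ M, (hh lam (m + 1) M g : ℝ) := by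
    rw [← nsmul_eq_mul]
    refine card_nsmul_le_sum _ _ _ fun g hg => ?_
    exact (mem_filter.1 hg).2
  have h2 : ∑ g ∈ heavy lam (m + 1) τ M, (hh lam (m + 1) M g : ℝ)
      ≤ ∑ g ∈ lab M, (hh lam (m + 1) M g : ℝ) :=
    sum_le_sum_of_subset_of_nonneg (filter_subset _ _) fun _ _ _ => Nat.cast_nonneg _
  rw [le_div_iff₀ hτ]
  have h3 : (((heavy lam (m + 1) τ M).card : ℝ) * τ) * (2 ^ (m + 2) - 1)
      ≤ 2 * (2 ^ (m + 2) - 1) := by
    rw [mul_assoc]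
    linarith
  exact le_of_mul_le_mul_right h3 hn

end Pool.Agent.MP_ec946a.QT
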