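import Mathlib
import Pool.Agent.Lib.MP_ec946a_qt.Defs

/-!
# DC2a

The other hyperplanes of `M` through the hyperplanes of `D`.
-/

set_option autoImplicit false

namespace Pool.Agent.MP_ec946a.QT

open Finset

variable {N m : ℕ}

/-- the span of `C ∈ hyp m D` and `z ∈ M \ D` is a hyperplane of `M`, and it meets `D` in `C` -/
private lemma adj_other {M D C : Finset (Pt N)} {z : Pt N} (hM : M ∈ Sing N (m + 2))
    (hD : D ∈ hyp (m + 1) M) (hz : z ∈ M \ D) (hC : C ∈ hyp m D) :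
    adj C z ∈ (hyp (m + 1) M).erase D ∧ z ∈ adj C z \ D ∧ D ∩ adj C z = C := by
  obtain ⟨hz1, hz2⟩ := mem_sdiff.1 hz
  obtain ⟨hD1, hD2⟩ := mem_hyp.1 hD
  obtain ⟨hC1, hC2⟩ := mem_hyp.1 hC
  have hzC : z ∉ C := fun h => hz2 (hC2 h)
  have hzZ : z ∈ Z C :=
    mem_Z.2 ⟨hzC, Q_eq hM hz1, fun x hx => om_eq hM (hD2 (hC2 hx)) hz1⟩
  have hself : z ∈ adj C z := self_mem_adj hC1
  refine ⟨mem_erase.2 ⟨?_, mem_hyp.2 ⟨adj_mem_Sing hC1 hzZ, ?_⟩⟩, mem_sdiff.2 ⟨hself, hz2⟩, ?_⟩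
  · intro h
    rw [h] at hself
    exact hz2 hself
  · intro x hx
    rcases mem_adj.1 hx with hx | hx
    · exact hD2 (hC2 hx)
    · exact (add_mem_iff' hM hz1).1 (hD2 (hC2 hx))
  · ext x
    rw [mem_inter, mem_adj]
    constructor
    · rintro ⟨h1, h2 | h2⟩
      · exact h2
      · exact absurd ((add_mem_iff hD1 h1).1 (hC2 h2)) hz2
    · intro h
      exact ⟨hC2 h, Or.inl h⟩

/-- a hyperplane `L' ≠ D` of `M` is spanned by `D ∩ L'` and any `z ∈ L' \ D` -/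
private lemma inter_other {M D L' : Finset (Pt N)} {z : Pt N} (hM : M ∈ Sing N (m + 2))
    (hD : D ∈ hyp (m + 1) M) (hL : L' ∈ (hyp (m + 1) M).erase D) (hz : z ∈ L' \ D) :
    D ∩ L' ∈ hyp m D ∧ adj (D ∩ L') z = L' := by
  obtain ⟨hz1, hz2⟩ := mem_sdiff.1 hz
  obtain ⟨hne, hL2⟩ := mem_erase.1 hL
  obtain ⟨hD1, hD2⟩ := mem_hyp.1 hD
  obtain ⟨hL3, hL4⟩ := mem_hyp.1 hL2
  have hM2 : adj D z = M := adj_eq_of_mem_hyp hM hD (hL4 hz1) hz2
  have hadj : adj (D ∩ L') z = L' := by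
    ext x
    rw [mem_adj, mem_inter, mem_inter]
    constructor
    · rintro (h | h)
      · exact h.2
      · exact (add_mem_iff' hL3 hz1).1 h.2
    · intro hx
      have hxM : x ∈ adj D z := by rw [hM2]; exact hL4 hx
      rcases mem_adj.1 hxM with h | h
      · exact Or.inl ⟨h, hx⟩
      · exact Or.inr ⟨h, (add_mem_iff' hL3 hz1).2 hx⟩
  have hzC : z ∉ D ∩ L' := fun h => hz2 (mem_inter.1 h).1
  have hcl : ∀ x ∈ D ∩ L', ∀ y ∈ D ∩ L', x + y ∈ D ∩ L' := by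
    intro x hx y hy
    rw [mem_inter] at hx hy ⊢
    exact ⟨add_mem hD1 hx.1 hy.1, add_mem hL3 hx.2 hy.2⟩
  have h0 : (0 : Pt N) ∈ D ∩ L' := mem_inter.2 ⟨zero_mem hD1, zero_mem hL3⟩
  -- the number of elements
  have hcard : 2 ^ (m + 1) = 2 * (D ∩ L').card := by
    have h : L' = (D ∩ L') ∪ (D ∩ L').image (· + z) := by
      conv_lhs => rw [← hadj]
      ext x
      rw [mem_adj, mem_union, mem_image]
      constructor
      · rintro (h | h)
        · exact Or.inl h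
        · exact Or.inr ⟨x + z, h, add_add_cancel_pt x z⟩
      · rintro (h | ⟨y, hy, rfl⟩)
        · exact Or.inl h
        · right
          rwa [add_add_cancel_pt]
    have hd : Disjoint (D ∩ L') ((D ∩ L').image (· + z)) := by
      rw [disjoint_left]
      rintro x hx hx2
      obtain ⟨y, hy, rfl⟩ := mem_image.1 hx2
      have h3 := hcl _ hy _ hx
      rw [add_add_cancel_pt'] at h3
      exact hzC h3
    have h4 := congrArg Finset.card h
    rw [card_eq hL3, card_union_of_disjoint hd,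
      card_image_of_injective _ (add_left_injective z)] at h4
    omega
  refine ⟨mem_hyp.2 ⟨mem_Sing.2 ⟨h0, hcl, ?_, ?_⟩, inter_subset_left⟩, hadj⟩
  · intro x hx
    exact Q_eq hD1 (mem_inter.1 hx).1
  · rw [pow_succ] at hcard
    omega

theorem sum_other {M D : Finset (Pt N)} (hM : M ∈ Sing N (m + 2)) (hD : D ∈ hyp (m + 1) M)
    (g : Finset (Pt N) → ℝ) :
    ∑ z ∈ M \ D, ∑ C ∈ hyp m D, g (adj C z)
      = 2 ^ m * ∑ L' ∈ (hyp (m + 1) M).erase D, g L' := by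
  have hD1 := (mem_hyp.1 hD).1
  have h1 : (2 : ℝ) ^ m * ∑ L' ∈ (hyp (m + 1) M).erase D, g L'
      = ∑ L' ∈ (hyp (m + 1) M).erase D, ∑ _z ∈ L' \ D, g L' := by
    rw [Finset.mul_sum]
    refine Finset.sum_congr rfl fun L' hL' => ?_
    rw [Finset.sum_const, nsmul_eq_mul]
    congr 1
    obtain ⟨hne, hL2⟩ := mem_erase.1 hL'
    have hL3 := (mem_hyp.1 hL2).1
    have hns : ¬ L' ⊆ D := fun h => hne (eq_of_hyp hL3 hD1 h)
    obtain ⟨z, hz1, hz2⟩ := Finset.not_subset.1 hns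
    have h2 := (inter_other hM hD hL' (mem_sdiff.2 ⟨hz1, hz2⟩)).1
    have h3 : (L' \ D).card = 2 ^ m := by
      have h4 := card_sdiff_add_card_inter L' D
      rw [inter_comm L' D, card_eq (mem_hyp.1 h2).1, card_eq hL3, pow_succ] at h4
      omega
    rw [h3]
    push_cast
    rfl
  rw [h1, Finset.sum_sigma', Finset.sum_sigma']
  refine Finset.sum_bij' (fun p _ => ⟨adj p.2 p.1, p.1⟩) (fun q _ => ⟨q.2, D ∩ q.1⟩)
    ?_ ?_ ?_ ?_ ?_
  · rintro ⟨z, C⟩ hp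
    obtain ⟨hz, hC⟩ := mem_sigma.1 hp
    simp only at hz hC
    obtain ⟨h2, h3, h4⟩ := adj_other hM hD hz hC
    exact mem_sigma.2 ⟨h2, h3⟩
  · rintro ⟨L', z⟩ hq
    obtain ⟨hL, hz⟩ := mem_sigma.1 hq
    simp only at hz hL
    refine mem_sigma.2 ⟨?_, (inter_other hM hD hL hz).1⟩
    obtain ⟨hz1, hz2⟩ := mem_sdiff.1 hz
    exact mem_sdiff.2 ⟨(mem_hyp.1 (mem_erase.1 hL).2).2 hz1, hz2⟩
  · rintro ⟨z, C⟩ hp
    obtain ⟨hz, hC⟩ := mem_sigma.1 hp
    simp only at hz hC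
    obtain ⟨h2, h3, h4⟩ := adj_other hM hD hz hC
    simp only [h4]
  · rintro ⟨L', z⟩ hq
    obtain ⟨hL, hz⟩ := mem_sigma.1 hq
    simp only at hz hL
    simp only [(inter_other hM hD hL hz).2]
  · rintro ⟨z, C⟩ _
    rfl

end Pool.Agent.MP_ec946a.QT
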