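import Mathlib
import Pool.Agent.Lib.MP_ec946a_qt.Defs
import Pool.Agent.Lib.MP_ec946a_qt.DC
import Pool.Agent.Lib.MP_ec946a_qt.DC2a

/-!
# DC2

Change of variables to ordered pairs of distinct hyperplanes of `M`.
-/

set_option autoImplicit false

namespace Pool.Agent.MP_ec946a.QT

open Finset

variable {N m : ℕ}

theorem dc2 (G : Finset (Pt N) → Finset (Pt N) → Finset (Pt N) → ℝ) :
    ∑ C ∈ Sing N m, ∑ z ∈ Z C, ∑ z' ∈ Z (adj C z), G (adj (adj C z) z') (adj C z) (adj C z')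
      = 4 ^ m * ∑ M ∈ Sing N (m + 2), ∑ L ∈ hyp (m + 1) M, ∑ L' ∈ (hyp (m + 1) M).erase L,
        G M L L' := by
  rw [dc (N := N) (m := m) (fun C _ D => ∑ z' ∈ Z D, G (adj D z') D (adj C z'))]
  have h1 : ∀ D ∈ Sing N (m + 1), ∑ C ∈ hyp m D, ∑ _z ∈ D \ C, ∑ z' ∈ Z D,
      G (adj D z') D (adj C z')
      = ∑ z' ∈ Z D, 2 ^ m * ∑ C ∈ hyp m D, G (adj D z') D (adj C z') := by
    intro D hD
    have h2 : ∀ C ∈ hyp m D, ∑ _z ∈ D \ C, ∑ z' ∈ Z D, G (adj D z') D (adj C z')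
        = 2 ^ m * ∑ z' ∈ Z D, G (adj D z') D (adj C z') := by
      intro C hC
      rw [Finset.sum_const, card_sdiff_hyp hD hC, nsmul_eq_mul]
      push_cast
      rfl
    rw [Finset.sum_congr rfl h2, ← Finset.mul_sum, Finset.sum_comm, Finset.mul_sum]
  rw [Finset.sum_congr rfl h1]
  rw [dc (N := N) (m := m + 1) (fun D z' M => 2 ^ m * ∑ C ∈ hyp m D, G M D (adj C z'))]
  rw [Finset.mul_sum]
  refine Finset.sum_congr rfl fun M hM => ?_
  rw [Finset.mul_sum]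
  refine Finset.sum_congr rfl fun D hD => ?_
  rw [← Finset.mul_sum, sum_other hM hD (fun L' => G M D L'), ← mul_assoc]
  congr 1
  rw [show (4 : ℝ) = 2 * 2 by norm_num, mul_pow]

end Pool.Agent.MP_ec946a.QT
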