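import Mathlib
import Pool.Agent.Lib.MP_ec946a_qt.Defs
import Pool.Agent.Lib.MP_ec946a_qt.RP
import Pool.Agent.Lib.MP_ec946a_qt.DC2
import Pool.Agent.Lib.MP_ec946a_qt.HeavyCard

/-!
# LightSum

The number of configurations with a light label.
-/

set_option autoImplicit false

namespace Pool.Agent.MP_ec946a.QT

open Finset

variable {N m : ℕ}

theorem light_sum {lam : Finset (Pt N) → Pt N → ZMod 2}
    (hlam : ∀ L ∈ Sing N (m + 1), Quad L (lam L)) {τ : ℝ} (hτ : 0 < τ) :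
    ∑ A ∈ Sing N m, ∑ w ∈ Z A, ∑ z ∈ Z (adj A w), ell lam m τ A w z
      ≤ 4 ^ m * ((Sing N (m + 2)).card : ℝ) * (τ * (2 ^ (m + 2) - 1)) *
        (2 * (2 ^ (m + 2) - 1)) := by
  classical
  set G : Finset (Pt N) → Finset (Pt N) → Finset (Pt N) → ℝ := fun M L L' =>
    (((light lam (m + 1) τ M).filter fun g =>
      (∀ x ∈ L, lam L x = g x) ∧ (∀ x ∈ L', lam L' x = g x)).card : ℝ) with hG
  have h1 : ∀ A ∈ Sing N m, ∑ w ∈ Z A, ∑ z ∈ Z (adj A w), ell lam m τ A w z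
      = ∑ z ∈ Z A, ∑ z' ∈ Z (adj A z), G (adj (adj A z) z') (adj A z) (adj A z') := by
    intro A hA
    rw [reparam hA (fun w z => ell lam m τ A w z)]
    refine sum_congr rfl fun z _ => sum_congr rfl fun z' _ => ?_
    have e1 : adj (adj A (z + z')) z = adj (adj A z) z' := by
      rw [adj_adj_comm, adj_adj_comm (A := A) (w := z) (z := z')]
      rw [add_comm z z', adj_adj_comm (A := A) (w := z') (z := z)]
      exact adj_adj_add
    have e2 : z + (z + z') = z' := add_add_cancel_pt' z' z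
    simp only [ell, hG, e1, e2]
  rw [sum_congr rfl h1, dc2 G]
  have hfit : ∀ M ∈ Sing N (m + 2),
      ∑ L ∈ hyp (m + 1) M, ∑ L' ∈ (hyp (m + 1) M).erase L, G M L L'
        ≤ τ * (2 ^ (m + 2) - 1) * (2 * (2 ^ (m + 2) - 1)) := by
    intro M hM
    have hGnn : ∀ L L', 0 ≤ G M L L' := fun L L' => Nat.cast_nonneg _
    have s1 : ∑ L ∈ hyp (m + 1) M, ∑ L' ∈ (hyp (m + 1) M).erase L, G M L L'
        ≤ ∑ L ∈ hyp (m + 1) M, ∑ L' ∈ hyp (m + 1) M, G M L L' :=
      sum_le_sum fun L _ => sum_le_sum_of_subset_of_nonneg (erase_subset _ _)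
        fun L' _ _ => hGnn L L'
    have s2 : ∑ L ∈ hyp (m + 1) M, ∑ L' ∈ hyp (m + 1) M, G M L L'
        = ∑ g ∈ light lam (m + 1) τ M, (hh lam (m + 1) M g : ℝ) ^ 2 := by
      have e : ∀ L L', G M L L' = ∑ g ∈ light lam (m + 1) τ M,
          (if ∀ x ∈ L, lam L x = g x then (1 : ℝ) else 0) *
            (if ∀ x ∈ L', lam L' x = g x then (1 : ℝ) else 0) := by
        intro L L'
        simp only [hG]
        rw [card_filter, Nat.cast_sum]
        refine sum_congr rfl fun g _ => ?_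
        by_cases a : ∀ x ∈ L, lam L x = g x
        · by_cases b : ∀ x ∈ L', lam L' x = g x
          · rw [if_pos ⟨a, b⟩, if_pos a, if_pos b]; norm_num
          · rw [if_neg fun h => b h.2, if_neg b]; norm_num
        · rw [if_neg fun h => a h.1, if_neg a]; norm_num
      simp only [e]
      have e3 : ∀ g : Pt N → ZMod 2, (hh lam (m + 1) M g : ℝ)
          = ∑ L ∈ hyp (m + 1) M, if ∀ x ∈ L, lam L x = g x then (1 : ℝ) else 0 := by
        intro g
        rw [hh, card_filter, Nat.cast_sum]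
        exact sum_congr rfl fun L _ => by split_ifs <;> simp
      simp only [e3, sq, sum_mul_sum]
      rw [show (∑ L ∈ hyp (m + 1) M, ∑ L' ∈ hyp (m + 1) M, ∑ g ∈ light lam (m + 1) τ M,
          (if ∀ x ∈ L, lam L x = g x then (1 : ℝ) else 0) *
            (if ∀ x ∈ L', lam L' x = g x then (1 : ℝ) else 0))
        = ∑ L ∈ hyp (m + 1) M, ∑ g ∈ light lam (m + 1) τ M, ∑ L' ∈ hyp (m + 1) M,
          (if ∀ x ∈ L, lam L x = g x then (1 : ℝ) else 0) *
            (if ∀ x ∈ L', lam L' x = g x then (1 : ℝ) else 0) from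
        sum_congr rfl fun L _ => sum_comm]
      exact sum_comm
    have s3 : ∑ g ∈ light lam (m + 1) τ M, (hh lam (m + 1) M g : ℝ) ^ 2
        ≤ ∑ g ∈ light lam (m + 1) τ M, τ * (2 ^ (m + 2) - 1) * (hh lam (m + 1) M g : ℝ) := by
      refine sum_le_sum fun g hg => ?_
      have h2 : (hh lam (m + 1) M g : ℝ) < τ * (2 ^ (m + 1 + 1) - 1) := (mem_filter.1 hg).2
      rw [sq]
      exact mul_le_mul_of_nonneg_right h2.le (Nat.cast_nonneg _)
    have hp : (0 : ℝ) ≤ τ * (2 ^ (m + 2) - 1) := by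
      have : (1 : ℝ) ≤ 2 ^ (m + 2) := one_le_pow₀ (by norm_num)
      exact mul_nonneg hτ.le (by linarith)
    have s4 : ∑ g ∈ light lam (m + 1) τ M, τ * (2 ^ (m + 2) - 1) * (hh lam (m + 1) M g : ℝ)
        ≤ ∑ g ∈ lab M, τ * (2 ^ (m + 2) - 1) * (hh lam (m + 1) M g : ℝ) :=
      sum_le_sum_of_subset_of_nonneg (filter_subset _ _)
        fun g _ _ => mul_nonneg hp (Nat.cast_nonneg _)
    have s5 : ∑ g ∈ lab M, τ * (2 ^ (m + 2) - 1) * (hh lam (m + 1) M g : ℝ)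
        = τ * (2 ^ (m + 2) - 1) * (2 * (2 ^ (m + 2) - 1)) := by
      rw [← mul_sum, sum_hh hlam hM]
    linarith
  have hfin : ∑ M ∈ Sing N (m + 2), ∑ L ∈ hyp (m + 1) M, ∑ L' ∈ (hyp (m + 1) M).erase L, G M L L'
      ≤ ((Sing N (m + 2)).card : ℝ) * (τ * (2 ^ (m + 2) - 1) * (2 * (2 ^ (m + 2) - 1))) := by
    refine (sum_le_sum hfit).trans ?_
    rw [sum_const, nsmul_eq_mul]
  calc 4 ^ m * ∑ M ∈ Sing N (m + 2), ∑ L ∈ hyp (m + 1) M, ∑ L' ∈ (hyp (m + 1) M).erase L, G M L L'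
      ≤ 4 ^ m * (((Sing N (m + 2)).card : ℝ) *
          (τ * (2 ^ (m + 2) - 1) * (2 * (2 ^ (m + 2) - 1)))) :=
        mul_le_mul_of_nonneg_left hfin (by positivity)
    _ = _ := by ring

end Pool.Agent.MP_ec946a.QT
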