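import Mathlib
import Pool.Agent.Lib.MP_ec946a_qt.Defs

/-!
# PairCnt

RECIPE.  If some term is nonzero, let `A`, `w` be such a pair, so `g = g'` on `A`, `g w ≠ g' w`.
The set `S = {x ∈ D : g x = g' x}` is closed under addition, contains every `A'` occurring in a
nonzero term, and has at most `2 ^ m` elements (`S` and `S + w` are disjoint in `D`: if `x` and
`x + w` are both in `S` then `g w = g' w` by the quadratic law).  So `A' = S` for every such `A'`
(`eq_of_subset_of_card_le`), there is only one such `A'`, and the terms for it are at most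
`(D \ A').card = 2 ^ m`.
-/

set_option autoImplicit false

namespace Pool.Agent.MP_ec946a.QT

open Finset

variable {N m : ℕ}

theorem pair_count {D : Finset (Pt N)} (hD : D ∈ Sing N (m + 1)) {g g' : Pt N → ZMod 2}
    (hg : Quad D g) (hg' : Quad D g') :
    ∑ A ∈ hyp m D, ∑ w ∈ D \ A, (if (∀ x ∈ A, g x = g' x) ∧ g w ≠ g' w then (1 : ℝ) else 0)
      ≤ 2 ^ m := by
  by_cases h : ∃ A ∈ hyp m D, ∃ w ∈ D \ A, (∀ x ∈ A, g x = g' x) ∧ g w ≠ g' w
  · obtain ⟨A0, hA0, w0, hw0, h1, h2⟩ := h
    have hw := mem_sdiff.1 hw0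
    have key : ∀ A ∈ hyp m D, ∀ w ∈ D \ A, (∀ x ∈ A, g x = g' x) ∧ g w ≠ g' w → A = A0 := by
      intro A hA w _ hc
      refine eq_of_hyp (mem_hyp.1 hA).1 (mem_hyp.1 hA0).1 fun x hx => ?_
      have hxD : x ∈ D := (mem_hyp.1 hA).2 hx
      have hx2 : x ∈ adj A0 w0 := by
        rw [adj_eq_of_mem_hyp hD hA0 hw.1 hw.2]
        exact hxD
      rcases mem_adj.1 hx2 with hx3 | hx3
      · exact hx3
      · exfalso
        have e1 := h1 _ hx3
        rw [hg x hxD w0 hw.1, hg' x hxD w0 hw.1, hc.1 x hx] at e1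
        exact h2 (add_left_cancel (add_right_cancel e1))
    rw [sum_eq_single A0 (fun A hA hne => sum_eq_zero fun w hw' => if_neg fun hc =>
      hne (key A hA w hw' hc)) (fun hn => absurd hA0 hn)]
    refine (sum_le_sum (g := fun _ => (1 : ℝ)) fun w _ => ?_).trans ?_
    · split_ifs
      · exact le_rfl
      · exact zero_le_one
    · rw [sum_const, card_sdiff_hyp hD hA0]
      simp
  · push Not at h
    rw [sum_eq_zero]
    · positivity
    · intro A hA
      refine sum_eq_zero fun w hw => if_neg ?_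
      rintro ⟨h1, h2⟩
      exact h2 (h A hA w hw h1)

end Pool.Agent.MP_ec946a.QT
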