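import Mathlib
import Pool.Agent.Lib.MP_ec946a_qt.Defs
import Pool.Agent.Lib.MP_ec946a_qt.Glue
import Pool.Agent.Lib.MP_ec946a_qt.HeavyCard
import Pool.Agent.Lib.MP_ec946a_qt.LightSum
import Pool.Agent.Lib.MP_ec946a_qt.PairCnt
import Pool.Agent.Lib.MP_ec946a_qt.DC
import Pool.Agent.Lib.MP_ec946a_qt.Cnt

/-!
# NuUp

RECIPE.  Fix `A ∈ Sing N m`, `w ∈ Z A` and `z, z' ∈ P2 lam mu A w` with `cc z ≠ cc z'`.  Let `g`, `g'`
be the glued labels (`glue`).  Put `ℓ A w z = ell lam m τ A w z`, `D = adj A w`.  If `g` is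
light (`g ∈ light lam (m+1) τ (adj D z)`) then `1 ≤ ℓ A w z`; if `g'` is light then `1 ≤ ℓ A w z'`;
if both are heavy then `1 ≤ T A w D z z' :=
∑ g ∈ heavy lam (m+1) τ (adj D z), ∑ g' ∈ heavy lam (m+1) τ (adj D z'),
if (∀ x ∈ A, g x = g' x) ∧ g w ≠ g' w then 1 else 0`.  So
`nu ≤ ∑ A, ∑ w, ∑ z ∈ Z D, ∑ z' ∈ Z D, (ℓ A w z + ℓ A w z' + T A w D z z')` (enlarge `P2` to `Z D`).
The first two parts are `eN N (m+1) * light_sum` each (`card_Z` for `D ∈ Sing N (m+1)`); for the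
third use `dc` with `G A w D = ∑ z ∈ Z D, ∑ z' ∈ Z D, T A w D z z'`, swap the sums to
`∑ D, ∑ z, ∑ z', ∑ g, ∑ g', ∑ A ∈ hyp m D, ∑ w ∈ D \ A, if ...` and use `pair_count` (labels of
`adj D z` are quadratic on `D`), `card_heavy`, `card_Z`.
-/

set_option autoImplicit false

namespace Pool.Agent.MP_ec946a.QT

open Finset

variable {N m : ℕ}

private noncomputable def TT (lam : Finset (Pt N) → Pt N → ZMod 2) (m : ℕ) (τ : ℝ)
    (A : Finset (Pt N)) (w : Pt N) (D : Finset (Pt N)) (z z' : Pt N) : ℝ :=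
  ∑ g ∈ heavy lam (m + 1) τ (adj D z), ∑ g' ∈ heavy lam (m + 1) τ (adj D z'),
    if (∀ x ∈ A, g x = g' x) ∧ g w ≠ g' w then (1 : ℝ) else 0

private lemma ind_nonneg (P : Prop) [Decidable P] : (0 : ℝ) ≤ if P then (1 : ℝ) else 0 := by
  split_ifs <;> norm_num

private lemma TT_nonneg (lam : Finset (Pt N) → Pt N → ZMod 2) (m : ℕ) (τ : ℝ)
    (A : Finset (Pt N)) (w : Pt N) (D : Finset (Pt N)) (z z' : Pt N) :
    0 ≤ TT lam m τ A w D z z' :=
  sum_nonneg fun _ _ => sum_nonneg fun _ _ => ind_nonneg _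

private lemma ell_nonneg (lam : Finset (Pt N) → Pt N → ZMod 2) (m : ℕ) (τ : ℝ)
    (A : Finset (Pt N)) (w z : Pt N) : 0 ≤ ell lam m τ A w z := by
  unfold ell
  exact Nat.cast_nonneg _

private lemma one_le_ell {lam : Finset (Pt N) → Pt N → ZMod 2} {m : ℕ} {τ : ℝ}
    {A : Finset (Pt N)} {w z : Pt N} {g : Pt N → ZMod 2}
    (hg : g ∈ light lam (m + 1) τ (adj (adj A w) z))
    (h1 : ∀ x ∈ adj A z, lam (adj A z) x = g x)
    (h2 : ∀ x ∈ adj A (z + w), lam (adj A (z + w)) x = g x) : 1 ≤ ell lam m τ A w z := by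
  unfold ell
  refine Nat.one_le_cast.2 (card_pos.2 ⟨g, ?_⟩)
  classical
  exact mem_filter.2 ⟨hg, h1, h2⟩

private lemma light_or_heavy {lam : Finset (Pt N) → Pt N → ZMod 2} {m : ℕ} {τ : ℝ}
    {M : Finset (Pt N)} {g : Pt N → ZMod 2} (hg : g ∈ lab M) :
    g ∈ light lam m τ M ∨ g ∈ heavy lam m τ M := by
  rcases lt_or_ge ((hh lam m M g : ℝ)) (τ * (2 ^ (m + 1) - 1)) with h | h
  · left
    exact mem_filter.2 ⟨hg, h⟩
  · right
    exact mem_filter.2 ⟨hg, h⟩

private lemma pointwise {lam : Finset (Pt N) → Pt N → ZMod 2} (mu : Finset (Pt N) → Pt N → ZMod 2)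
    (hlam : ∀ L ∈ Sing N (m + 1), Quad L (lam L)) {τ : ℝ}
    {A : Finset (Pt N)} (hA : A ∈ Sing N m) {w : Pt N} (hw : w ∈ Z A) {z z' : Pt N}
    (hz : z ∈ P2 lam mu A w) (hz' : z' ∈ P2 lam mu A w) :
    (if cc lam A w z ≠ cc lam A w z' then (1 : ℝ) else 0)
      ≤ ell lam m τ A w z + ell lam m τ A w z' + TT lam m τ A w (adj A w) z z' := by
  have e1 := ell_nonneg lam m τ A w z
  have e2 := ell_nonneg lam m τ A w z'
  have e3 := TT_nonneg lam m τ A w (adj A w) z z'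
  split_ifs with hc
  · obtain ⟨g, hg, g1, g2, g3, g4⟩ := glue hlam hA hw hz
    obtain ⟨g', hg', g1', g2', g3', g4'⟩ := glue hlam hA hw hz'
    rcases light_or_heavy (lam := lam) (m := m + 1) (τ := τ) hg with h | h
    · have := one_le_ell h g1 g2
      linarith
    rcases light_or_heavy (lam := lam) (m := m + 1) (τ := τ) hg' with h' | h'
    · have := one_le_ell h' g1' g2'
      linarith
    have h3 : (1 : ℝ) ≤ TT lam m τ A w (adj A w) z z' := by
      unfold TT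
      have k1 : (1 : ℝ) ≤ ∑ g' ∈ heavy lam (m + 1) τ (adj (adj A w) z'),
          if (∀ x ∈ A, g x = g' x) ∧ g w ≠ g' w then (1 : ℝ) else 0 := by
        have k2 : (if (∀ x ∈ A, g x = g' x) ∧ g w ≠ g' w then (1 : ℝ) else 0) = 1 := by
          rw [if_pos]
          refine ⟨fun x hx => ?_, ?_⟩
          · rw [g3 x hx, g3' x hx]
          · rw [g4, g4']
            exact hc
        refine k2.symm.le.trans ?_
        exact single_le_sum (f := fun g' : Pt N → ZMod 2 =>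
          if (∀ x ∈ A, g x = g' x) ∧ g w ≠ g' w then (1 : ℝ) else 0)
          (fun _ _ => ind_nonneg _) h'
      refine k1.trans ?_
      exact single_le_sum (f := fun g : Pt N → ZMod 2 =>
        ∑ g' ∈ heavy lam (m + 1) τ (adj (adj A w) z'),
          if (∀ x ∈ A, g x = g' x) ∧ g w ≠ g' w then (1 : ℝ) else 0)
        (fun _ _ => sum_nonneg fun _ _ => ind_nonneg _) h
    linarith
  · positivity

private lemma perD {lam : Finset (Pt N) → Pt N → ZMod 2}
    (hlam : ∀ L ∈ Sing N (m + 1), Quad L (lam L)) {τ : ℝ} (hτ : 0 < τ)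
    {D : Finset (Pt N)} (hD : D ∈ Sing N (m + 1)) :
    ∑ A ∈ hyp m D, ∑ w ∈ D \ A, ∑ z ∈ Z D, ∑ z' ∈ Z D, TT lam m τ A w D z z'
      ≤ eN N (m + 1) ^ 2 * (2 / τ) ^ 2 * 2 ^ m := by
  have h1 : ∑ A ∈ hyp m D, ∑ w ∈ D \ A, ∑ z ∈ Z D, ∑ z' ∈ Z D, TT lam m τ A w D z z'
      = ∑ z ∈ Z D, ∑ z' ∈ Z D, ∑ g ∈ heavy lam (m + 1) τ (adj D z),
          ∑ g' ∈ heavy lam (m + 1) τ (adj D z'), ∑ A ∈ hyp m D, ∑ w ∈ D \ A,
            if (∀ x ∈ A, g x = g' x) ∧ g w ≠ g' w then (1 : ℝ) else 0 := by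
    simp only [TT]
    rw [sum_sigma']
    rw [sum_comm]
    refine sum_congr rfl fun z _ => ?_
    rw [sum_comm]
    refine sum_congr rfl fun z' _ => ?_
    rw [sum_comm]
    refine sum_congr rfl fun g _ => ?_
    rw [sum_comm]
    refine sum_congr rfl fun g' _ => ?_
    rw [sum_sigma']
  rw [h1]
  have hcard : ∀ z ∈ Z D, ((heavy lam (m + 1) τ (adj D z)).card : ℝ) ≤ 2 / τ :=
    fun z hz => card_heavy hlam (adj_mem_Sing hD hz) hτ
  have hpos : (0 : ℝ) ≤ 2 / τ := by positivity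
  have h2 : ∀ z ∈ Z D, ∀ z' ∈ Z D, ∑ g ∈ heavy lam (m + 1) τ (adj D z),
          ∑ g' ∈ heavy lam (m + 1) τ (adj D z'), ∑ A ∈ hyp m D, ∑ w ∈ D \ A,
            (if (∀ x ∈ A, g x = g' x) ∧ g w ≠ g' w then (1 : ℝ) else 0)
        ≤ (2 / τ) ^ 2 * 2 ^ m := by
    intro z hz z' hz'
    calc ∑ g ∈ heavy lam (m + 1) τ (adj D z),
          ∑ g' ∈ heavy lam (m + 1) τ (adj D z'), ∑ A ∈ hyp m D, ∑ w ∈ D \ A,
            (if (∀ x ∈ A, g x = g' x) ∧ g w ≠ g' w then (1 : ℝ) else 0)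
        ≤ ∑ g ∈ heavy lam (m + 1) τ (adj D z),
          ∑ g' ∈ heavy lam (m + 1) τ (adj D z'), (2 : ℝ) ^ m := by
          refine sum_le_sum fun g hg => sum_le_sum fun g' hg' => ?_
          have q1 : Quad D g := fun x hx y hy =>
            (mem_lab.1 (mem_filter.1 hg).1).1 x (subset_adj hx) y (subset_adj hy)
          have q2 : Quad D g' := fun x hx y hy =>
            (mem_lab.1 (mem_filter.1 hg').1).1 x (subset_adj hx) y (subset_adj hy)
          exact pair_count hD q1 q2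
      _ = ((heavy lam (m + 1) τ (adj D z)).card : ℝ) *
            (((heavy lam (m + 1) τ (adj D z')).card : ℝ) * 2 ^ m) := by
          simp only [sum_const, nsmul_eq_mul]
      _ ≤ (2 / τ) * ((2 / τ) * 2 ^ m) := by
          apply mul_le_mul (hcard z hz) _ (by positivity) hpos
          exact mul_le_mul_of_nonneg_right (hcard z' hz') (by positivity)
      _ = (2 / τ) ^ 2 * 2 ^ m := by ring
  calc _ ≤ ∑ z ∈ Z D, ∑ z' ∈ Z D, (2 / τ) ^ 2 * (2 : ℝ) ^ m :=
        sum_le_sum fun z hz => sum_le_sum fun z' hz' => h2 z hz z' hz'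
    _ = eN N (m + 1) ^ 2 * (2 / τ) ^ 2 * 2 ^ m := by
        simp only [sum_const, nsmul_eq_mul]
        rw [card_Z hD]
        ring

theorem nu_up {lam : Finset (Pt N) → Pt N → ZMod 2} (mu : Finset (Pt N) → Pt N → ZMod 2)
    (hlam : ∀ L ∈ Sing N (m + 1), Quad L (lam L)) {τ : ℝ} (hτ : 0 < τ) :
    nu lam mu m ≤ 2 * eN N (m + 1) * (4 ^ m * ((Sing N (m + 2)).card : ℝ) *
          (τ * (2 ^ (m + 2) - 1)) * (2 * (2 ^ (m + 2) - 1)))
        + ((Sing N (m + 1)).card : ℝ) * eN N (m + 1) ^ 2 * (2 / τ) ^ 2 * 2 ^ m := by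
  have hsub : ∀ A w, P2 lam mu A w ⊆ Z (adj A w) := fun A w => filter_subset _ _
  have h1 : nu lam mu m ≤ ∑ A ∈ Sing N m, ∑ w ∈ Z A,
      (2 * eN N (m + 1) * (∑ z ∈ Z (adj A w), ell lam m τ A w z)
        + ∑ z ∈ Z (adj A w), ∑ z' ∈ Z (adj A w), TT lam m τ A w (adj A w) z z') := by
    unfold nu
    refine sum_le_sum fun A hA => sum_le_sum fun w hw => ?_
    have hD := adj_mem_Sing hA hw
    calc ∑ z ∈ P2 lam mu A w, ∑ z' ∈ P2 lam mu A w,
          (if cc lam A w z ≠ cc lam A w z' then (1 : ℝ) else 0)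
        ≤ ∑ z ∈ P2 lam mu A w, ∑ z' ∈ P2 lam mu A w,
          (ell lam m τ A w z + ell lam m τ A w z' + TT lam m τ A w (adj A w) z z') :=
          sum_le_sum fun z hz => sum_le_sum fun z' hz' => pointwise mu hlam hA hw hz hz'
      _ ≤ ∑ z ∈ P2 lam mu A w, ∑ z' ∈ Z (adj A w),
          (ell lam m τ A w z + ell lam m τ A w z' + TT lam m τ A w (adj A w) z z') := by
          refine sum_le_sum fun z hz => sum_le_sum_of_subset_of_nonneg (hsub A w) ?_
          intro z' _ _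
          have e1 := ell_nonneg lam m τ A w z
          have e2 := ell_nonneg lam m τ A w z'
          have e3 := TT_nonneg lam m τ A w (adj A w) z z'
          positivity
      _ ≤ ∑ z ∈ Z (adj A w), ∑ z' ∈ Z (adj A w),
          (ell lam m τ A w z + ell lam m τ A w z' + TT lam m τ A w (adj A w) z z') := by
          refine sum_le_sum_of_subset_of_nonneg (hsub A w) ?_
          intro z _ _
          refine sum_nonneg fun z' _ => ?_
          have e1 := ell_nonneg lam m τ A w z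
          have e2 := ell_nonneg lam m τ A w z'
          have e3 := TT_nonneg lam m τ A w (adj A w) z z'
          positivity
      _ = 2 * eN N (m + 1) * (∑ z ∈ Z (adj A w), ell lam m τ A w z)
        + ∑ z ∈ Z (adj A w), ∑ z' ∈ Z (adj A w), TT lam m τ A w (adj A w) z z' := by
          simp only [sum_add_distrib, sum_const, nsmul_eq_mul]
          rw [card_Z hD, ← mul_sum]
          ring
  refine h1.trans ?_
  simp only [sum_add_distrib]
  refine add_le_add ?_ ?_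
  · simp only [← mul_sum]
    have hl := light_sum (m := m) hlam hτ
    by_cases hS : (Sing N (m + 2)).Nonempty
    · refine mul_le_mul_of_nonneg_left hl ?_
      obtain ⟨M, hM⟩ := hS
      have hc := card_hyp (m := m + 1) hM
      have hp : (0 : ℝ) < 2 ^ (m + 1 + 1) - 1 := by
        have : (1 : ℝ) < 2 ^ (m + 1 + 1) := one_lt_pow₀ (by norm_num) (by omega)
        linarith
      rw [← hc] at hp
      obtain ⟨D, hD⟩ := card_pos.1 (by exact_mod_cast hp : 0 < (hyp (m + 1) M).card)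
      rw [← card_Z (mem_hyp.1 hD).1]
      positivity
    · have hz : (Sing N (m + 2)).card = 0 := by
        rw [not_nonempty_iff_eq_empty.1 hS, card_empty]
      rw [hz] at hl ⊢
      have hnn : 0 ≤ ∑ A ∈ Sing N m, ∑ w ∈ Z A, ∑ z ∈ Z (adj A w), ell lam m τ A w z :=
        sum_nonneg fun A _ => sum_nonneg fun w _ => sum_nonneg fun z _ =>
          ell_nonneg lam m τ A w z
      have hz0 : ∑ A ∈ Sing N m, ∑ w ∈ Z A, ∑ z ∈ Z (adj A w), ell lam m τ A w z = 0 := by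
        refine le_antisymm (hl.trans (le_of_eq ?_)) hnn
        simp
      rw [hz0]
      simp
  · rw [dc (fun A w D => ∑ z ∈ Z D, ∑ z' ∈ Z D, TT lam m τ A w D z z')]
    calc ∑ D ∈ Sing N (m + 1), ∑ A ∈ hyp m D, ∑ w ∈ D \ A, ∑ z ∈ Z D, ∑ z' ∈ Z D,
          TT lam m τ A w D z z'
        ≤ ∑ D ∈ Sing N (m + 1), eN N (m + 1) ^ 2 * (2 / τ) ^ 2 * 2 ^ m :=
          sum_le_sum fun D hD => perD hlam hτ hD
      _ = ((Sing N (m + 1)).card : ℝ) * eN N (m + 1) ^ 2 * (2 / τ) ^ 2 * 2 ^ m := by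
          rw [sum_const, nsmul_eq_mul]
          ring

end Pool.Agent.MP_ec946a.QT
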