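import Mathlib
import Pool.Agent.Lib.MP_ec946a_qt.Defs
import Pool.Agent.Lib.MP_ec946a_qt.NuUp
import Pool.Agent.Lib.MP_ec946a_qt.Cards

/-!
# NuNorm

RECIPE.  Pure algebra from `nu_up` and `card_step` (for `m` and `m + 1`):
`|Sing m| e e' = |Sing (m+1)| (2^(m+1) - 1) 2^m e' = |Sing (m+2)| (2^(m+2) - 1) 2^(m+1) (2^(m+1) - 1) 2^m`
with `e = eN N m`, `e' = eN N (m + 1)`, and `2 (2^(m+1) - 1) = 2^(m+2) - 2`, `4 ^ m = (2 ^ m)^2`.
-/

set_option autoImplicit false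

namespace Pool.Agent.MP_ec946a.QT

open Finset

variable {N m : ℕ}

theorem nu_norm {lam : Finset (Pt N) → Pt N → ZMod 2} (mu : Finset (Pt N) → Pt N → ZMod 2)
    (hlam : ∀ L ∈ Sing N (m + 1), Quad L (lam L)) {τ : ℝ} (hτ : 0 < τ) :
    nu lam mu m ≤ ((Sing N m).card : ℝ) * eN N m * eN N (m + 1) ^ 2 *
      (4 * τ * ((2 ^ (m + 2) - 1) / (2 ^ (m + 2) - 2)) + 4 / (τ ^ 2 * (2 ^ (m + 1) - 1))) := by
  refine le_trans (nu_up mu hlam hτ) (le_of_eq ?_)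
  have hs1 := card_step (N := N) (m := m)
  have hs2 := card_step (N := N) (m := m + 1)
  rw [hs1]
  rw [show m + 1 + 1 = m + 2 from rfl] at hs2
  have hP : (1 : ℝ) ≤ 2 ^ m := one_le_pow₀ (by norm_num)
  have e1 : (2 : ℝ) ^ (m + 1) = 2 * 2 ^ m := by rw [pow_succ]; ring
  have e2 : (2 : ℝ) ^ (m + 2) = 4 * 2 ^ m := by rw [pow_add]; ring
  have e4 : (4 : ℝ) ^ m = (2 ^ m) ^ 2 := by rw [← pow_mul, mul_comm, pow_mul]; norm_num
  rw [e1, e2] at hs2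
  rw [e1, e2, e4]
  clear e1 e2 e4 hs1
  generalize (2 : ℝ) ^ m = P at *
  generalize ((Sing N (m + 1)).card : ℝ) = S1 at *
  generalize ((Sing N (m + 2)).card : ℝ) = S2 at *
  generalize eN N (m + 1) = e' at *
  have hP1 : (2 * P - 1) ≠ 0 := by
    intro h0; linarith
  have hP2 : (4 * P - 2) = 2 * (2 * P - 1) := by ring
  have hτ' : τ ≠ 0 := hτ.ne'
  have h1 : S1 * (2 * P - 1) * P * e' ^ 2 *
      (4 * τ * ((4 * P - 1) / (4 * P - 2)) + 4 / (τ ^ 2 * (2 * P - 1)))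
      = (S1 * e') * e' * P * (2 * τ * (4 * P - 1)) + S1 * e' ^ 2 * (2 / τ) ^ 2 * P := by
    rw [hP2]
    field_simp
    ring
  rw [h1, hs2]
  ring

end Pool.Agent.MP_ec946a.QT
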