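import Mathlib
import Pool.Agent.Lib.MP_ec946a_qt.Defs

/-!
# Num

RECIPE.  Put `K = 2 ^ (m + 1)`, `t = K ^ (-1/3)` (so `t ^ 3 = 1 / K`).  If `m ≤ 11` then
`K ≤ 2 ^ 12` and `2 * K ^ (-1/12) ≥ 1 ≥ δ`.  If `m ≥ 12` take `τ = 5 / 4 * t`:
`8 τ (2K-1)/(2K-2) = 10 t (1 + 1/(2K-2)) ≤ 10.1 t`, `8 / (τ² (K - 1)) = 5.12 t K / (K - 1)
≤ 5.2 t` (as `1 / (t² K) = t`), `4 * 2 ^ (m+2) / 2 ^ N = 8 K / 2 ^ (3 (m+1) + 10) = 8 / (1024 K²)
≤ 0.1 t`.  So `δ ^ 4 ≤ 16 t = (2 K ^ (-1/12)) ^ 4` (`Real.rpow_natCast`, `Real.rpow_mul`), and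
`pow_le_pow_left` backwards (`le_of_pow_le_pow_left₀`).
-/

set_option autoImplicit false

namespace Pool.Agent.MP_ec946a.QT

open Finset

variable {N m : ℕ}

theorem num {δ : ℝ} (h0 : 0 ≤ δ) (h1 : δ ≤ 1) (hN : N = 3 * (m + 1) + 10)
    (h : ∀ τ : ℝ, 0 < τ → δ ^ 4 - 4 * (2 ^ (m + 2) / 2 ^ N) ≤ 2 *
      (4 * τ * ((2 ^ (m + 2) - 1) / (2 ^ (m + 2) - 2)) + 4 / (τ ^ 2 * (2 ^ (m + 1) - 1)))) :
    δ ≤ 2 * ((2 : ℝ) ^ (m + 1)) ^ (-(1 / 12) : ℝ) := by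
  have eK : (2 : ℝ) ^ (m + 2) = 2 * 2 ^ (m + 1) := by rw [pow_succ]; ring
  have eN' : (2 : ℝ) ^ N = 1024 * (2 ^ (m + 1)) ^ 3 := by
    rw [hN, pow_add, mul_comm 3 (m + 1), pow_mul]; norm_num; ring
  rw [eK, eN'] at h
  have hm2 : m ≤ 11 → (2 : ℝ) ^ (m + 1) ≤ 2 ^ 12 := fun hm =>
    pow_le_pow_right₀ (by norm_num) (by omega)
  have hm3 : 12 ≤ m → (2 : ℝ) ^ 13 ≤ 2 ^ (m + 1) := fun hm =>
    pow_le_pow_right₀ (by norm_num) (by omega)
  have hK0 : (0 : ℝ) < 2 ^ (m + 1) := by positivity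
  generalize (2 : ℝ) ^ (m + 1) = K at *
  have hs : 0 < K ^ (-(1 / 12) : ℝ) := Real.rpow_pos_of_pos hK0 _
  have hs12 : (K ^ (-(1 / 12) : ℝ)) ^ 12 * K = 1 := by
    rw [← Real.rpow_natCast, ← Real.rpow_mul hK0.le]
    norm_num
    rw [Real.rpow_neg_one]
    exact inv_mul_cancel₀ hK0.ne'
  generalize K ^ (-(1 / 12) : ℝ) = s at *
  rcases Nat.lt_or_ge m 12 with hm | hm
  · have hK := hm2 (by omega)
    have hh : (1 / 2 : ℝ) ≤ s := by
      rw [← pow_le_pow_iff_left₀ (by norm_num : (0 : ℝ) ≤ 1 / 2) hs.le (by norm_num : 12 ≠ 0)]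
      have hx : (1 / 2 : ℝ) ^ 12 * K ≤ s ^ 12 * K := by
        rw [hs12]
        calc (1 / 2 : ℝ) ^ 12 * K ≤ (1 / 2 : ℝ) ^ 12 * 2 ^ 12 := by gcongr
          _ = 1 := by norm_num
      exact le_of_mul_le_mul_right hx hK0
    linarith
  · have hK : (2 : ℝ) ^ 13 ≤ K := hm3 hm
    have hK' : (8192 : ℝ) ≤ K := by norm_num at hK; exact hK
    have ht : 0 < s ^ 4 := by positivity
    have ht3 : (s ^ 4) ^ 3 * K = 1 := by rw [← pow_mul]; exact hs12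
    have hmain := h (5 / 4 * s ^ 4) (by positivity)
    rw [← pow_le_pow_iff_left₀ h0 (by positivity) (by norm_num : 4 ≠ 0)]
    rw [mul_pow]
    generalize s ^ 4 = t at *
    have a1 : 4 * (2 * K / (1024 * K ^ 3)) ≤ t / 10 := by
      have ht1 : t ≤ 1 := by
        by_contra hc
        push Not at hc
        have h3 : 1 < t ^ 3 := one_lt_pow₀ hc (by norm_num)
        nlinarith
      have e : 4 * (2 * K / (1024 * K ^ 3)) = (t ^ 3) ^ 2 / 128 := by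
        have hK2 : t ^ 3 = 1 / K := by field_simp; exact ht3
        rw [hK2]
        field_simp
        norm_num
      rw [e]
      have h6 : (t ^ 3) ^ 2 ≤ t := by
        calc (t ^ 3) ^ 2 = t ^ 6 := by ring
          _ ≤ t ^ 1 := pow_le_pow_of_le_one ht.le ht1 (by norm_num)
          _ = t := pow_one t
      linarith
    have a2 : 4 * (5 / 4 * t) * ((2 * K - 1) / (2 * K - 2)) ≤ 101 / 20 * t := by
      have hq : (2 * K - 1) / (2 * K - 2) ≤ 101 / 100 := by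
        rw [div_le_iff₀ (by linarith)]
        linarith
      calc 4 * (5 / 4 * t) * ((2 * K - 1) / (2 * K - 2)) ≤ 4 * (5 / 4 * t) * (101 / 100) := by
            gcongr
        _ = 101 / 20 * t := by ring
    have a3 : 4 / ((5 / 4 * t) ^ 2 * (K - 1)) ≤ 13 / 5 * t := by
      rw [div_le_iff₀ (by have : 0 < K - 1 := by linarith
                          positivity)]
      have e : 13 / 5 * t * ((5 / 4 * t) ^ 2 * (K - 1)) = 65 / 16 * (t ^ 3 * K) * ((K - 1) / K) := by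
        field_simp
        ring
      rw [e, ht3]
      have hq : (64 / 65 : ℝ) ≤ (K - 1) / K := by
        rw [le_div_iff₀ hK0]
        linarith
      linarith
    linarith

end Pool.Agent.MP_ec946a.QT
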