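import Mathlib
import Pool.Agent.Lib.MP_ec946a_qt.Defs
import Pool.Agent.Lib.MP_ec946a_qt.NuLow
import Pool.Agent.Lib.MP_ec946a_qt.NuNorm
import Pool.Agent.Lib.MP_ec946a_qt.Num
import Pool.Agent.Lib.MP_ec946a_qt.Cards
import Pool.Agent.Lib.MP_ec946a_qt.Cnt

/-!
# Core

RECIPE.  Let `δ = (∑ A, |F_A|) / (|Sing N m| * eN N m)`; `0 ≤ δ ≤ 1` (`F ⊆ Z A`, `card_Z`).  For each
`τ > 0`, `nu_low` and `nu_norm` (divide by the positive weight `|Sing| e e'²`: `sing_card_pos`,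
`eN_pos`) give the hypothesis of `num`.
-/

set_option autoImplicit false

namespace Pool.Agent.MP_ec946a.QT

open Finset

variable {N m : ℕ}

theorem core (hN : N = 3 * (m + 1) + 10) {lam : Finset (Pt N) → Pt N → ZMod 2}
    (mu : Finset (Pt N) → Pt N → ZMod 2) (hlam : ∀ L ∈ Sing N (m + 1), Quad L (lam L)) :
    ∑ A ∈ Sing N m, ((F lam mu A).card : ℝ)
      ≤ 2 * ((2 : ℝ) ^ (m + 1)) ^ (-(1 / 12) : ℝ) * ((Sing N m).card * eN N m) := by
  have hS : (0 : ℝ) < (Sing N m).card := by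
    exact_mod_cast sing_card_pos (N := N) (m := m) (by omega)
  have he : 0 < eN N m := eN_pos (by omega)
  have he' : 0 < eN N (m + 1) := eN_pos (by omega)
  have hSe : (0 : ℝ) < (Sing N m).card * eN N m := mul_pos hS he
  have hW : (0 : ℝ) < (Sing N m).card * eN N m * eN N (m + 1) ^ 2 := by positivity
  set δ : ℝ := (∑ A ∈ Sing N m, ((F lam mu A).card : ℝ)) / ((Sing N m).card * eN N m) with hδ
  have h0 : 0 ≤ δ := div_nonneg (sum_nonneg fun _ _ => Nat.cast_nonneg _) hSe.le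
  have h1 : δ ≤ 1 := by
    rw [hδ, div_le_one hSe]
    have hle : ∀ A ∈ Sing N m, ((F lam mu A).card : ℝ) ≤ eN N m := by
      intro A hA
      rw [← card_Z hA]
      exact_mod_cast card_le_card (filter_subset _ _)
    calc ∑ A ∈ Sing N m, ((F lam mu A).card : ℝ) ≤ ∑ A ∈ Sing N m, eN N m := sum_le_sum hle
      _ = (Sing N m).card * eN N m := by rw [sum_const, nsmul_eq_mul]
  have h : ∀ τ : ℝ, 0 < τ → δ ^ 4 - 4 * (2 ^ (m + 2) / 2 ^ N) ≤ 2 *
      (4 * τ * ((2 ^ (m + 2) - 1) / (2 ^ (m + 2) - 2)) + 4 / (τ ^ 2 * (2 ^ (m + 1) - 1))) := by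
    intro τ hτ
    have hl := nu_low (N := N) (m := m) (by omega) lam mu
    have hu := nu_norm (N := N) (m := m) mu hlam hτ
    rw [← hδ] at hl
    refine le_of_mul_le_mul_left ?_ hW
    calc _ ≤ 2 * nu lam mu m := hl
      _ ≤ 2 * (((Sing N m).card : ℝ) * eN N m * eN N (m + 1) ^ 2 *
        (4 * τ * ((2 ^ (m + 2) - 1) / (2 ^ (m + 2) - 2))
          + 4 / (τ ^ 2 * (2 ^ (m + 1) - 1)))) := by linarith
      _ = _ := by ring
  have hn := num h0 h1 hN h
  rwa [hδ, div_le_iff₀ hSe] at hn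

end Pool.Agent.MP_ec946a.QT
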