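import Mathlib
import Pool.Agent.Lib.MP_ec946a_qt.Defs
import Pool.Agent.Lib.MP_ec946a_qt.DC
import Pool.Agent.Lib.MP_ec946a_qt.Cnt
import Pool.Agent.Lib.MP_ec946a_qt.HypCard

/-!
# UpDn

RECIPE.  All by `dc`: `adjoint` with `G A w D = g A * f D` (`∑ w ∈ D \ A` is `2 ^ m` times,
`card_sdiff_hyp`); `sum_up_one` with `G A w D = f D` (`card_hyp`); `sum_dn_one` with `G A w D = g A`:
left side `∑ A, |Z A| g A = eN N m * ∑ g` (`card_Z`), right side `2 ^ m * ∑ D, ∑ A ∈ hyp m D, g A`.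
-/

set_option autoImplicit false

namespace Pool.Agent.MP_ec946a.QT

open Finset

variable {N m : ℕ}

private lemma updn_const {D A : Finset (Pt N)} (hD : D ∈ Sing N (m + 1)) (hA : A ∈ hyp m D)
    (c : ℝ) : ∑ _w ∈ D \ A, c = 2 ^ m * c := by
  rw [sum_const, card_sdiff_hyp hD hA, nsmul_eq_mul]
  push_cast
  ring

theorem adjoint (f g : Finset (Pt N) → ℝ) :
    ∑ A ∈ Sing N m, g A * up f A = 2 ^ m * ∑ L ∈ Sing N (m + 1), f L * dn m g L := by
  have h := dc (N := N) (m := m) (fun A _ D => g A * f D)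
  have h1 : ∑ A ∈ Sing N m, g A * up f A = ∑ A ∈ Sing N m, ∑ w ∈ Z A, g A * f (adj A w) := by
    refine sum_congr rfl fun A _ => ?_
    rw [up, mul_sum]
  rw [h1, h, mul_sum]
  refine sum_congr rfl fun D hD => ?_
  rw [dn, mul_sum, mul_sum]
  refine sum_congr rfl fun A hA => ?_
  rw [updn_const hD hA]
  ring

theorem sum_up_one (f : Finset (Pt N) → ℝ) :
    ∑ A ∈ Sing N m, ∑ z ∈ Z A, f (adj A z)
      = (2 ^ (m + 1) - 1) * 2 ^ m * ∑ L ∈ Sing N (m + 1), f L := by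
  have h := dc (N := N) (m := m) (fun _ _ D => f D)
  rw [h, mul_sum]
  refine sum_congr rfl fun D hD => ?_
  have h1 : ∑ A ∈ hyp m D, ∑ _w ∈ D \ A, f D = ∑ _A ∈ hyp m D, 2 ^ m * f D :=
    sum_congr rfl fun A hA => updn_const hD hA _
  rw [h1, sum_const, nsmul_eq_mul, card_hyp hD]
  ring

theorem sum_dn_one (g : Finset (Pt N) → ℝ) :
    2 ^ m * ∑ L ∈ Sing N (m + 1), ∑ A ∈ hyp m L, g A = eN N m * ∑ A ∈ Sing N m, g A := by
  have h := dc (N := N) (m := m) (fun A _ _ => g A)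
  have h1 : ∑ A ∈ Sing N m, ∑ _w ∈ Z A, g A = eN N m * ∑ A ∈ Sing N m, g A := by
    rw [mul_sum]
    refine sum_congr rfl fun A hA => ?_
    rw [sum_const, nsmul_eq_mul, card_Z hA]
  rw [← h1, h, mul_sum]
  refine sum_congr rfl fun D hD => ?_
  rw [mul_sum]
  exact sum_congr rfl fun A hA => (updn_const hD hA _).symm

end Pool.Agent.MP_ec946a.QT
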