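import Mathlib
import Pool.Agent.Lib.MP_ec946a_qt.Defs
import Pool.Agent.Lib.MP_ec946a_qt.UpDn

/-!
# EAdj

RECIPE.  Let `g = up f` (a function of `A`).  `∑ A ∈ Sing N m, g A = (2^(m+1) - 1) 2^m ∑ f = 0`
(`sum_up_one`).  `X := ∑ A, g A ^ 2 = 2 ^ m * ∑ L, f L * dn m g L` (`adjoint`), so by
Cauchy-Schwarz (`Finset.sum_mul_sq_le_sq_mul_sq`) `X² ≤ 4 ^ m (∑ f²) (∑ L, dn m g L ^ 2) ≤
4 ^ m (∑ f²) κ X`, and divide by `X` (if `X = 0` the claim is clear).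
-/

set_option autoImplicit false

namespace Pool.Agent.MP_ec946a.QT

open Finset

variable {N m : ℕ}

theorem e_adj {κ : ℝ} (hκ : 0 ≤ κ)
    (h : ∀ g : Finset (Pt N) → ℝ, ∑ A ∈ Sing N m, g A = 0 →
      ∑ L ∈ Sing N (m + 1), dn m g L ^ 2 ≤ κ * ∑ A ∈ Sing N m, g A ^ 2)
    (f : Finset (Pt N) → ℝ) (hf : ∑ L ∈ Sing N (m + 1), f L = 0) :
    ∑ A ∈ Sing N m, up f A ^ 2 ≤ 4 ^ m * κ * ∑ L ∈ Sing N (m + 1), f L ^ 2 := by
  obtain ⟨X, hX⟩ : ∃ X, X = ∑ A ∈ Sing N m, up f A ^ 2 := ⟨_, rfl⟩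
  obtain ⟨S, hS⟩ : ∃ S, S = ∑ L ∈ Sing N (m + 1), f L ^ 2 := ⟨_, rfl⟩
  have hX0 : 0 ≤ X := hX ▸ sum_nonneg fun A _ => sq_nonneg _
  have hS0 : 0 ≤ S := hS ▸ sum_nonneg fun A _ => sq_nonneg _
  have h1 : ∑ A ∈ Sing N m, up f A = 0 := by
    have := sum_up_one (N := N) (m := m) f
    rw [hf, mul_zero] at this
    exact this
  have h2 := h (up f) h1
  have h3 := adjoint (N := N) (m := m) f (up f)
  have h4 : X = 2 ^ m * ∑ L ∈ Sing N (m + 1), f L * dn m (up f) L := by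
    rw [hX, ← h3]
    exact sum_congr rfl fun A _ => by ring
  have h5 := Finset.sum_mul_sq_le_sq_mul_sq (Sing N (m + 1)) f (dn m (up f))
  rw [← hX, ← hS]
  rw [← hX] at h2
  rw [← hS] at h5
  have h6 : X ^ 2 ≤ 4 ^ m * κ * S * X := by
    have e1 : X ^ 2 = 4 ^ m * (∑ L ∈ Sing N (m + 1), f L * dn m (up f) L) ^ 2 := by
      rw [h4, mul_pow, ← pow_mul, mul_comm m 2, pow_mul]
      norm_num
    have e2 : S * ∑ L ∈ Sing N (m + 1), dn m (up f) L ^ 2 ≤ S * (κ * X) :=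
      mul_le_mul_of_nonneg_left h2 hS0
    have e3 : (4 : ℝ) ^ m * (∑ L ∈ Sing N (m + 1), f L * dn m (up f) L) ^ 2 ≤
        4 ^ m * (S * (κ * X)) := mul_le_mul_of_nonneg_left (h5.trans e2) (by positivity)
    calc X ^ 2 = _ := e1
      _ ≤ _ := e3
      _ = _ := by ring
  rcases hX0.eq_or_lt with h7 | h7
  · rw [← h7]
    positivity
  · rw [sq] at h6
    exact le_of_mul_le_mul_right h6 h7

end Pool.Agent.MP_ec946a.QT
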