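import Mathlib
import Pool.Agent.Lib.MP_ec946a_qt.Defs
import Pool.Agent.Lib.MP_ec946a_qt.Had

/-!
# PairC

The sum of `g (adj C z) * g (adj C z')` over the commuting pairs above `C`.
-/

set_option autoImplicit false

namespace Pool.Agent.MP_ec946a.QT

open Finset

variable {N m : ℕ}

theorem pair_c {C : Finset (Pt N)} (hC : C ∈ Sing N m) (g : Finset (Pt N) → ℝ) :
    ∑ z ∈ Z C, ∑ z' ∈ Z (adj C z), g (adj C z) * g (adj C z')
      ≤ up g C ^ 2 / 2 + 2 ^ N / 2 * ∑ z ∈ Z C, g (adj C z) ^ 2 := by
  classical
  set h : Pt N → ℝ := fun z => if z ∈ Z C then g (adj C z) else 0 with hh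
  have hsum : ∑ z, h z = up g C := by
    rw [hh, up, ← sum_filter]
    exact sum_congr (by ext; simp) fun _ _ => rfl
  have hsq : ∑ z, h z ^ 2 = ∑ z ∈ Z C, g (adj C z) ^ 2 := by
    have h1 : ∀ z, h z ^ 2 = if z ∈ Z C then g (adj C z) ^ 2 else 0 := by
      intro z
      simp only [hh]
      split_ifs <;> simp
    simp only [h1]
    rw [← sum_filter]
    exact sum_congr (by ext; simp) fun _ _ => rfl
  -- the left side in terms of `h`
  have hleft : ∑ z ∈ Z C, ∑ z' ∈ Z (adj C z), g (adj C z) * g (adj C z')
      = ∑ z, ∑ z', if om z z' = 0 ∧ z' + z ∉ C then h z * h z' else 0 := by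
    have h1 : ∀ z, (∑ z', if om z z' = 0 ∧ z' + z ∉ C then h z * h z' else 0)
        = if z ∈ Z C then ∑ z' ∈ Z (adj C z), g (adj C z) * g (adj C z') else 0 := by
      intro z
      by_cases hz : z ∈ Z C
      · rw [if_pos hz]
        have h2 : Z (adj C z) = univ.filter fun z' => z' ∈ Z C ∧ om z z' = 0 ∧ z' + z ∉ C := by
          ext z'
          rw [mem_Z_adj hC]
          simp
        rw [h2, sum_filter]
        refine sum_congr rfl fun z' _ => ?_
        simp only [hh, if_pos hz]
        by_cases h3 : z' ∈ Z C <;> simp [h3]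
      · rw [if_neg hz]
        refine sum_eq_zero fun z' _ => ?_
        simp [hh, if_neg hz]
    simp only [h1]
    rw [← sum_filter]
    exact (sum_congr (by ext; simp) fun _ _ => rfl)
  have hle : ∑ z, ∑ z', (if om z z' = 0 ∧ z' + z ∉ C then h z * h z' else 0)
      ≤ ∑ z, ∑ z', (if om z z' = 0 then h z * h z' else 0) := by
    refine sum_le_sum fun z _ => sum_le_sum fun z' _ => ?_
    by_cases h1 : om z z' = 0
    · by_cases h2 : z' + z ∈ C
      · rw [if_neg (by tauto), if_pos h1]
        by_cases hz : z ∈ Z C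
        · have h3 : h z' = h z := by
            have h4 : z' = z + (z' + z) := by
              rw [add_comm z' z, add_add_cancel_pt']
            have h5 : z' ∈ Z C := by
              obtain ⟨ha, hb, hc⟩ := mem_Z.1 hz
              refine mem_Z.2 ⟨fun h6 => ha ?_, ?_, fun x hx => ?_⟩
              · exact (add_mem_iff hC h6).1 h2
              · rw [h4, Q_add, hb, Q_eq hC h2, om_comm, hc _ h2]; ring
              · rw [h4, om_add_right, hc x hx, om_eq hC hx h2]; ring
            have h6 : adj C z' = adj C z := by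
              rw [h4]
              exact adj_add hC h2
            simp only [hh, if_pos hz, if_pos h5, h6]
          rw [h3]
          exact mul_self_nonneg _
        · have h3 : h z = 0 := by simp only [hh, if_neg hz]
          rw [h3, zero_mul]
      · rw [if_pos ⟨h1, h2⟩, if_pos h1]
    · rw [if_neg (by tauto), if_neg h1]
  have hhalf : ∑ z, ∑ z', (if om z z' = 0 then h z * h z' else 0)
      = ((∑ z, h z) ^ 2 + ∑ z, ∑ z', h z * h z' * sgn (om z z')) / 2 := by
    rw [sq, sum_mul_sum, ← sum_add_distrib, sum_div]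
    refine sum_congr rfl fun z _ => ?_
    rw [← sum_add_distrib, sum_div]
    refine sum_congr rfl fun z' _ => ?_
    unfold sgn
    split_ifs <;> ring
  have hhad := le_of_abs_le (hadamard h)
  rw [hleft]
  refine hle.trans ?_
  rw [hhalf, hsum]
  rw [hsq] at hhad
  linarith

end Pool.Agent.MP_ec946a.QT
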