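import Mathlib
import Pool.Agent.Lib.MP_ec946a_qt.Defs
import Pool.Agent.Lib.MP_ec946a_qt.UpDn
import Pool.Agent.Lib.MP_ec946a_qt.PairC
import Pool.Agent.Lib.MP_ec946a_qt.DC2

/-!
# ERec

RECIPE.  `(dn (m+1) g L)² = ∑ A ∈ hyp (m+1) L, g A ^ 2 + ∑ A ∈ hyp (m+1) L, ∑ A' ∈ erase A, g A g A'`.
The first part, summed over `L`, is `eN N (m+1) / 2 ^ (m+1) * ∑ g²` (`sum_dn_one` for `m + 1`).  The
second, by `dc2` with `G M L L' = g L * g L'`, is `(1 / 4 ^ m) * ∑ C ∈ Sing N m, ∑ z ∈ Z C,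
∑ z' ∈ Z (adj C z), g (adj C z) g (adj C z')`; use `pair_c` for each `C` and `sum_up_one` with
`f = g ^ 2`.
-/

set_option autoImplicit false

namespace Pool.Agent.MP_ec946a.QT

open Finset

variable {N m : ℕ}

private lemma erec_sq (s : Finset (Finset (Pt N))) (g : Finset (Pt N) → ℝ) :
    (∑ A ∈ s, g A) ^ 2 = ∑ A ∈ s, g A ^ 2 + ∑ A ∈ s, ∑ A' ∈ s.erase A, g A * g A' := by
  rw [sq, sum_mul_sum, ← sum_add_distrib]
  refine sum_congr rfl fun A hA => ?_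
  rw [← add_sum_erase s (fun A' => g A * g A') hA, sq]

theorem e_rec (g : Finset (Pt N) → ℝ) :
    ∑ L ∈ Sing N (m + 2), dn (m + 1) g L ^ 2
      ≤ eN N (m + 1) / 2 ^ (m + 1) * ∑ A ∈ Sing N (m + 1), g A ^ 2
        + 1 / 4 ^ m * ((∑ C ∈ Sing N m, up g C ^ 2) / 2
          + 2 ^ N / 2 * ((2 ^ (m + 1) - 1) * 2 ^ m * ∑ A ∈ Sing N (m + 1), g A ^ 2)) := by
  have h1 : ∑ L ∈ Sing N (m + 2), dn (m + 1) g L ^ 2
      = ∑ L ∈ Sing N (m + 2), ∑ A ∈ hyp (m + 1) L, g A ^ 2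
        + ∑ L ∈ Sing N (m + 2), ∑ A ∈ hyp (m + 1) L, ∑ A' ∈ (hyp (m + 1) L).erase A,
          g A * g A' := by
    rw [← sum_add_distrib]
    refine sum_congr rfl fun L _ => ?_
    rw [dn, erec_sq]
  have h2 := sum_dn_one (N := N) (m := m + 1) (fun A => g A ^ 2)
  have h3 := dc2 (N := N) (m := m) (fun _ L L' => g L * g L')
  have h4 : ∑ C ∈ Sing N m, ∑ z ∈ Z C, ∑ z' ∈ Z (adj C z), g (adj C z) * g (adj C z')
      ≤ (∑ C ∈ Sing N m, up g C ^ 2) / 2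
          + 2 ^ N / 2 * ((2 ^ (m + 1) - 1) * 2 ^ m * ∑ A ∈ Sing N (m + 1), g A ^ 2) := by
    calc _ ≤ ∑ C ∈ Sing N m, (up g C ^ 2 / 2 + 2 ^ N / 2 * ∑ z ∈ Z C, g (adj C z) ^ 2) :=
          sum_le_sum fun C hC => pair_c hC g
      _ = _ := by
          rw [sum_add_distrib, sum_div, ← mul_sum,
            sum_up_one (N := N) (m := m) (fun A => g A ^ 2)]
  have h5 : ∑ L ∈ Sing N (m + 2), ∑ A ∈ hyp (m + 1) L, g A ^ 2
      = eN N (m + 1) / 2 ^ (m + 1) * ∑ A ∈ Sing N (m + 1), g A ^ 2 := by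
    have h6 : (2 : ℝ) ^ (m + 1) ≠ 0 := by positivity
    rw [div_mul_eq_mul_div, eq_div_iff h6, mul_comm, ← h2]
  have h7 : ∑ L ∈ Sing N (m + 2), ∑ A ∈ hyp (m + 1) L, ∑ A' ∈ (hyp (m + 1) L).erase A,
      g A * g A' = 1 / 4 ^ m * ∑ C ∈ Sing N m, ∑ z ∈ Z C, ∑ z' ∈ Z (adj C z),
        g (adj C z) * g (adj C z') := by
    have h6 : (4 : ℝ) ^ m ≠ 0 := by positivity
    rw [h3, ← mul_assoc, one_div, inv_mul_cancel₀ h6, one_mul]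
  rw [h1, h5, h7]
  gcongr

end Pool.Agent.MP_ec946a.QT
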