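import Mathlib
import Pool.Agent.Lib.MP_ec946a_qt.Defs
import Pool.Agent.Lib.MP_ec946a_qt.ERec
import Pool.Agent.Lib.MP_ec946a_qt.EAdj
import Pool.Agent.Lib.MP_ec946a_qt.Cards

/-!
# EMain

RECIPE.  Put `D j = 1/2 - 1/(2 (2^(j+1) - 1)) + 2^(j+1) / 2^N`.  Prove by induction on `j` (with
`j + 3 ≤ N`): for all `f` with sum zero over `Sing N (j+1)`, `∑ A ∈ Sing N j, up f A ^ 2 ≤
D j * eN N j * ((2^(j+1) - 1) * 2^j) * ∑ f²`.
`j = 0`: `Sing N 0 = {{0}}` and `∑ A ∈ Sing N 0, up f A = 0` by `sum_up_one`, so `up f {0} = 0` and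
the left side is `0`; `D 0 = 0 + 2 / 2^N ≥ 0`.
Step: by `e_rec` (`m = j`) and the induction hypothesis, for `g` with sum zero over `Sing N (j+1)`,
`∑ L, dn (j+1) g L ^ 2 ≤ κ ∑ g²` with `κ = e' / 2^(j+1) + 4^(-j) / 2 * (2^(j+1) - 1) * 2^j *
(D j * e + 2^N)`, `e = eN N j`, `e' = eN N (j+1)`; `e_adj` (`m = j + 1`) gives the constant
`4 ^ (j+1) κ`, and `4^(j+1) κ ≤ D (j+1) e' (2^(j+2) - 1) 2^(j+1)` since `e ≤ 2 e'` (`eN_half`, needs
`j + 3 ≤ N`), `2^N ≤ 2 e' 2^(j+1) / 2^N` (`eN_lower`), and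
`1 + (2^(j+2) - 2) (D j + 2^(j+1)/2^N) ≤ D (j+1) (2^(j+2) - 1)` (an identity up to a positive term).
Finally `D j ≤ 1/2` when `2^(j+1) / 2^N ≤ 1 / (2 (2^(j+1) - 1))`, which holds for `N = 3(j+1) + 10`.
-/

set_option autoImplicit false

namespace Pool.Agent.MP_ec946a.QT

open Finset

variable {N m : ℕ}

/-- the constant of the induction -/
private noncomputable def dC (y X : ℝ) : ℝ := 1 / 2 - 1 / (2 * (y - 1)) + y / X

private lemma dC_mul {y X : ℝ} (hy : 2 ≤ y) (hX : 0 < X) :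
    (y - 1) * dC y X = (y - 2) / 2 + y * (y - 1) / X := by
  have h1 : y - 1 ≠ 0 := by linarith
  unfold dC
  field_simp
  ring

private lemma dC_nonneg {y X : ℝ} (hy : 2 ≤ y) (hX : 0 < X) : 0 ≤ dC y X := by
  have h1 : 0 < y - 1 := by linarith
  have h2 := dC_mul hy hX
  have h3 : 0 ≤ (y - 2) / 2 + y * (y - 1) / X := by
    have h4 : 0 ≤ y * (y - 1) / X := by positivity
    linarith
  rw [← h2] at h3
  exact nonneg_of_mul_nonneg_right h3 h1

private lemma arith {y X e e' : ℝ} (hy : 2 ≤ y) (hX : 0 < X) (he : e ≤ 2 * e')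
    (he' : X ^ 2 / (2 * y) ≤ e') :
    y ^ 2 * (e' / y + 4 / y ^ 2 * (dC y X * e * ((y - 1) * (y / 2)) / 2
        + X / 2 * ((y - 1) * (y / 2))))
      ≤ dC (2 * y) X * e' * ((2 * y - 1) * y) := by
  have hy0 : 0 < y := by linarith
  have hy1 : 0 < y - 1 := by linarith
  have hyn : y ≠ 0 := hy0.ne'
  have h1 : y ^ 2 * (e' / y + 4 / y ^ 2 * (dC y X * e * ((y - 1) * (y / 2)) / 2
        + X / 2 * ((y - 1) * (y / 2)))) = y * (e' + (y - 1) * dC y X * e + (y - 1) * X) := by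
    field_simp
    ring
  have h2 : dC (2 * y) X * e' * ((2 * y - 1) * y)
      = y * (e' * ((2 * y - 2) / 2 + 2 * y * (2 * y - 1) / X)) := by
    rw [← dC_mul (by linarith) hX]
    ring
  rw [h1, h2]
  refine mul_le_mul_of_nonneg_left ?_ hy0.le
  have h3 : (y - 1) * dC y X * e ≤ (y - 1) * dC y X * (2 * e') :=
    mul_le_mul_of_nonneg_left he (mul_nonneg hy1.le (dC_nonneg hy hX))
  have h4 : X ≤ 2 * y * e' / X := by
    rw [le_div_iff₀ hX, ← sq]
    rw [div_le_iff₀ (by positivity)] at he'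
    linarith
  have h5 : (y - 1) * X ≤ (y - 1) * (2 * y * e' / X) := mul_le_mul_of_nonneg_left h4 hy1.le
  have he0 : 0 ≤ e' := le_trans (by positivity) he'
  have h6 : 0 ≤ 2 * y * e' / X := by positivity
  rw [dC_mul hy hX] at h3
  calc e' + (y - 1) * dC y X * e + (y - 1) * X
      ≤ e' + ((y - 2) / 2 + y * (y - 1) / X) * (2 * e') + (y - 1) * (2 * y * e' / X) := by
        rw [dC_mul hy hX]
        linarith
    _ ≤ e' + ((y - 2) / 2 + y * (y - 1) / X) * (2 * e') + (y - 1) * (2 * y * e' / X)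
        + 2 * y * e' / X := by linarith
    _ = _ := by
        field_simp
        ring

private lemma base (f : Finset (Pt N) → ℝ) (hf : ∑ L ∈ Sing N (0 + 1), f L = 0) :
    ∑ A ∈ Sing N 0, up f A ^ 2 = 0 := by
  refine sum_eq_zero fun A hA => ?_
  have huniq : ∀ B ∈ Sing N 0, B = A := by
    intro B hB
    have hA1 := card_eq hA
    have hB1 := card_eq hB
    rw [pow_zero, card_eq_one] at hA1 hB1
    obtain ⟨a, rfl⟩ := hA1
    obtain ⟨b, rfl⟩ := hB1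
    have h1 := mem_singleton.1 (zero_mem hA)
    have h2 := mem_singleton.1 (zero_mem hB)
    rw [← h1, ← h2]
  have h1 := sum_up_one (N := N) (m := 0) f
  rw [hf, mul_zero] at h1
  have h2 : ∑ B ∈ Sing N 0, ∑ z ∈ Z B, f (adj B z) = up f A := by
    rw [sum_eq_single_of_mem A hA]
    · rfl
    · intro B hB hne
      exact absurd (huniq B hB) hne
  rw [← h2, h1]
  ring

private lemma main_ind (j : ℕ) : j + 3 ≤ N → ∀ f : Finset (Pt N) → ℝ,
    ∑ L ∈ Sing N (j + 1), f L = 0 →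
    ∑ A ∈ Sing N j, up f A ^ 2
      ≤ dC (2 ^ (j + 1)) (2 ^ N) * eN N j * ((2 ^ (j + 1) - 1) * 2 ^ j)
        * ∑ L ∈ Sing N (j + 1), f L ^ 2 := by
  have hX : (0 : ℝ) < 2 ^ N := by positivity
  have hy2 : ∀ i : ℕ, (2 : ℝ) ≤ 2 ^ (i + 1) := by
    intro i
    rw [pow_succ]
    have : (1 : ℝ) ≤ 2 ^ i := one_le_pow₀ (by norm_num)
    linarith
  induction j with
  | zero =>
    intro hN f hf
    rw [base f hf]
    have h1 := dC_nonneg (hy2 0) hX
    have h2 := (eN_pos (N := N) (m := 0) (by omega)).le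
    have h3 : 0 ≤ ∑ L ∈ Sing N (0 + 1), f L ^ 2 := sum_nonneg fun A _ => sq_nonneg _
    have h4 : (0 : ℝ) ≤ (2 ^ (0 + 1) - 1) * 2 ^ 0 := by norm_num
    positivity
  | succ j ih =>
    intro hN f hf
    have ih' := ih (by omega)
    have hy := hy2 j
    have hD := dC_nonneg hy hX
    have he0 := (eN_pos (N := N) (m := j) (by omega)).le
    have he1 := (eN_pos (N := N) (m := j + 1) (by omega)).le
    have hhalf := eN_half (N := N) (m := j) (by omega)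
    have hlow := eN_lower (N := N) (m := j + 1) (by omega)
    set κ : ℝ := eN N (j + 1) / 2 ^ (j + 1)
      + 1 / 4 ^ j * (dC (2 ^ (j + 1)) (2 ^ N) * eN N j * ((2 ^ (j + 1) - 1) * 2 ^ j) / 2
        + 2 ^ N / 2 * ((2 ^ (j + 1) - 1) * 2 ^ j)) with hκ
    have hy1 : (0 : ℝ) ≤ 2 ^ (j + 1) - 1 := by linarith
    have hκ0 : 0 ≤ κ := by
      rw [hκ]
      positivity
    have hstep : ∀ g : Finset (Pt N) → ℝ, ∑ A ∈ Sing N (j + 1), g A = 0 →
        ∑ L ∈ Sing N (j + 1 + 1), dn (j + 1) g L ^ 2 ≤ κ * ∑ A ∈ Sing N (j + 1), g A ^ 2 := by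
      intro g hg
      have h1 := e_rec (N := N) (m := j) g
      have h2 := ih' g hg
      refine h1.trans ?_
      have h3 : (0 : ℝ) < 1 / 4 ^ j := by positivity
      have h4 : 1 / 4 ^ j * ((∑ C ∈ Sing N j, up g C ^ 2) / 2
            + 2 ^ N / 2 * ((2 ^ (j + 1) - 1) * 2 ^ j * ∑ A ∈ Sing N (j + 1), g A ^ 2))
          ≤ 1 / 4 ^ j * ((dC (2 ^ (j + 1)) (2 ^ N) * eN N j * ((2 ^ (j + 1) - 1) * 2 ^ j)
            * ∑ L ∈ Sing N (j + 1), g L ^ 2) / 2
            + 2 ^ N / 2 * ((2 ^ (j + 1) - 1) * 2 ^ j * ∑ A ∈ Sing N (j + 1), g A ^ 2)) := by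
        refine mul_le_mul_of_nonneg_left ?_ h3.le
        linarith
      calc _ ≤ eN N (j + 1) / 2 ^ (j + 1) * ∑ A ∈ Sing N (j + 1), g A ^ 2
          + 1 / 4 ^ j * ((dC (2 ^ (j + 1)) (2 ^ N) * eN N j * ((2 ^ (j + 1) - 1) * 2 ^ j)
            * ∑ L ∈ Sing N (j + 1), g L ^ 2) / 2
            + 2 ^ N / 2 * ((2 ^ (j + 1) - 1) * 2 ^ j * ∑ A ∈ Sing N (j + 1), g A ^ 2)) := by
              linarith
        _ = _ := by
              rw [hκ]
              ring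
    have h5 := e_adj hκ0 hstep f hf
    refine h5.trans ?_
    refine mul_le_mul_of_nonneg_right ?_ (sum_nonneg fun A _ => sq_nonneg _)
    have h6 := arith (y := 2 ^ (j + 1)) (X := 2 ^ N) (e := eN N j) (e' := eN N (j + 1)) hy hX
      hhalf (by
        refine le_trans (le_of_eq ?_) hlow
        rw [← pow_mul, mul_comm N 2, pow_succ 2 (j + 1), mul_comm (2 : ℝ) (2 ^ (j + 1))])
    have e1 : (4 : ℝ) ^ (j + 1) = (2 ^ (j + 1)) ^ 2 := by
      rw [← pow_mul, mul_comm (j + 1) 2, pow_mul]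
      norm_num
    have e2 : (2 : ℝ) ^ j = 2 ^ (j + 1) / 2 := by
      rw [pow_succ]
      ring
    have e3 : (1 : ℝ) / 4 ^ j = 4 / (2 ^ (j + 1)) ^ 2 := by
      rw [← e1, pow_succ]
      have : (4 : ℝ) ^ j ≠ 0 := by positivity
      field_simp
    have e4 : (2 : ℝ) ^ (j + 1 + 1) = 2 * 2 ^ (j + 1) := by
      rw [pow_succ]
      ring
    rw [e1, hκ, e3, e4, e2]
    exact h6

theorem expand (hN : N = 3 * (m + 1) + 10) (f : Finset (Pt N) → ℝ)
    (hf : ∑ L ∈ Sing N (m + 1), f L = 0) :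
    ∑ A ∈ Sing N m, up f A ^ 2
      ≤ 1 / 2 * eN N m * ((2 ^ (m + 1) - 1) * 2 ^ m) * ∑ L ∈ Sing N (m + 1), f L ^ 2 := by
  have h1 := main_ind (N := N) m (by omega) f hf
  refine h1.trans ?_
  have hF : 0 ≤ ∑ L ∈ Sing N (m + 1), f L ^ 2 := sum_nonneg fun A _ => sq_nonneg _
  have he := (eN_pos (N := N) (m := m) (by omega)).le
  have h2m : (1 : ℝ) ≤ 2 ^ m := one_le_pow₀ (by norm_num)
  have hy : (2 : ℝ) ≤ 2 ^ (m + 1) := by
    rw [pow_succ]
    linarith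
  have hD : dC (2 ^ (m + 1)) (2 ^ N) ≤ 1 / 2 := by
    have e1 : (2 : ℝ) ^ N = 2 ^ 10 * (2 ^ (m + 1)) ^ 3 := by
      rw [hN, pow_add, ← pow_mul, mul_comm (m + 1) 3]
      ring
    rw [e1]
    generalize (2 : ℝ) ^ (m + 1) = y at hy
    unfold dC
    have h3 : 0 < y - 1 := by linarith
    have h4 : 0 < y := by linarith
    have h5 : y / (2 ^ 10 * y ^ 3) ≤ 1 / (2 * (y - 1)) := by
      rw [div_le_div_iff₀ (by positivity) (by positivity)]
      nlinarith [mul_pos h4 h4, pow_pos h4 3, mul_pos (mul_pos h4 h4) h3]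
    linarith
  have h7 : (0 : ℝ) ≤ (2 ^ (m + 1) - 1) * 2 ^ m := by
    have : (0 : ℝ) ≤ 2 ^ (m + 1) - 1 := by linarith
    positivity
  gcongr

end Pool.Agent.MP_ec946a.QT
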