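import Mathlib
import Pool.Agent.Lib.MP_ec946a_qt.Defs
import Pool.Agent.Lib.MP_ec946a_qt.LabCard

/-!
# Numbering of the labels, and the projections of the game
-/

set_option autoImplicit false

namespace Pool.Agent.MP_ec946a.QT

open Finset

variable {N m : ℕ}

/-- restriction of a label -/
def res (A : Finset (Pt N)) (g : Pt N → ZMod 2) : Pt N → ZMod 2 := fun x => if x ∈ A then g x else 0

lemma res_mem {A L : Finset (Pt N)} (hA : A ∈ Sing N m) (h : A ⊆ L) {g : Pt N → ZMod 2}
    (hg : g ∈ lab L) : res A g ∈ lab A := by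
  refine mem_lab.2 ⟨fun x hx y hy => ?_, fun x hx => if_neg hx⟩
  have h1 := (mem_lab.1 hg).1 x (h hx) y (h hy)
  unfold res
  rw [if_pos hx, if_pos hy, if_pos (add_mem hA hx hy), h1]

/-- the vertices of `U` and the vertices of `V` (for `m + 1` and `m`) -/
abbrev Sb (N m : ℕ) : Type := {A : Finset (Pt N) // A ∈ Sing N m}

/-- the numbering of the labels of `L` -/
noncomputable def eU (L : Sb N m) : {g // g ∈ lab L.1} ≃ Fin (2 ^ m) :=
  Finset.equivFinOfCardEq (card_lab L.2)

/-- the numbering of the labels of `A`, with room for twice as many -/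
noncomputable def iV (A : Sb N m) : {g // g ∈ lab A.1} ↪ Fin (2 ^ (m + 1)) :=
  (eU A).toEmbedding.trans (Fin.castLEEmb (Nat.pow_le_pow_right (by norm_num) (Nat.le_succ m)))

/-- the end in `U` of the edge `(A, z)` -/
noncomputable def sr (A : Sb N m) (z : {z // z ∈ Z A.1}) : Sb N (m + 1) :=
  ⟨adj A.1 z.1, adj_mem_Sing A.2 z.2⟩

/-- the projection of the edge `(A, z)` -/
noncomputable def pj (A : Sb N m) (z : {z // z ∈ Z A.1}) (a : Fin (2 ^ (m + 1))) :
    Fin (2 ^ (m + 1)) :=
  iV A ⟨res A.1 ((eU (sr A z)).symm a).1,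
    res_mem A.2 subset_adj ((eU (sr A z)).symm a).2⟩

end Pool.Agent.MP_ec946a.QT
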