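import Mathlib
import Pool.Agent.Lib.MP_ec946a_qt.Defs
import Pool.Agent.Lib.MP_ec946a_qt.GLab
import Pool.Agent.Lib.MP_ec946a_qt.LabCard

/-!
# GFib

The fibres of the projections of the Pauli game have 0 or 2 elements.
-/

set_option autoImplicit false

namespace Pool.Agent.MP_ec946a.QT

open Finset

variable {N m : ℕ}

theorem pj_card (A : Sb N m) (z : {z // z ∈ Z A.1}) (b : Fin (2 ^ (m + 1))) :
    Nat.card {a // pj A z a = b} = 0 ∨ Nat.card {a // pj A z a = b} = 2 := by
  classical
  by_cases hb : ∃ g, iV A g = b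
  · right
    obtain ⟨g, rfl⟩ := hb
    have hM : adj A.1 z.1 ∈ Sing N (m + 1) := adj_mem_Sing A.2 z.2
    have hc := card_fits hM (mem_hyp_adj A.2) (mem_lab.1 g.2).1
    refine Eq.trans ?_ hc
    rw [← Nat.card_eq_finsetCard]
    refine Nat.card_congr ?_
    refine ((eU (sr A z)).symm.subtypeEquiv (q := fun h => ∀ x ∈ A.1, g.1 x = h.1 x) ?_).trans ?_
    · intro a
      unfold pj
      rw [(iV A).apply_eq_iff_eq, Subtype.ext_iff]
      constructor
      · intro h x hx
        rw [← h]
        simp [res, hx]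
      · intro h
        funext x
        by_cases hx : x ∈ A.1
        · simp [res, hx, h x hx]
        · simp [res, hx, (mem_lab.1 g.2).2 x hx]
    · exact
        { toFun := fun a => ⟨a.1.1, mem_filter.2 ⟨a.1.2, a.2⟩⟩
          invFun := fun a => ⟨⟨a.1, (mem_filter.1 a.2).1⟩, (mem_filter.1 a.2).2⟩
          left_inv := fun a => rfl
          right_inv := fun a => rfl }
  · left
    have : IsEmpty {a // pj A z a = b} := ⟨fun a => hb ⟨_, a.2⟩⟩
    exact Nat.card_of_isEmpty

end Pool.Agent.MP_ec946a.QT
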