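import Mathlib
import Pool.Agent.Lib.MP_ec946a_Games.Defs
import Pool.Agent.Lib.MP_ec946a_qt.Defs
import Pool.Agent.Lib.MP_ec946a_qt.GLab
import Pool.Agent.Lib.MP_ec946a_qt.GFib
import Pool.Agent.Lib.MP_ec946a_qt.Cnt
import Pool.Agent.Lib.MP_ec946a_qt.Cards

/-!
# The Pauli game
-/

set_option autoImplicit false

namespace Pool.Agent.MP_ec946a.QT

open Finset

variable {N m : ℕ}

lemma edge_nonempty (h : m + 1 ≤ N) : Nonempty (Σ A : Sb N m, {z // z ∈ Z A.1}) := by
  obtain ⟨A, hA⟩ := card_pos.1 (sing_card_pos (N := N) (m := m) (by omega))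
  have h1 : 0 < ((Z A).card : ℝ) := by
    rw [card_Z hA]
    exact eN_pos h
  obtain ⟨z, hz⟩ := card_pos.1 (by exact_mod_cast h1 : 0 < (Z A).card)
  exact ⟨⟨⟨A, hA⟩, ⟨z, hz⟩⟩⟩

/-- The Pauli game: the questions are the totally singular subspaces with `2 ^ (m + 1)` elements
against those with `2 ^ m` elements, the labels are the quadratic functions. -/
noncomputable def PG (N m : ℕ) (h : m + 1 ≤ N) : Game (2 ^ (m + 1)) :=
  haveI := edge_nonempty h
  { U := Sb N (m + 1)
    V := Sb N m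
    E := Σ A : Sb N m, {z // z ∈ Z A.1}
    src := fun e => sr e.1 e.2
    tgt := fun e => e.1
    proj := fun e => pj e.1 e.2
    two_to_one := fun e b => by
      rcases pj_card e.1 e.2 b with h | h <;> rw [h] <;> norm_num }

end Pool.Agent.MP_ec946a.QT
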