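import Mathlib
import Pool.Agent.Lib.MP_ec946a_qt.Defs
import Pool.Agent.Lib.MP_ec946a_qt.PGame
import Pool.Agent.Lib.MP_ec946a_qt.EMain
import Pool.Agent.Lib.MP_ec946a_qt.UpDn
import Pool.Agent.Lib.MP_ec946a_qt.Cnt
import Pool.Agent.Lib.MP_ec946a_sda.Round

/-!
# Expansion of the Pauli game

All but one of the singular values of the graph are at most `1 / √2`.
-/

set_option autoImplicit false

namespace Pool.Agent.MP_ec946a.QT

open Finset

variable {N m : ℕ}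

/-- a sum over the edges as a sum over pairs -/
private lemma sum_edges (h : m + 1 ≤ N) (H : Sb N (m + 1) → Sb N m → ℝ)
    (H' : Finset (Pt N) → Finset (Pt N) → ℝ) (hH : ∀ u v, H u v = H' u.1 v.1) :
    ∑ e, H ((PG N m h).src e) ((PG N m h).tgt e)
      = ∑ A ∈ Sing N m, ∑ z ∈ Z A, H' (adj A z) A := by
  have h1 : ∑ e, H ((PG N m h).src e) ((PG N m h).tgt e)
      = ∑ e : (Σ A : Sb N m, {z // z ∈ Z A.1}), H (sr e.1 e.2) e.1 := rfl
  rw [h1, Fintype.sum_sigma, ← Finset.sum_coe_sort (Sing N m)]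
  refine sum_congr rfl fun A _ => ?_
  rw [← Finset.sum_coe_sort (Z A.1)]
  refine sum_congr rfl fun z _ => ?_
  rw [hH]
  rfl

private lemma numeric {X Y T K e S : ℝ} (hX : 0 ≤ X) (hY : 0 ≤ Y) (hK : 0 ≤ K) (he : 0 ≤ e)
    (h : T ≤ 1 / 2 * e * K * X) (hS : S ^ 2 ≤ Y * T) : S ≤ 1 / √2 * (√(K * X) * √(e * Y)) := by
  have hr : √2 ^ 2 = (2 : ℝ) := Real.sq_sqrt (by norm_num)
  have h1 : (1 / √2 * (√(K * X) * √(e * Y))) ^ 2 = Y * (1 / 2 * e * K * X) := by
    rw [mul_pow, mul_pow, div_pow, hr, Real.sq_sqrt (mul_nonneg hK hX),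
      Real.sq_sqrt (mul_nonneg he hY)]
    ring
  have h2 : S ^ 2 ≤ (1 / √2 * (√(K * X) * √(e * Y))) ^ 2 := by
    rw [h1]
    exact hS.trans (mul_le_mul_of_nonneg_left h hY)
  exact (le_abs_self _).trans (abs_le_of_sq_le_sq h2 (by positivity))

theorem PG_expands (hN : N = 3 * (m + 1) + 10) (h : m + 1 ≤ N) :
    (PG N m h).Expands 1 (1 / √2) := by
  classical
  refine ⟨fun _ _ => 1, fun (f : Sb N (m + 1) → ℝ) (g : Sb N m → ℝ) hf => ?_⟩
  set f' : Finset (Pt N) → ℝ := fun L => if hL : L ∈ Sing N (m + 1) then f ⟨L, hL⟩ else 0 with hf'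
  set g' : Finset (Pt N) → ℝ := fun A => if hA : A ∈ Sing N m then g ⟨A, hA⟩ else 0 with hg'
  have ef : ∀ u : Sb N (m + 1), f u = f' u.1 := fun u => by
    rw [hf']
    simp only [u.2, dif_pos]
  have eg : ∀ v : Sb N m, g v = g' v.1 := fun v => by
    rw [hg']
    simp only [v.2, dif_pos]
  -- the four sums
  have s1 : ∑ e, f ((PG N m h).src e) * g ((PG N m h).tgt e)
      = ∑ A ∈ Sing N m, g' A * up f' A := by
    rw [sum_edges h (fun u v => f u * g v) (fun L A => f' L * g' A)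
      (fun u v => by rw [ef, eg])]
    refine sum_congr rfl fun A _ => ?_
    unfold up
    rw [mul_sum]
    exact sum_congr rfl fun z _ => mul_comm _ _
  have s2 : ∑ e, f ((PG N m h).src e) ^ 2
      = (2 ^ (m + 1) - 1) * 2 ^ m * ∑ L ∈ Sing N (m + 1), f' L ^ 2 := by
    rw [sum_edges h (fun u _ => f u ^ 2) (fun L _ => f' L ^ 2) (fun u v => by rw [ef])]
    exact sum_up_one fun L => f' L ^ 2
  have s3 : ∑ e, g ((PG N m h).tgt e) ^ 2 = eN N m * ∑ A ∈ Sing N m, g' A ^ 2 := by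
    rw [sum_edges h (fun _ v => g v ^ 2) (fun _ A => g' A ^ 2) (fun u v => by rw [eg]), mul_sum]
    refine sum_congr rfl fun A hA => ?_
    rw [sum_const, nsmul_eq_mul, card_Z hA]
  have hK : (0 : ℝ) < (2 ^ (m + 1) - 1) * 2 ^ m := by
    have h1 : (1 : ℝ) < 2 ^ (m + 1) := one_lt_pow₀ (by norm_num) (by omega)
    have h2 : (0 : ℝ) < 2 ^ m := by positivity
    exact mul_pos (by linarith) h2
  have s4 : ∑ L ∈ Sing N (m + 1), f' L = 0 := by
    have h1 := hf 0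
    simp only [mul_one] at h1
    have h2 : ∑ e, f ((PG N m h).src e)
        = (2 ^ (m + 1) - 1) * 2 ^ m * ∑ L ∈ Sing N (m + 1), f' L := by
      rw [sum_edges h (fun u _ => f u) (fun L _ => f' L) (fun u v => by rw [ef])]
      exact sum_up_one fun L => f' L
    rw [h2] at h1
    exact (mul_eq_zero.1 h1).resolve_left hK.ne'
  have s5 := expand hN f' s4
  have he : 0 ≤ eN N m := (eN_pos h).le
  -- Cauchy-Schwarz
  have s6 := sum_mul_sq_le_sq_mul_sq (Sing N m) g' (up f')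
  have h0 : (0 : ℝ) ≤ ∑ L ∈ Sing N (m + 1), f' L ^ 2 := sum_nonneg fun _ _ => sq_nonneg _
  have h1 : (0 : ℝ) ≤ ∑ A ∈ Sing N m, g' A ^ 2 := sum_nonneg fun _ _ => sq_nonneg _
  have h2 := numeric h0 h1 hK.le he s5 s6
  rw [← s1, ← s2, ← s3] at h2
  exact h2

end Pool.Agent.MP_ec946a.QT
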