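import Mathlib
import Pool.Agent.Lib.MP_ec946a_qt.Defs
import Pool.Agent.Lib.MP_ec946a_qt.WMul
import Pool.Agent.Lib.MP_ec946a_qt.CharSum

/-!
# Proj

RECIPE.  `PL_symm`: `W_transpose` (`Q x = 0` on `L`).  `PL_mul`: for `x, y ∈ L`,
`sgn (q x) sgn (q' y) W x W y = sgn (q x) sgn (q' y) sgn (B x y) W (x + y)`; substitute
`y = x + t` (`t ∈ L`, `Finset.sum_bij` or `sum_nbij'`): `q' (x + t) = q' x + q' t + B x t`,
`B x (x + t) = Q x + B x t = B x t`, so the term is `sgn (q x + q' x) sgn (q' t) W t`, and the sum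
over `x ∈ L` is `sum_lab2`.  (Two labels in `lab L` agreeing on `L` are equal, being zero outside.)
`PL_sum`: exchange the sums, `sum_lab`, `W_zero`.
-/

set_option autoImplicit false

namespace Pool.Agent.MP_ec946a.QT

open Finset

variable {N m : ℕ}

theorem PL_symm {L : Finset (Pt N)} (hL : L ∈ Sing N m) (q : Pt N → ZMod 2) :
    (PL m L q).transpose = PL m L q := by
  unfold PL
  rw [Matrix.transpose_smul, Matrix.transpose_sum]
  congr 1
  refine sum_congr rfl fun x hx => ?_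
  rw [Matrix.transpose_smul, W_transpose (Q_eq hL hx)]

private lemma proj_shift {M : Type*} [AddCommMonoid M] {L : Finset (Pt N)} (hL : L ∈ Sing N m)
    {x : Pt N} (hx : x ∈ L) (f : Pt N → M) : ∑ y ∈ L, f y = ∑ t ∈ L, f (x + t) := by
  refine sum_nbij' (fun y => x + y) (fun t => x + t) ?_ ?_ ?_ ?_ ?_
  · intro y hy
    exact add_mem hL hx hy
  · intro y hy
    exact add_mem hL hx hy
  · intro y _
    exact add_add_cancel_pt' y x
  · intro y _
    exact add_add_cancel_pt' y x
  · intro y _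
    show f y = f (x + (x + y))
    rw [add_add_cancel_pt']

private lemma proj_term {L : Finset (Pt N)} (hL : L ∈ Sing N m) {q q' : Pt N → ZMod 2}
    (hq' : Quad L q') {x t : Pt N} (hx : x ∈ L) (ht : t ∈ L) :
    (sgn (q x) • W x) * (sgn (q' (x + t)) • W (x + t))
      = sgn (q x + q' x) • (sgn (q' t) • W t) := by
  rw [Matrix.smul_mul, Matrix.mul_smul, W_mul, add_add_cancel_pt', smul_smul, smul_smul, smul_smul,
    hq' x hx t ht, B_add_right, show B x x = 0 from Q_eq hL hx, zero_add, sgn_add, sgn_add, sgn_add]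
  congr 1
  have h := sgn_mul_self (B x t)
  calc sgn (q x) * (sgn (q' x) * sgn (q' t) * sgn (B x t)) * sgn (B x t)
      = sgn (q x) * (sgn (q' x) * sgn (q' t)) * (sgn (B x t) * sgn (B x t)) := by ring
    _ = sgn (q x) * sgn (q' x) * sgn (q' t) := by rw [h]; ring

theorem PL_mul {L : Finset (Pt N)} (hL : L ∈ Sing N m) {q q' : Pt N → ZMod 2}
    (hq : q ∈ lab L) (hq' : q' ∈ lab L) :
    PL m L q * PL m L q' = if q = q' then PL m L q else 0 := by
  have h1 := (mem_lab.1 hq).1
  have h2 := (mem_lab.1 hq').1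
  have key : (∑ x ∈ L, sgn (q x) • W x) * (∑ y ∈ L, sgn (q' y) • W y)
      = (if (∀ x ∈ L, q x = q' x) then (2 : ℝ) ^ m else 0) • ∑ t ∈ L, sgn (q' t) • W t := by
    rw [sum_mul]
    have h3 : ∀ x ∈ L, (sgn (q x) • W x) * (∑ y ∈ L, sgn (q' y) • W y)
        = ∑ t ∈ L, sgn (q x + q' x) • (sgn (q' t) • W t) := by
      intro x hx
      rw [mul_sum, proj_shift hL hx]
      exact sum_congr rfl fun t ht => proj_term hL h2 hx ht
    rw [sum_congr rfl h3, sum_comm, smul_sum]
    refine sum_congr rfl fun t _ => ?_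
    rw [← sum_smul, sum_lab2 hL h1 h2]
  have hiff : (∀ x ∈ L, q x = q' x) ↔ q = q' := by
    constructor
    · intro h
      funext x
      by_cases hx : x ∈ L
      · exact h x hx
      · rw [(mem_lab.1 hq).2 x hx, (mem_lab.1 hq').2 x hx]
    · rintro rfl x _
      rfl
  unfold PL
  rw [Matrix.smul_mul, Matrix.mul_smul, key]
  by_cases h : q = q'
  · rw [if_pos (hiff.2 h), if_pos h, smul_smul, smul_smul, ← h]
    congr 1
    have : (2 : ℝ) ^ m ≠ 0 := by positivity
    field_simp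
  · rw [if_neg (fun h' => h (hiff.1 h')), if_neg h, zero_smul, smul_zero, smul_zero]

theorem PL_sum {L : Finset (Pt N)} (hL : L ∈ Sing N m) : ∑ q ∈ lab L, PL m L q = 1 := by
  unfold PL
  rw [← smul_sum, sum_comm]
  have h3 : ∀ x ∈ L, ∑ q ∈ lab L, sgn (q x) • W x
      = (if x = 0 then (2 : ℝ) ^ m else 0) • W x := by
    intro x hx
    rw [← sum_smul, sum_lab hL hx]
  rw [sum_congr rfl h3]
  have h4 : ∑ x ∈ L, (if x = 0 then (2 : ℝ) ^ m else 0) • W x = (2 : ℝ) ^ m • W (0 : Pt N) := by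
    rw [sum_eq_single (0 : Pt N)]
    · simp
    · intro b _ hb
      rw [if_neg hb, zero_smul]
    · intro h
      exact absurd (zero_mem hL) h
  rw [h4, W_zero, smul_smul]
  have : (1 / 2 ^ m : ℝ) * 2 ^ m = 1 := by
    have : (2 : ℝ) ^ m ≠ 0 := by positivity
    field_simp
  rw [this, one_smul]

end Pool.Agent.MP_ec946a.QT
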