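import Mathlib
import Pool.Agent.Lib.MP_ec946a_Games.Defs

/-!
# Quantum strategies for 2-to-1 games
-/

set_option autoImplicit false

namespace Pool.Agent.MP_ec946a

/-- A quantum strategy of dimension `d` for the game `G`.  The two players share the maximally
entangled state of `ℂ^d ⊗ ℂ^d`; asked the vertex `u` of `U`, the first player measures with the
pairwise orthogonal projections `P u a` (with sum `1`); asked the vertex `v` of `V`, the second
player measures with the transposes of the projections `R v b`.  So they answer `a` and `b` with
probability `trace (P u a * R v b) / d`. -/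
structure Game.QuantumStrategy {q : ℕ} (G : Game q) (d : ℕ) where
  P : G.U → Fin q → Matrix (Fin d) (Fin d) ℂ
  R : G.V → Fin q → Matrix (Fin d) (Fin d) ℂ
  P_herm : ∀ u a, (P u a).IsHermitian
  R_herm : ∀ v b, (R v b).IsHermitian
  P_mul : ∀ u a a', P u a * P u a' = if a = a' then P u a else 0
  R_mul : ∀ v b b', R v b * R v b' = if b = b' then R v b else 0
  P_sum : ∀ u, ∑ a, P u a = 1
  R_sum : ∀ v, ∑ b, R v b = 1

/-- The probability with which the strategy satisfies a uniformly random edge. -/
noncomputable def Game.QuantumStrategy.win {q : ℕ} {G : Game q} {d : ℕ}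
    (s : G.QuantumStrategy d) : ℝ :=
  (∑ e, ∑ a, (s.P (G.src e) a * s.R (G.tgt e) (G.proj e a)).trace.re / d) / Nat.card G.E

end Pool.Agent.MP_ec946a
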