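import Mathlib
import Pool.Agent.Lib.MP_ec946a_qt.Defs
import Pool.Agent.Lib.MP_ec946a_qt.WMul
import Pool.Agent.Lib.MP_ec946a_qt.CharSum

/-!
# Rest

RECIPE.  With `L = adj A z`: the product is `c * ∑ x ∈ L, ∑ y ∈ A, sgn (q x) sgn (r y) sgn (B x y)
W (x + y)`; substitute `x = t + y` (`t ∈ L`): `q (t + y) = q t + q y + B t y`,
`B (t + y) y = B t y + Q y = B t y`, so the term is `sgn (q t) sgn (q y + r y) W t`
(`sgn_mul_self`), and the sum over `y ∈ A` is zero by `sum_lab2` for `A` (`q` is quadratic on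
`A ⊆ L`).
-/

set_option autoImplicit false

namespace Pool.Agent.MP_ec946a.QT

open Finset

variable {N m : ℕ}

theorem PL_mul_rest {A : Finset (Pt N)} (hA : A ∈ Sing N m) {z : Pt N} (hz : z ∈ Z A)
    {q r : Pt N → ZMod 2} (hq : q ∈ lab (adj A z)) (hr : r ∈ lab A) (h : ∃ x ∈ A, q x ≠ r x) :
    PL (m + 1) (adj A z) q * PL m A r = 0 := by
  have hL := adj_mem_Sing hA hz
  set L := adj A z with hLdef
  have hAL : A ⊆ L := subset_adj
  have hqA : Quad A q := fun x hx y hy => (mem_lab.1 hq).1 x (hAL hx) y (hAL hy)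
  have hzero : ∑ y ∈ A, sgn (q y + r y) = 0 := by
    rw [sum_lab2 hA hqA (mem_lab.1 hr).1, if_neg]
    push Not
    exact h
  unfold PL
  rw [Matrix.smul_mul, Matrix.mul_smul, Matrix.sum_mul]
  have h1 : ∑ x ∈ L, (sgn (q x) • W x) * ∑ y ∈ A, sgn (r y) • W y
      = ∑ y ∈ A, ∑ x ∈ L, (sgn (q x) * sgn (r y) * sgn (B x y)) • W (x + y) := by
    rw [sum_comm]
    refine sum_congr rfl fun x _ => ?_
    rw [Matrix.mul_sum]
    refine sum_congr rfl fun y _ => ?_
    rw [Matrix.smul_mul, Matrix.mul_smul, W_mul, smul_smul, smul_smul, mul_assoc]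
  have h2 : ∀ y ∈ A, ∑ x ∈ L, (sgn (q x) * sgn (r y) * sgn (B x y)) • W (x + y)
      = ∑ t ∈ L, (sgn (q y + r y)) • (sgn (q t) • W t) := by
    intro y hy
    refine sum_bij' (fun x _ => x + y) (fun t _ => t + y) ?_ ?_ ?_ ?_ ?_
    · intro x hx
      exact add_mem hL hx (hAL hy)
    · intro x hx
      exact add_mem hL hx (hAL hy)
    · intro x _
      exact add_add_cancel_pt x y
    · intro x _
      exact add_add_cancel_pt x y
    · intro x hx
      have h3 := (mem_lab.1 hq).1 x hx y (hAL hy)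
      rw [h3, smul_smul, sgn_add, sgn_add, sgn_add]
      congr 1
      have h4 := sgn_mul_self (q y)
      calc sgn (q x) * sgn (r y) * sgn (B x y)
          = (sgn (q y) * sgn (q y)) * (sgn (q x) * sgn (r y) * sgn (B x y)) := by rw [h4]; ring
        _ = _ := by ring
  rw [h1, sum_congr rfl h2, sum_comm]
  have h5 : ∀ t ∈ L, ∑ y ∈ A, sgn (q y + r y) • (sgn (q t) • W t) = (0 : Matrix (Vec N) (Vec N) ℝ) := by
    intro t _
    rw [← sum_smul, hzero, zero_smul]
  rw [sum_congr rfl h5, sum_const_zero, smul_zero, smul_zero]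

end Pool.Agent.MP_ec946a.QT
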