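import Mathlib
import Pool.Agent.Lib.MP_ec946a_qt.Defs
import Pool.Agent.Lib.MP_ec946a_qt.PGame
import Pool.Agent.Lib.MP_ec946a_qt.Proj
import Pool.Agent.Lib.MP_ec946a_qt.Rest
import Pool.Agent.Lib.MP_ec946a_qt.QDefs

/-!
# GQ

RECIPE.  Let `ε : Vec N ≃ Fin (2 ^ N)` (`Fintype.equivFinOfCardEq`) and, for a real matrix `M` over
`Vec N`, `C M := (M.map (algebraMap ℝ ℂ)).submatrix ε.symm ε.symm` (or `Matrix.reindex`); `C` is
additive and multiplicative, `C 1 = 1`, `trace (C M) = trace M`, and `C M` is Hermitian if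
`M.transpose = M`.  `P u a := C (PL (m+1) u.1 ((eU u).symm a).1)`,
`R v b := if h : ∃ g, iV v g = b then C (PL m v.1 (h.choose).1) else 0`.  `P_mul`, `P_sum`:
`PL_mul`, `PL_sum` through the bijection `eU`; `R`: through the injection `iV` (the `b` outside the
range contribute `0`; `h.choose = g` by injectivity).  Winning: if `b ≠ pj A z a` then
`P a * R b = 0` (`PL_mul_rest`; a label `r` of `A` with `iV A r ≠ pj A z a` differs from the
restriction of `q` somewhere on `A`), so `P a = P a * ∑ b, R b = P a * R (pj A z a)`; hence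
`∑ a, trace (P a * R (proj a)) = trace 1 = 2 ^ N = d` for every edge.
-/

set_option autoImplicit false

namespace Pool.Agent.MP_ec946a.QT

open Finset

variable {N m : ℕ}

private noncomputable def eps (N : ℕ) : Vec N ≃ Fin (2 ^ N) :=
  Fintype.equivFinOfCardEq (by simp [ZMod.card])

private noncomputable def CC (N : ℕ) :
    Matrix (Vec N) (Vec N) ℝ →+* Matrix (Fin (2 ^ N)) (Fin (2 ^ N)) ℂ :=
  ((Matrix.reindexRingEquiv ℂ (eps N)).toRingHom).comp (Complex.ofRealHom.mapMatrix)

private lemma CC_apply (M : Matrix (Vec N) (Vec N) ℝ) (i j : Fin (2 ^ N)) :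
    CC N M i j = ((M ((eps N).symm i) ((eps N).symm j) : ℝ) : ℂ) := rfl

private lemma CC_herm {M : Matrix (Vec N) (Vec N) ℝ} (hM : M.transpose = M) :
    (CC N M).IsHermitian := by
  ext i j
  rw [Matrix.conjTranspose_apply, CC_apply, CC_apply]
  have h := congrFun (congrFun hM ((eps N).symm i)) ((eps N).symm j)
  rw [Matrix.transpose_apply] at h
  rw [h]
  exact Complex.conj_ofReal _

/-- the first player -/
private noncomputable def PP (u : Sb N (m + 1)) (a : Fin (2 ^ (m + 1))) :
    Matrix (Fin (2 ^ N)) (Fin (2 ^ N)) ℂ := CC N (PL (m + 1) u.1 ((eU u).symm a).1)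

open Classical in
/-- the second player -/
private noncomputable def RR (v : Sb N m) (b : Fin (2 ^ (m + 1))) :
    Matrix (Fin (2 ^ N)) (Fin (2 ^ N)) ℂ :=
  if h : ∃ g, iV v g = b then CC N (PL m v.1 h.choose.1) else 0

private lemma RR_iV (v : Sb N m) (g : {g // g ∈ lab v.1}) : RR v (iV v g) = CC N (PL m v.1 g.1) := by
  have h : ∃ g', iV v g' = iV v g := ⟨g, rfl⟩
  have h1 : h.choose = g := (iV v).injective h.choose_spec
  unfold RR
  rw [dif_pos h, h1]

private lemma RR_not {v : Sb N m} {b : Fin (2 ^ (m + 1))} (h : ¬ ∃ g, iV v g = b) :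
    RR v b = 0 := by
  unfold RR
  rw [dif_neg h]

private lemma PP_herm (u : Sb N (m + 1)) (a : Fin (2 ^ (m + 1))) : (PP u a).IsHermitian :=
  CC_herm (PL_symm u.2 _)

private lemma RR_herm (v : Sb N m) (b : Fin (2 ^ (m + 1))) : (RR v b).IsHermitian := by
  by_cases h : ∃ g, iV v g = b
  · obtain ⟨g, rfl⟩ := h
    rw [RR_iV]
    exact CC_herm (PL_symm v.2 _)
  · rw [RR_not h]
    exact Matrix.isHermitian_zero

private lemma PP_mul (u : Sb N (m + 1)) (a a' : Fin (2 ^ (m + 1))) :
    PP u a * PP u a' = if a = a' then PP u a else 0 := by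
  unfold PP
  rw [← map_mul, PL_mul u.2 ((eU u).symm a).2 ((eU u).symm a').2]
  have h : ((eU u).symm a).1 = ((eU u).symm a').1 ↔ a = a' := by
    rw [← Subtype.ext_iff, (eU u).symm.injective.eq_iff]
  by_cases h1 : a = a'
  · rw [if_pos h1, if_pos (h.2 h1)]
  · rw [if_neg h1, if_neg (fun h2 => h1 (h.1 h2)), map_zero]

private lemma RR_mul (v : Sb N m) (b b' : Fin (2 ^ (m + 1))) :
    RR v b * RR v b' = if b = b' then RR v b else 0 := by
  by_cases h : ∃ g, iV v g = b
  · by_cases h' : ∃ g, iV v g = b'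
    · obtain ⟨g, rfl⟩ := h
      obtain ⟨g', rfl⟩ := h'
      rw [RR_iV, RR_iV, ← map_mul, PL_mul v.2 g.2 g'.2]
      have h : g.1 = g'.1 ↔ iV v g = iV v g' := by
        rw [← Subtype.ext_iff, (iV v).injective.eq_iff]
      by_cases h1 : iV v g = iV v g'
      · rw [if_pos h1, if_pos (h.2 h1)]
      · rw [if_neg h1, if_neg (fun h2 => h1 (h.1 h2)), map_zero]
    · rw [RR_not h', mul_zero]
      split_ifs with h1
      · subst h1
        exact absurd h h'
      · rfl
  · rw [RR_not h, zero_mul]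
    simp

private lemma PP_sum (u : Sb N (m + 1)) : ∑ a, PP u a = 1 := by
  unfold PP
  rw [← map_sum, Equiv.sum_comp (eU u).symm (fun q => PL (m + 1) u.1 q.1),
    sum_coe_sort (lab u.1) (fun q => PL (m + 1) u.1 q), PL_sum u.2, map_one]

private lemma RR_sum (v : Sb N m) : ∑ b, RR v b = 1 := by
  have h1 : ∑ g : {g // g ∈ lab v.1}, CC N (PL m v.1 g.1) = ∑ b, RR v b := by
    refine Fintype.sum_of_injective (iV v) (iV v).injective _ _ ?_ ?_
    · intro b hb
      exact RR_not (fun ⟨g, hg⟩ => hb ⟨g, hg⟩)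
    · intro g
      exact (RR_iV v g).symm
  rw [← h1, ← map_sum, sum_coe_sort (lab v.1) (fun q => PL m v.1 q), PL_sum v.2, map_one]

private lemma PP_RR (A : Sb N m) (z : {z // z ∈ Z A.1}) (a b : Fin (2 ^ (m + 1)))
    (hb : b ≠ pj A z a) : PP (sr A z) a * RR A b = 0 := by
  by_cases h : ∃ g, iV A g = b
  · obtain ⟨r, rfl⟩ := h
    rw [RR_iV]
    unfold PP
    rw [← map_mul]
    have h1 : PL (m + 1) (sr A z).1 ((eU (sr A z)).symm a).1 * PL m A.1 r.1 = 0 := by
      refine PL_mul_rest A.2 z.2 ((eU (sr A z)).symm a).2 r.2 ?_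
      by_contra hc
      push Not at hc
      apply hb
      unfold pj
      congr 1
      apply Subtype.ext
      funext x
      change r.1 x = if x ∈ A.1 then ((eU (sr A z)).symm a).1 x else 0
      by_cases hx : x ∈ A.1
      · rw [if_pos hx]
        exact (hc x hx).symm
      · rw [if_neg hx]
        exact (mem_lab.1 r.2).2 x hx
    rw [h1, map_zero]
  · rw [RR_not h, mul_zero]

private lemma PP_win (A : Sb N m) (z : {z // z ∈ Z A.1}) (a : Fin (2 ^ (m + 1))) :
    PP (sr A z) a * RR A (pj A z a) = PP (sr A z) a := by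
  have h1 : PP (sr A z) a = ∑ b, PP (sr A z) a * RR A b := by
    rw [← mul_sum, RR_sum, mul_one]
  rw [sum_eq_single (pj A z a)] at h1
  · exact h1.symm
  · intro b _ hb
    exact PP_RR A z a b hb
  · intro h
    exact absurd (mem_univ _) h

private lemma edge_win (A : Sb N m) (z : {z // z ∈ Z A.1}) :
    ∑ a, (PP (sr A z) a * RR A (pj A z a)).trace.re / ((2 ^ N : ℕ) : ℝ) = 1 := by
  simp_rw [PP_win]
  rw [← sum_div, ← Complex.re_sum, ← Matrix.trace_sum, PP_sum, Matrix.trace_one,
    Fintype.card_fin, Complex.natCast_re]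
  refine div_self ?_
  positivity

theorem PG_quantum (h : m + 1 ≤ N) :
    ∃ s : (PG N m h).QuantumStrategy (2 ^ N), s.win = 1 := by
  let s : (PG N m h).QuantumStrategy (2 ^ N) :=
    { P := fun u a => PP (N := N) (m := m) u a
      R := fun v b => RR (N := N) (m := m) v b
      P_herm := fun u a => PP_herm u a
      R_herm := fun v b => RR_herm v b
      P_mul := fun u a a' => PP_mul u a a'
      R_mul := fun v b b' => RR_mul v b b'
      P_sum := fun u => PP_sum u
      R_sum := fun v => RR_sum v }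
  refine ⟨s, ?_⟩
  unfold Game.QuantumStrategy.win
  have h1 : ∀ e : (PG N m h).E, ∑ a, (s.P ((PG N m h).src e) a *
      s.R ((PG N m h).tgt e) ((PG N m h).proj e a)).trace.re / ((2 ^ N : ℕ) : ℝ) = 1 := by
    intro e
    exact edge_win (N := N) (m := m) e.1 e.2
  rw [sum_congr rfl (fun e _ => h1 e), sum_const, card_univ, nsmul_eq_mul, mul_one,
    ← Nat.card_eq_fintype_card]
  refine div_self ?_
  have : 0 < Nat.card (PG N m h).E := Nat.card_pos
  positivity

end Pool.Agent.MP_ec946a.QT
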