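import Mathlib
import Pool.Agent.Lib.MP_ec946a_qt.Defs
import Pool.Agent.Lib.MP_ec946a_qt.PGame
import Pool.Agent.Lib.MP_ec946a_qt.Core
import Pool.Agent.Lib.MP_ec946a_qt.Cnt

/-!
# GVal

The value of the Pauli game: a labeling of the game gives the functions `lam`, `mu` of `core`, and
the number of satisfied edges is at most the number of the pairs `(A, z)` with `z ∈ F lam mu A`.
-/

set_option autoImplicit false

namespace Pool.Agent.MP_ec946a.QT

open Finset

variable {N m : ℕ}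

private lemma GVal_card_sigma (P : Finset (Pt N) → Finset (Pt N)) :
    (Nat.card (Σ A : Sb N m, {z // z ∈ P A.1}) : ℝ) = ∑ A ∈ Sing N m, ((P A).card : ℝ) := by
  classical
  rw [Nat.card_eq_fintype_card, Fintype.card_sigma]
  push_cast
  simp only [Fintype.card_coe]
  exact Finset.sum_coe_sort (Sing N m) fun A => ((P A).card : ℝ)

private lemma GVal_res {A : Finset (Pt N)} {f g : Pt N → ZMod 2} (h : res A f = g) {x : Pt N}
    (hx : x ∈ A) : f x = g x := by
  rw [← h]
  unfold res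
  rw [if_pos hx]

theorem PG_value (hN : N = 3 * (m + 1) + 10) (h : m + 1 ≤ N) :
    (PG N m h).value ≤ 2 * ((2 : ℝ) ^ (m + 1)) ^ (-(1 / 12) : ℝ) := by
  classical
  have : Nonempty (((PG N m h).U → Fin (2 ^ (m + 1))) × ((PG N m h).V → Fin (2 ^ (m + 1)))) :=
    ⟨(fun _ => ⟨0, by positivity⟩, fun _ => ⟨0, by positivity⟩)⟩
  unfold Game.value
  refine ciSup_le fun L => ?_
  obtain ⟨LU, LV⟩ := L
  change Sb N (m + 1) → Fin (2 ^ (m + 1)) at LU
  change Sb N m → Fin (2 ^ (m + 1)) at LV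
  let lam : Finset (Pt N) → Pt N → ZMod 2 := fun L =>
    if h : L ∈ Sing N (m + 1) then ((eU ⟨L, h⟩).symm (LU ⟨L, h⟩)).1 else 0
  let mu : Finset (Pt N) → Pt N → ZMod 2 := fun A =>
    if h : A ∈ Sing N m then
      (if h' : ∃ g, iV ⟨A, h⟩ g = LV ⟨A, h⟩ then (h'.choose).1 else 0) else 0
  have hlam : ∀ L ∈ Sing N (m + 1), Quad L (lam L) := by
    intro L hL
    simp only [lam, dif_pos hL]
    exact (mem_lab.1 ((eU ⟨L, hL⟩).symm (LU ⟨L, hL⟩)).2).1
  have hcore := core hN mu hlam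
  -- the number of edges
  have hE : (Nat.card (PG N m h).E : ℝ) = (Sing N m).card * eN N m := by
    have h1 : (Nat.card (PG N m h).E : ℝ) = ∑ A ∈ Sing N m, ((Z A).card : ℝ) :=
      GVal_card_sigma (m := m) Z
    rw [h1, sum_congr rfl fun A hA => card_Z hA, sum_const, nsmul_eq_mul]
  have hpos : (0 : ℝ) < (Sing N m).card * eN N m :=
    mul_pos (by exact_mod_cast sing_card_pos (N := N) (m := m) (by omega)) (eN_pos h)
  -- satisfied edges
  have hsat : ∀ e : Σ A : Sb N m, {z // z ∈ Z A.1}, e ∈ (PG N m h).satisfied LU LV →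
      e.2.1 ∈ F lam mu e.1.1 := by
    rintro ⟨A, z⟩ he
    have he' : iV A ⟨res A.1 ((eU (sr A z)).symm (LU (sr A z))).1,
      res_mem A.2 subset_adj ((eU (sr A z)).symm (LU (sr A z))).2⟩ = LV A := he
    refine mem_F.2 ⟨z.2, fun x hx => ?_⟩
    have hl : lam (adj A.1 z.1) = ((eU (sr A z)).symm (LU (sr A z))).1 := by
      simp only [lam, dif_pos (adj_mem_Sing A.2 z.2)]
      rfl
    have hm : mu A.1 = res A.1 ((eU (sr A z)).symm (LU (sr A z))).1 := by
      have hex : ∃ g, iV A g = LV A := ⟨_, he'⟩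
      have h2 : mu A.1 = (hex.choose).1 := by
        simp only [mu, dif_pos A.2]
        exact dif_pos hex
      rw [h2]
      have h3 := (iV A).injective (hex.choose_spec.trans he'.symm)
      exact congrArg Subtype.val h3
    change lam (adj A.1 z.1) x = mu A.1 x
    rw [hl, hm]
    exact GVal_res rfl hx
  have hcard : (Nat.card ((PG N m h).satisfied LU LV) : ℝ)
      ≤ ∑ A ∈ Sing N m, ((F lam mu A).card : ℝ) := by
    rw [← GVal_card_sigma (m := m) (F lam mu)]
    have hinj : Function.Injective (fun e : (PG N m h).satisfied LU LV =>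
        (⟨e.1.1, ⟨e.1.2.1, hsat e.1 e.2⟩⟩ : Σ A : Sb N m, {z // z ∈ F lam mu A.1})) := by
      rintro ⟨⟨A, z⟩, h1⟩ ⟨⟨A', z'⟩, h2⟩ h3
      simp only [Sigma.mk.injEq] at h3
      obtain ⟨rfl, h4⟩ := h3
      have h5 := congrArg Subtype.val (eq_of_heq h4)
      have h6 : z = z' := Subtype.ext h5
      subst h6
      rfl
    exact_mod_cast Nat.card_le_card_of_injective _ hinj
  change (Nat.card ((PG N m h).satisfied LU LV) : ℝ) / (Nat.card (PG N m h).E : ℝ) ≤ _
  rw [hE, div_le_iff₀ hpos]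
  exact hcard.trans hcore

end Pool.Agent.MP_ec946a.QT
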