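import Mathlib
import Pool.Agent.Lib.MP_ec946a_qt.Defs
import Pool.Agent.Lib.MP_ec946a_sda.Level

/-!
# A solution of level zero from a kernel
-/

set_option autoImplicit false

namespace Pool.Agent.MP_ec946a.QT

open Finset

variable {q : ℕ} {G : Game q}

open Classical in
/-- the numbers of a solution of level zero -/
private noncomputable def yy (t : ((G.U ⊕ G.V) × Fin q) → ((G.U ⊕ G.V) × Fin q) → ℝ)
    (S : Finset ((G.U ⊕ G.V) × Fin q)) : ℝ :=
  if S.card = 0 then 1 else if S.card = 1 then ∑ i ∈ S, t i i else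
    if S.card = 2 then (∑ i ∈ S, ∑ j ∈ S.erase i, t i j) / 2 else 0

variable {t : ((G.U ⊕ G.V) × Fin q) → ((G.U ⊕ G.V) × Fin q) → ℝ}

private lemma yy_empty : yy t ∅ = 1 := by
  unfold yy
  rw [if_pos card_empty]

private lemma yy_one (i : (G.U ⊕ G.V) × Fin q) : yy t {i} = t i i := by
  unfold yy
  rw [card_singleton, if_neg one_ne_zero, if_pos rfl, sum_singleton]

open Classical in
private lemma yy_two (hsymm : ∀ i j, t i j = t j i) {i j : (G.U ⊕ G.V) × Fin q} (h : i ≠ j) :
    yy t {i, j} = t i j := by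
  unfold yy
  have h1 : ({i, j} : Finset ((G.U ⊕ G.V) × Fin q)).erase i = {j} := by
    rw [erase_insert (by simpa using h)]
  have h2 : ({i, j} : Finset ((G.U ⊕ G.V) × Fin q)).erase j = {i} := by
    rw [pair_comm, erase_insert (by simpa using h.symm)]
  rw [card_pair h, if_neg (by norm_num), if_neg (by norm_num), if_pos rfl, sum_pair h, h1, h2,
    sum_singleton, sum_singleton, hsymm j i]
  ring

open Classical in
private lemma yy_insert (hsymm : ∀ i j, t i j = t j i) (i j : (G.U ⊕ G.V) × Fin q) :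
    yy t (insert i {j}) = t i j := by
  rcases eq_or_ne i j with rfl | h
  · rw [insert_eq_of_mem (mem_singleton_self i), yy_one]
  · exact yy_two hsymm h

open Classical in
private lemma yy_zero {S : Finset ((G.U ⊕ G.V) × Fin q)} (hsymm : ∀ i j, t i j = t j i)
    {i j : (G.U ⊕ G.V) × Fin q} (h : i ≠ j) (hi : i ∈ S) (hj : j ∈ S) (ht : t i j = 0) :
    yy t S = 0 := by
  have h1 : ({i, j} : Finset ((G.U ⊕ G.V) × Fin q)) ⊆ S := by
    intro x hx
    rcases mem_insert.1 hx with rfl | hx
    · exact hi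
    · rw [mem_singleton.1 hx]
      exact hj
  have h2 := card_le_card h1
  rw [card_pair h] at h2
  by_cases h3 : S.card = 2
  · have h4 : {i, j} = S := eq_of_subset_of_card_le h1 (by rw [h3, card_pair h])
    rw [← h4, yy_two hsymm h, ht]
  · unfold yy
    rw [if_neg (by omega), if_neg (by omega), if_neg h3]

theorem level_of_kernel (t : ((G.U ⊕ G.V) × Fin q) → ((G.U ⊕ G.V) × Fin q) → ℝ)
    (hsymm : ∀ i j, t i j = t j i) (hnn : ∀ i j, 0 ≤ t i j)
    (hone : ∀ x, ∑ a, t (x, a) (x, a) = 1) (hsum : ∀ x j, ∑ a, t (x, a) j = t j j)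
    (hconf : ∀ x a b, a ≠ b → t (x, a) (x, b) = 0)
    (hedge : ∀ e a b, G.proj e a ≠ b → t (Sum.inl (G.src e), a) (Sum.inr (G.tgt e), b) = 0)
    (hpsd : ∀ c : (G.U ⊕ G.V) × Fin q → ℝ, 0 ≤ ∑ i, ∑ j, c i * c j * t i j) :
    Nonempty (G.LevelSolution 0) := by
  classical
  refine ⟨⟨yy t, yy_empty, ?_, ?_, ?_, ?_, ?_⟩⟩
  · intro S _
    unfold yy
    split_ifs
    · exact zero_le_one
    · exact sum_nonneg fun i _ => hnn i i
    · exact div_nonneg (sum_nonneg fun i _ => sum_nonneg fun j _ => hnn i j) zero_le_two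
    · exact le_refl _
  · intro S x hS
    rcases Nat.lt_or_ge S.card 1 with h | h
    · have h1 : S = ∅ := card_eq_zero.1 (by omega)
      subst h1
      rw [yy_empty, ← hone x]
      refine sum_congr rfl fun a _ => ?_
      rw [← yy_one (t := t) (x, a)]
      congr 1
    · obtain ⟨j, rfl⟩ := card_eq_one.1 (le_antisymm (by omega) h)
      rw [yy_one, ← hsum x j]
      refine sum_congr rfl fun a _ => ?_
      have h2 := yy_insert hsymm (x, a) j
      convert h2 using 2
  · intro S x a b hab h1 h2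
    refine yy_zero hsymm (i := (x, a)) (j := (x, b)) ?_ h1 h2 (hconf x a b hab)
    intro h
    exact hab (Prod.ext_iff.1 h).2
  · intro S e a b hab h1 h2
    refine yy_zero hsymm ?_ h1 h2 (hedge e a b hab)
    intro h
    exact Sum.inl_ne_inr (Prod.ext_iff.1 h).1
  · intro S hS c
    have h1 : S = ∅ := card_eq_zero.1 (by omega)
    subst h1
    refine le_of_le_of_eq (hpsd c) (sum_congr rfl fun i _ => sum_congr rfl fun j _ => ?_)
    have h2 := yy_insert hsymm i j
    rw [← h2]
    congr 2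

end Pool.Agent.MP_ec946a.QT
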