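import Mathlib
import Pool.Agent.Lib.MP_ec946a_qt.Defs

/-!
# TrPos

RECIPE.  `trace (M * M)` for Hermitian `M` is `∑ i j, M i j * M j i = ∑ i j, |M i j|²`
(`Matrix.IsHermitian.apply`, `star`), so its real part is nonnegative.  For Hermitian idempotents
`trace (P * R) = trace (P * R * R * P) = trace ((R * P)ᴴ * (R * P))` (`Matrix.trace_mul_comm`,
`Matrix.trace_mul_cycle`), which is `∑ |.|²` (`Matrix.trace_conjTranspose_mul_self_eq_zero_iff` or
`Matrix.posSemidef_conjTranspose_mul_self`.trace_nonneg).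
-/

set_option autoImplicit false

namespace Pool.Agent.MP_ec946a.QT

open Finset

variable {d : ℕ}

private lemma trace_ct_mul_nonneg (M : Matrix (Fin d) (Fin d) ℂ) :
    0 ≤ (M.conjTranspose * M).trace.re := by
  rw [Matrix.trace]
  simp only [Matrix.diag_apply, Matrix.mul_apply, Matrix.conjTranspose_apply, Complex.re_sum]
  refine sum_nonneg fun i _ => sum_nonneg fun j _ => ?_
  rw [Complex.star_def, Complex.mul_re, Complex.conj_re, Complex.conj_im]
  nlinarith [sq_nonneg (M j i).re, sq_nonneg (M j i).im]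

theorem trace_sq_nonneg {M : Matrix (Fin d) (Fin d) ℂ} (hM : M.IsHermitian) :
    0 ≤ (M * M).trace.re := by
  have h := trace_ct_mul_nonneg M
  rwa [hM.eq] at h

theorem trace_mul_nonneg {P R : Matrix (Fin d) (Fin d) ℂ} (hP : P.IsHermitian)
    (hR : R.IsHermitian) (hP2 : P * P = P) (hR2 : R * R = R) : 0 ≤ (P * R).trace.re := by
  have h := trace_ct_mul_nonneg (R * P)
  rw [Matrix.conjTranspose_mul, hP.eq, hR.eq] at h
  have h2 : P * R * (R * P) = P * R * P := by
    rw [← mul_assoc, mul_assoc P R R, hR2]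
  rw [h2, Matrix.trace_mul_comm, ← mul_assoc, hP2] at h
  exact h

end Pool.Agent.MP_ec946a.QT
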