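import Mathlib
import Pool.Agent.Lib.MP_ec946a_qt.Defs
import Pool.Agent.Lib.MP_ec946a_qt.QDefs
import Pool.Agent.Lib.MP_ec946a_qt.TrPos

/-!
# QPerf

RECIPE.  For each edge `e`: `∑ a, ∑ b, trace (P a * R b) = trace (1 * 1) = d`, all real parts are
nonnegative (`trace_mul_nonneg`), so `∑ a, re trace (P a * R (proj a)) ≤ d` with equality only if all
the other terms vanish.  `win = 1` means that the mean over the edges of
`∑ a, re trace (P a * R (proj e a)) / d` is `1`, so `d ≠ 0` (division by zero is zero) and there is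
equality for every edge.
-/

set_option autoImplicit false

namespace Pool.Agent.MP_ec946a.QT

open Finset

variable {q d : ℕ} {G : Game q}

private lemma term_nonneg (s : G.QuantumStrategy d) (u : G.U) (v : G.V) (a b : Fin q) :
    0 ≤ (s.P u a * s.R v b).trace.re :=
  trace_mul_nonneg (s.P_herm u a) (s.R_herm v b) (by rw [s.P_mul, if_pos rfl])
    (by rw [s.R_mul, if_pos rfl])

private lemma total_eq (s : G.QuantumStrategy d) (u : G.U) (v : G.V) :
    ∑ a, ∑ b, (s.P u a * s.R v b).trace.re = d := by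
  have h : ∑ a, ∑ b, (s.P u a * s.R v b).trace = (d : ℂ) := by
    have h1 : ∀ a, ∑ b, (s.P u a * s.R v b).trace = (s.P u a).trace := by
      intro a
      rw [← Matrix.trace_sum, ← Matrix.mul_sum, s.R_sum, mul_one]
    rw [sum_congr rfl fun a _ => h1 a, ← Matrix.trace_sum, s.P_sum, Matrix.trace_one]
    simp
  have h2 := congrArg Complex.re h
  rw [Complex.re_sum] at h2
  simp only [Complex.re_sum, Complex.natCast_re] at h2
  exact h2

theorem perfect_of_win (s : G.QuantumStrategy d) (h : s.win = 1) :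
    d ≠ 0 ∧ ∀ e a b, G.proj e a ≠ b → (s.P (G.src e) a * s.R (G.tgt e) b).trace.re = 0 := by
  classical
  have hcard : (0 : ℝ) < Nat.card G.E := by
    have : 0 < Nat.card G.E := Nat.card_pos
    exact_mod_cast this
  unfold Game.QuantumStrategy.win at h
  rw [div_eq_one_iff_eq hcard.ne'] at h
  have hd : d ≠ 0 := by
    rintro rfl
    simp only [Nat.cast_zero, div_zero, sum_const_zero] at h
    linarith
  have hdpos : (0 : ℝ) < d := by
    have : 0 < d := Nat.pos_of_ne_zero hd
    exact_mod_cast this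
  refine ⟨hd, ?_⟩
  -- the sum over the pairs that win is at most the total
  have hle : ∀ e : G.E, ∑ a, (s.P (G.src e) a * s.R (G.tgt e) (G.proj e a)).trace.re / d ≤ 1 := by
    intro e
    rw [← sum_div, div_le_one hdpos, ← total_eq s (G.src e) (G.tgt e)]
    refine sum_le_sum fun a _ => ?_
    exact single_le_sum (f := fun b => (s.P (G.src e) a * s.R (G.tgt e) b).trace.re)
      (fun b _ => term_nonneg s _ _ a b) (mem_univ _)
  have heq : ∀ e : G.E, ∑ a, (s.P (G.src e) a * s.R (G.tgt e) (G.proj e a)).trace.re / d = 1 := by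
    have h1 : ∑ e : G.E, ∑ a, (s.P (G.src e) a * s.R (G.tgt e) (G.proj e a)).trace.re / d
        = ∑ _e : G.E, (1 : ℝ) := by
      rw [h, sum_const, card_univ, Nat.card_eq_fintype_card]
      simp
    have h2 := (sum_eq_sum_iff_of_le (fun e _ => hle e)).1 h1
    intro e
    exact h2 e (mem_univ _)
  intro e a b hab
  have h1 := heq e
  rw [← sum_div, div_eq_one_iff_eq hdpos.ne', ← total_eq s (G.src e) (G.tgt e)] at h1
  have h2 : ∀ a ∈ (univ : Finset (Fin q)),
      (s.P (G.src e) a * s.R (G.tgt e) (G.proj e a)).trace.re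
        ≤ ∑ b, (s.P (G.src e) a * s.R (G.tgt e) b).trace.re := fun a _ =>
    single_le_sum (f := fun b => (s.P (G.src e) a * s.R (G.tgt e) b).trace.re)
      (fun b _ => term_nonneg s _ _ a b) (mem_univ _)
  have h3 := (sum_eq_sum_iff_of_le h2).1 h1 a (mem_univ _)
  rw [← add_sum_erase _ _ (mem_univ (G.proj e a))] at h3
  have h4 : ∑ b ∈ univ.erase (G.proj e a), (s.P (G.src e) a * s.R (G.tgt e) b).trace.re = 0 := by
    linarith
  rw [sum_eq_zero_iff_of_nonneg (fun b _ => term_nonneg s _ _ a b)] at h4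
  exact h4 b (mem_erase.2 ⟨fun hb => hab hb.symm, mem_univ _⟩)

end Pool.Agent.MP_ec946a.QT
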