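import Mathlib
import Pool.Agent.Lib.MP_ec946a_qt.Defs
import Pool.Agent.Lib.MP_ec946a_qt.QDefs
import Pool.Agent.Lib.MP_ec946a_qt.TrPos
import Pool.Agent.Lib.MP_ec946a_qt.QPerf
import Pool.Agent.Lib.MP_ec946a_qt.LevAbs

/-!
# QLev

RECIPE.  Let `X (Sum.inl u, a) = s.P u a`, `X (Sum.inr v, b) = s.R v b`: Hermitian idempotents,
`X (x, a) * X (x, b) = 0` for `a ≠ b`, `∑ a, X (x, a) = 1`.  Put `t i j = (X i * X j).trace.re / d`
and apply `level_of_kernel`: symmetry `Matrix.trace_mul_comm`, `hnn` `trace_mul_nonneg`,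
`hone`: `∑ a, trace (X (x,a) * X (x,a)) = trace 1 = d`, `hsum`: `∑ a, X (x, a) * X j = X j = X j * X j`,
`hedge` from `perfect_of_win`, `hpsd`: `∑ c i c j trace (X i * X j) = trace (M * M)`,
`M = ∑ i, (c i : ℂ) • X i` Hermitian (`trace_sq_nonneg`).
-/

set_option autoImplicit false

namespace Pool.Agent.MP_ec946a.QT

open Finset

variable {q d : ℕ} {G : Game q}

/-- the projections of the two players together -/
private def XX (s : G.QuantumStrategy d) : G.U ⊕ G.V → Fin q → Matrix (Fin d) (Fin d) ℂ :=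
  Sum.elim s.P s.R

private lemma XX_herm (s : G.QuantumStrategy d) (x : G.U ⊕ G.V) (a : Fin q) :
    (XX s x a).IsHermitian := by
  rcases x with u | v
  · exact s.P_herm u a
  · exact s.R_herm v a

private lemma XX_mul (s : G.QuantumStrategy d) (x : G.U ⊕ G.V) (a b : Fin q) :
    XX s x a * XX s x b = if a = b then XX s x a else 0 := by
  rcases x with u | v
  · exact s.P_mul u a b
  · exact s.R_mul v a b

private lemma XX_sq (s : G.QuantumStrategy d) (x : G.U ⊕ G.V) (a : Fin q) :
    XX s x a * XX s x a = XX s x a := by rw [XX_mul, if_pos rfl]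

private lemma XX_sum (s : G.QuantumStrategy d) (x : G.U ⊕ G.V) : ∑ a, XX s x a = 1 := by
  rcases x with u | v
  · exact s.P_sum u
  · exact s.R_sum v

theorem level_of_quantum (s : G.QuantumStrategy d) (h : s.win = 1) :
    Nonempty (G.LevelSolution 0) := by
  obtain ⟨hd, hperf⟩ := perfect_of_win s h
  have hdpos : (0 : ℝ) < d := by
    have : 0 < d := Nat.pos_of_ne_zero hd
    exact_mod_cast this
  refine level_of_kernel (fun i j => (XX s i.1 i.2 * XX s j.1 j.2).trace.re / d) ?_ ?_ ?_ ?_ ?_ ?_ ?_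
  · intro i j
    rw [Matrix.trace_mul_comm]
  · intro i j
    exact div_nonneg (trace_mul_nonneg (XX_herm s _ _) (XX_herm s _ _) (XX_sq s _ _) (XX_sq s _ _))
      hdpos.le
  · intro x
    simp only [XX_sq]
    rw [← sum_div, ← Complex.re_sum, ← Matrix.trace_sum, XX_sum, Matrix.trace_one]
    simp only [Fintype.card_fin, Complex.natCast_re]
    exact div_self hdpos.ne'
  · intro x j
    rw [← sum_div, ← Complex.re_sum, ← Matrix.trace_sum, ← Matrix.sum_mul, XX_sum, one_mul, XX_sq]
  · intro x a b hab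
    rw [XX_mul, if_neg hab]
    simp
  · intro e a b hab
    have h1 := hperf e a b hab
    change (s.P (G.src e) a * s.R (G.tgt e) b).trace.re / d = 0
    rw [h1, zero_div]
  · intro c
    set M : Matrix (Fin d) (Fin d) ℂ := ∑ i : (G.U ⊕ G.V) × Fin q, (c i : ℂ) • XX s i.1 i.2 with hM
    have hMh : M.IsHermitian := by
      unfold Matrix.IsHermitian
      rw [hM, Matrix.conjTranspose_sum]
      refine sum_congr rfl fun i _ => ?_
      rw [Matrix.conjTranspose_smul, (XX_herm s i.1 i.2).eq]
      congr 1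
      simp
    have h1 := trace_sq_nonneg hMh
    have h2 : (M * M).trace.re = ∑ i, ∑ j, c i * c j * (XX s i.1 i.2 * XX s j.1 j.2).trace.re := by
      rw [hM, Matrix.sum_mul, Matrix.trace_sum, Complex.re_sum]
      refine sum_congr rfl fun i _ => ?_
      rw [Matrix.mul_sum, Matrix.trace_sum, Complex.re_sum]
      refine sum_congr rfl fun j _ => ?_
      rw [Matrix.smul_mul, Matrix.mul_smul, smul_smul, Matrix.trace_smul, smul_eq_mul,
        ← Complex.ofReal_mul, Complex.re_ofReal_mul]
    have h3 : ∑ i, ∑ j, c i * c j * ((XX s i.1 i.2 * XX s j.1 j.2).trace.re / d)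
        = (M * M).trace.re / d := by
      rw [h2, sum_div]
      refine sum_congr rfl fun i _ => ?_
      rw [sum_div]
      refine sum_congr rfl fun j _ => ?_
      ring
    rw [h3]
    exact div_nonneg h1 hdpos.le

end Pool.Agent.MP_ec946a.QT
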