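import Mathlib
import Pool.Agent.Lib.MP_ec946a_qt.Defs
import Pool.Agent.Lib.MP_ec946a_qt.GVal
import Pool.Agent.Lib.MP_ec946a_qt.GExp
import Pool.Agent.Lib.MP_ec946a_qt.GQ
import Pool.Agent.Lib.MP_ec946a_qt.QLev

/-!
# Perfect quantum strategies and the expansion threshold: main theorems
-/

set_option autoImplicit false

namespace Pool.Agent.MP_ec946a.QT

open Finset

theorem quantum_lower {q : ℕ} (G : Game q) {d : ℕ} (s : G.QuantumStrategy d) (h : s.win = 1)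
    {m : ℕ} {σ : ℝ} (hσ : 0 ≤ σ) (hG : G.Expands m σ) (hc : 0 ≤ 1 - √2 * σ) :
    (1 - √2 * σ) ^ 2 ≤ 72 * m * G.value :=
  (level_of_quantum s h).elim fun t => SDA.value_ge_of_level_zero t hσ hc hG

theorem quantum_gap (k : ℕ) (hk : 1 ≤ k) : ∃ G : Game (2 ^ k),
    (∀ e b, Nat.card {a // G.proj e a = b} = 0 ∨ Nat.card {a // G.proj e a = b} = 2) ∧
    (∃ s : G.QuantumStrategy (2 ^ (3 * k + 10)), s.win = 1) ∧
    G.Expands 1 (1 / √2) ∧ G.value ≤ 2 * ((2 ^ k : ℕ) : ℝ) ^ (-(1 / 12) : ℝ) := by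
  obtain ⟨m, rfl⟩ : ∃ m, k = m + 1 := ⟨k - 1, by omega⟩
  have h : m + 1 ≤ 3 * (m + 1) + 10 := by omega
  refine ⟨PG (3 * (m + 1) + 10) m h, ?_, PG_quantum h, PG_expands rfl h, ?_⟩
  · intro e b
    exact pj_card e.1 e.2 b
  · have h1 := PG_value (m := m) rfl h
    push_cast
    exact h1

end Pool.Agent.MP_ec946a.QT
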